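import Mathlib

/-! The number of units of `F[X] / (X ^ n - 1)` for a finite field of characteristic prime
to `n`. -/

open Polynomial UniqueFactorizationMonoid

namespace Q9.Circ

universe u

/-- number of units of `F[X] / (f)` -/
noncomputable def U {F : Type u} [Field F] (f : F[X]) : ℕ := Nat.card (F[X] ⧸ Ideal.span {f})ˣ

variable {F : Type u} [Field F]

theorem U_congr {f g : F[X]} (h : Associated f g) : U f = U g := by
  rw [U, U, Ideal.span_singleton_eq_span_singleton.2 h]

theorem U_mul {f g : F[X]} (h : IsCoprime f g) : U (f * g) = U f * U g := by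
  have h1 : Ideal.span {f * g} = Ideal.span {f} * Ideal.span {g} :=
    (Ideal.span_singleton_mul_span_singleton _ _).symm
  have e := Units.mapEquiv (Ideal.quotientMulEquivQuotientProd (Ideal.span {f}) (Ideal.span {g})
    ((Ideal.isCoprime_span_singleton_iff f g).2 h)).toMulEquiv
  rw [U, h1, Nat.card_congr (e.trans MulEquiv.prodUnits).toEquiv, Nat.card_prod]
  rfl

theorem U_one : U (1 : F[X]) = 1 := by
  rw [U]
  have : Subsingleton (F[X] ⧸ Ideal.span {(1 : F[X])}) := by
    rw [Ideal.span_singleton_one]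
    exact Ideal.Quotient.subsingleton_iff.2 rfl
  haveI : Unique (F[X] ⧸ Ideal.span {(1 : F[X])})ˣ :=
    ⟨⟨1⟩, fun a => Units.ext (Subsingleton.elim _ _)⟩
  exact Nat.card_unique

theorem U_prod {ι : Type*} (s : Finset ι) (f : ι → F[X]) (h : (∏ i ∈ s, f i).Separable) :
    U (∏ i ∈ s, f i) = ∏ i ∈ s, U (f i) := by
  classical
  induction s using Finset.induction_on with
  | empty => rw [Finset.prod_empty, Finset.prod_empty, U_one]
  | insert a s ha ih =>
    rw [Finset.prod_insert ha] at h ⊢
    rw [Finset.prod_insert ha, U_mul h.isCoprime, ih h.of_mul_right]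

theorem U_irreducible [Finite F] {g : F[X]} (hg : Irreducible g) :
    U g = Nat.card F ^ g.natDegree - 1 := by
  haveI : (Ideal.span {g}).IsMaximal := PrincipalIdealRing.isMaximal_of_irreducible hg
  letI : Field (F[X] ⧸ Ideal.span {g}) := Ideal.Quotient.field _
  rw [U, Nat.card_units]
  have h1 : Module.finrank F (F[X] ⧸ Ideal.span {g}) = g.natDegree :=
    finrank_quotient_span_eq_natDegree
  haveI : Module.Finite F (F[X] ⧸ Ideal.span {g}) :=
    Module.finite_of_finrank_pos (by rw [h1]; exact hg.natDegree_pos)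
  rw [Module.natCard_eq_pow_finrank (K := F), h1]

theorem U_cyclotomic [Finite F] (p : ℕ) [hp : Fact p.Prime] [CharP F p] (d : ℕ) (hd : ¬ p ∣ d) :
    U (cyclotomic d F) = (Nat.card F ^ orderOf ((Nat.card F : ℕ) : ZMod d) - 1) ^
      (d.totient / orderOf ((Nat.card F : ℕ) : ZMod d)) := by
  classical
  haveI := Fintype.ofFinite F
  obtain ⟨f, -, hK⟩ := FiniteField.card F p
  have hcop : p.Coprime d := (Nat.Prime.coprime_iff_not_dvd hp.out).2 hd
  have hord : orderOf (ZMod.unitOfCoprime _ (hcop.pow_left (f : ℕ))) =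
      orderOf ((Nat.card F : ℕ) : ZMod d) := by
    rw [← orderOf_units, ZMod.coe_unitOfCoprime, Nat.card_eq_fintype_card, hK]
  haveI : NeZero (d : F) := ⟨fun h => hd ((CharP.cast_eq_zero_iff F p d).1 h)⟩
  have hsq := squarefree_cyclotomic d F
  have hnd : (normalizedFactors (cyclotomic d F)).Nodup :=
    (squarefree_iff_nodup_normalizedFactors (cyclotomic_ne_zero d F)).1 hsq
  have hprod : ∏ g ∈ (normalizedFactors (cyclotomic d F)).toFinset, g =
      (normalizedFactors (cyclotomic d F)).prod := by
    rw [Finset.prod_eq_multiset_prod, Multiset.toFinset_val, Multiset.dedup_eq_self.2 hnd,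
      Multiset.map_id']
  have hass : Associated (∏ g ∈ (normalizedFactors (cyclotomic d F)).toFinset, g)
      (cyclotomic d F) := by
    rw [hprod]
    exact prod_normalizedFactors (cyclotomic_ne_zero d F)
  have hsep : (∏ g ∈ (normalizedFactors (cyclotomic d F)).toFinset, g).Separable := by
    rw [← PerfectField.separable_iff_squarefree] at hsq
    exact hsq.of_dvd hass.dvd
  rw [← U_congr hass, U_prod _ _ hsep, Finset.prod_congr rfl (g := fun _ =>
    Nat.card F ^ orderOf ((Nat.card F : ℕ) : ZMod d) - 1), Finset.prod_const,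
    normalizedFactors_cyclotomic_card hK hcop, hord]
  intro g hg
  rw [Multiset.mem_toFinset] at hg
  rw [U_irreducible (irreducible_of_normalized_factor g hg),
    natDegree_of_mem_normalizedFactors_cyclotomic hK hcop hg, hord]

theorem U_X_pow_sub_one [Finite F] (p : ℕ) [hp : Fact p.Prime] [CharP F p] (n : ℕ) (hn : ¬ p ∣ n) :
    U (X ^ n - 1 : F[X]) = ∏ d ∈ n.divisors,
      (Nat.card F ^ orderOf ((Nat.card F : ℕ) : ZMod d) - 1) ^
      (d.totient / orderOf ((Nat.card F : ℕ) : ZMod d)) := by
  have hn0 : n ≠ 0 := by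
    rintro rfl
    exact hn (dvd_zero _)
  rw [← prod_cyclotomic_eq_X_pow_sub_one (Nat.pos_of_ne_zero hn0), U_prod]
  · refine Finset.prod_congr rfl fun d hd => ?_
    exact U_cyclotomic p d fun h => hn (h.trans (Nat.dvd_of_mem_divisors hd))
  · rw [prod_cyclotomic_eq_X_pow_sub_one (Nat.pos_of_ne_zero hn0)]
    rw [X_pow_sub_one_separable_iff]
    intro h
    exact hn ((CharP.cast_eq_zero_iff F p n).1 h)

end Q9.Circ
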