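import Pool.Agent.Q9.CircImage
import Pool.Agent.Q9.CircUnits

/-! Counting circulant matrices with given unit determinant. -/

open Polynomial Matrix

namespace Q9.Circ

universe u

theorem isUnit_lift {A B : Type*} [CommRing A] [CommRing B] (φ : A →+* B)
    (hφ : Function.Surjective φ) (hn : ∀ x, φ x = 0 → IsNilpotent x) {x : A}
    (hx : IsUnit (φ x)) : IsUnit x := by
  obtain ⟨b, hb⟩ := hx.exists_right_inv
  obtain ⟨y, rfl⟩ := hφ b
  have h1 : IsNilpotent (x * y - 1) := hn _ (by rw [map_sub, map_mul, hb, map_one, sub_self])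
  have h2 := h1.isUnit_add_one
  rw [sub_add_cancel] at h2
  exact isUnit_of_mul_isUnit_left h2

theorem card_units_lift {A B : Type*} [CommRing A] [CommRing B] (φ : A →+* B)
    (hφ : Function.Surjective φ) (hn : ∀ x, φ x = 0 → IsNilpotent x) :
    Nat.card Aˣ * Nat.card B = Nat.card A * Nat.card Bˣ := by
  classical
  let σ := Function.surjInv hφ
  have hσ : ∀ b, φ (σ b) = b := Function.surjInv_eq hφ
  let e : A ≃ B × RingHom.ker φ :=
    { toFun := fun x => (φ x, ⟨x - σ (φ x), by rw [RingHom.mem_ker, map_sub, hσ, sub_self]⟩)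
      invFun := fun y => σ y.1 + y.2
      left_inv := fun x => by simp
      right_inv := fun y => by
        have h : φ (σ y.1 + y.2) = y.1 := by
          rw [map_add, hσ, (RingHom.mem_ker).1 y.2.2, add_zero]
        ext
        · exact h
        · simp only [h]
          exact add_sub_cancel_left _ _ }
  have hu : ∀ (b : Bˣ) (k : RingHom.ker φ), φ (σ b + k) = b := fun b k => by
    rw [map_add, hσ, (RingHom.mem_ker).1 k.2, add_zero]
  let e' : Aˣ ≃ Bˣ × RingHom.ker φ :=
    { toFun := fun x => (Units.map φ.toMonoidHom x,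
        ⟨x - σ (φ x), by rw [RingHom.mem_ker, map_sub, hσ, sub_self]⟩)
      invFun := fun y => (isUnit_lift φ hφ hn (x := σ y.1 + y.2) (by
        rw [hu]; exact y.1.isUnit)).unit
      left_inv := fun x => Units.ext (by simp)
      right_inv := fun y => by
        ext
        · change φ (σ y.1 + y.2) = y.1
          exact hu _ _
        · change (σ y.1 + y.2) - σ (φ (σ y.1 + y.2)) = y.2
          rw [hu]
          exact add_sub_cancel_left _ _ }
  rw [Nat.card_congr e, Nat.card_congr e', Nat.card_prod, Nat.card_prod]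
  ring

variable (R : Type u) [CommRing R] (n : ℕ) [NeZero n]

/-- The relations of the cyclic permutation matrix. -/
noncomputable def K : Ideal R[X] :=
  RingHom.ker (aeval (P R n) : R[X] →ₐ[R] Matrix (ZMod n) (ZMod n) R).toRingHom

/-- The ring of circulants. -/
abbrev S := R[X] ⧸ K R n

/-- the embedding into matrices -/
noncomputable def iota : S R n →+* Matrix (ZMod n) (ZMod n) R :=
  RingHom.kerLift (aeval (P R n) : R[X] →ₐ[R] Matrix (ZMod n) (ZMod n) R).toRingHom

theorem iota_injective : Function.Injective (iota R n) := RingHom.kerLift_injective _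

theorem iota_mk (f : R[X]) : iota R n (Ideal.Quotient.mk _ f) = aeval (P R n) f := rfl

/-- the determinant -/
noncomputable def NS : S R n →* R := detMonoidHom.comp (iota R n).toMonoidHom

theorem NS_mk (f : R[X]) : NS R n (Ideal.Quotient.mk _ f) = NR n f := rfl

theorem K_le (f : R[X]) (hf : f ∈ K R n) : ∃ g, f = (X ^ n - 1) * g := by
  nontriviality R
  have h0 : 0 < n := Nat.pos_of_ne_zero (NeZero.ne n)
  have hm : (X ^ n - 1 : R[X]).Monic := by
    have := monic_X_pow_sub_C (1 : R) h0.ne'
    rwa [C_1] at this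
  have hd : (X ^ n - 1 : R[X]).degree = n := by
    have := degree_X_pow_sub_C h0 (1 : R)
    rwa [C_1] at this
  have h1 := modByMonic_add_div f (X ^ n - 1)
  have h2 : f %ₘ (X ^ n - 1) = 0 := by
    apply aeval_P_eq_zero n
    · by_cases hz : f %ₘ (X ^ n - 1) = 0
      · rw [hz, natDegree_zero]; exact h0
      · rw [natDegree_lt_iff_degree_lt hz, ← hd]
        exact degree_modByMonic_lt _ hm
    · have h3 : aeval (P R n) f = 0 := hf
      rw [← h1, map_add, map_mul, map_sub, map_pow, aeval_X, P_pow_self, map_one, sub_self,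
        zero_mul, add_zero] at h3
      exact h3
  exact ⟨f /ₘ (X ^ n - 1), by rw [h2, zero_add] at h1; exact h1.symm⟩

theorem mem_K (f : R[X]) : (X ^ n - 1) * f ∈ K R n := by
  change aeval (P R n) ((X ^ n - 1) * f) = 0
  rw [map_mul, map_sub, map_pow, aeval_X, P_pow_self, map_one, sub_self, zero_mul]

/-- the element with given coefficients -/
noncomputable def vecS (v : ZMod n → R) : S R n :=
  Ideal.Quotient.mk _ (∑ j ∈ Finset.range n, C (v (j : ZMod n)) * X ^ j)

theorem iota_vecS (v : ZMod n → R) : iota R n (vecS R n v) = circulant v := by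
  rw [vecS, iota_mk, map_sum]
  ext a b
  rw [Matrix.sum_apply, circulant_apply, Finset.sum_eq_single (a - b).val]
  · rw [map_mul, aeval_C, map_pow, aeval_X, P_pow, ← Algebra.smul_def, Matrix.smul_apply,
      circulant_apply, ZMod.natCast_zmod_val, Pi.single_eq_same, smul_eq_mul, mul_one]
  · intro l hl hne
    rw [map_mul, aeval_C, map_pow, aeval_X, P_pow, ← Algebra.smul_def, Matrix.smul_apply,
      circulant_apply, Pi.single_eq_of_ne, smul_zero]
    intro he
    apply hne
    rw [he, ZMod.val_natCast, Nat.mod_eq_of_lt (Finset.mem_range.1 hl)]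
  · intro h
    exact absurd (Finset.mem_range.2 (ZMod.val_lt _)) h

theorem vecS_bijective : Function.Bijective (vecS R n) := by
  constructor
  · intro v w h
    have := congrArg (iota R n) h
    rw [iota_vecS, iota_vecS] at this
    exact circulant_injective this
  · intro x
    obtain ⟨f, rfl⟩ := Ideal.Quotient.mk_surjective x
    obtain ⟨v, hv⟩ : ∃ v, circulant v = aeval (P R n) f :=
      ⟨_, (aeval_P n f (f.natDegree + 1) (Nat.lt_succ_self _)).symm⟩
    refine ⟨v, iota_injective R n ?_⟩
    rw [iota_vecS, iota_mk, hv]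

theorem card_S : Nat.card (S R n) = Nat.card R ^ n := by
  rw [← Nat.card_congr (Equiv.ofBijective _ (vecS_bijective R n)), Nat.card_fun, Nat.card_zmod]

theorem isUnit_S [Finite R] (x : S R n) (h : IsUnit (NS R n x)) : IsUnit x := by
  haveI : Finite (S R n) := Finite.of_surjective _ (vecS_bijective R n).2
  have h1 : IsUnit (iota R n x) := (Matrix.isUnit_iff_isUnit_det _).2 h
  have hinj : Function.Injective fun y => x * y := by
    intro y z hyz
    apply iota_injective R n
    have := congrArg (iota R n) hyz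
    simp only [map_mul] at this
    exact h1.mul_left_cancel this
  obtain ⟨y, hy⟩ := (Finite.injective_iff_surjective.1 hinj) 1
  exact IsUnit.of_mul_eq_one y hy

open scoped Classical in
/-- fibres of the determinant -/
theorem card_fibre [Finite R] (a : R) (ha : IsUnit a) :
    Nat.card {v : ZMod n → R // (Matrix.of fun i j => v (j - i)).det = a} *
      Nat.card {b : R // IsUnit b ∧ ∃ f : R[X], NR n f = b} =
      if (∃ f : R[X], NR n f = a) then Nat.card (S R n)ˣ else 0 := by
  have hdet : ∀ v : ZMod n → R, (Matrix.of fun i j => v (j - i)).det = NS R n (vecS R n v) := by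
    intro v
    change _ = (iota R n (vecS R n v)).det
    rw [iota_vecS, ← det_transpose]
    rfl
  let Nu : (S R n)ˣ →* Rˣ := Units.map (NS R n)
  split_ifs with h
  · obtain ⟨f, hf⟩ := h
    have hfu : IsUnit (Ideal.Quotient.mk (K R n) f) := isUnit_S R n _ (by rw [NS_mk, hf]; exact ha)
    obtain ⟨u₀, hu₀⟩ := hfu
    have hu₀' : NS R n u₀ = a := by rw [hu₀, NS_mk, hf]
    have e1 : {v : ZMod n → R // (Matrix.of fun i j => v (j - i)).det = a} ≃ Nu.ker := by
      refine ((Equiv.ofBijective _ (vecS_bijective R n)).subtypeEquiv (q := fun x => NS R n x = a)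
        (fun v => by rw [hdet]; rfl)).trans ?_
      refine
        { toFun := fun x => ⟨u₀⁻¹ * (isUnit_S R n x.1 (by rw [x.2]; exact ha)).unit, ?_⟩
          invFun := fun u => ⟨u₀ * u.1, ?_⟩
          left_inv := fun x => ?_
          right_inv := fun u => ?_ }
      · rw [MonoidHom.mem_ker, map_mul, map_inv, inv_mul_eq_one]
        ext
        change NS R n u₀ = NS R n x.1
        rw [x.2, hu₀']
      · have h1 := congrArg Units.val ((MonoidHom.mem_ker).1 u.2)
        have h2 : NS R n (u.1 : S R n) = 1 := h1
        rw [map_mul, h2, mul_one, hu₀']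
      · ext
        change (u₀ : S R n) * ((u₀⁻¹ : (S R n)ˣ) * x.1) = x.1
        rw [← mul_assoc, Units.mul_inv, one_mul]
      · ext
        change ((u₀⁻¹ : (S R n)ˣ) : S R n) * (u₀ * u.1) = u.1
        rw [← mul_assoc, Units.inv_mul, one_mul]
    have e2 : {b : R // IsUnit b ∧ ∃ f : R[X], NR n f = b} ≃ Nu.range := by
      refine
        { toFun := fun b => ⟨b.2.1.unit, ?_⟩
          invFun := fun u => ⟨(u.1 : R), u.1.isUnit, ?_⟩
          left_inv := fun b => rfl
          right_inv := fun u => ?_ }
      · obtain ⟨g, hg⟩ := b.2.2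
        have hgu : IsUnit (Ideal.Quotient.mk (K R n) g) :=
          isUnit_S R n _ (by rw [NS_mk, hg]; exact b.2.1)
        obtain ⟨w, hw⟩ := hgu
        refine ⟨w, ?_⟩
        ext
        change NS R n w = b.1
        rw [hw, NS_mk, hg]
      · obtain ⟨w, hw⟩ := u.2
        obtain ⟨g, hg⟩ := Ideal.Quotient.mk_surjective (w : S R n)
        refine ⟨g, ?_⟩
        rw [← NS_mk, hg, ← hw]
        rfl
      · ext
        rfl
    rw [Nat.card_congr e1, Nat.card_congr e2, ← Subgroup.card_mul_index Nu.ker,
      Subgroup.index_ker]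
  · have : IsEmpty {v : ZMod n → R // (Matrix.of fun i j => v (j - i)).det = a} := by
      refine ⟨fun v => h ?_⟩
      obtain ⟨f, hf⟩ := Ideal.Quotient.mk_surjective (vecS R n v.1)
      refine ⟨f, ?_⟩
      rw [← NS_mk, hf, ← hdet, v.2]
    rw [Nat.card_of_isEmpty, zero_mul]

end Q9.Circ
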