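import Mathlib

/-! Determinants of polynomials in the cyclic permutation matrix. -/

open Polynomial Matrix

namespace Q9.Circ

universe u

variable {R : Type u} [CommRing R] (n : ℕ) [NeZero n]

/-- The cyclic permutation matrix. -/
def P (R : Type u) [CommRing R] (n : ℕ) [NeZero n] : Matrix (ZMod n) (ZMod n) R :=
  circulant (Pi.single 1 1)

theorem circ_single_mul (a b : ZMod n) :
    (circulant (Pi.single a 1) : Matrix (ZMod n) (ZMod n) R) * circulant (Pi.single b 1) =
      circulant (Pi.single (a + b) 1) := by
  rw [circulant_mul]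
  congr 1
  ext i
  rw [mulVec_single_one, Matrix.col_apply, circulant_apply]
  simp only [Pi.single_apply]
  congr 1
  rw [sub_eq_iff_eq_add]

theorem P_pow (j : ℕ) : P R n ^ j = circulant (Pi.single (j : ZMod n) 1) := by
  induction j with
  | zero => rw [pow_zero, Nat.cast_zero, circulant_single_one]
  | succ j ih => rw [pow_succ, ih, P, circ_single_mul, Nat.cast_succ]

theorem P_pow_self : P R n ^ n = 1 := by
  rw [P_pow, ZMod.natCast_self, circulant_single_one]

/-- polynomials in `P` are circulant -/
theorem aeval_P (f : R[X]) (N : ℕ) (hN : f.natDegree < N) :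
    aeval (P R n) f = circulant fun i => ∑ j ∈ Finset.range N, if (i = (j : ZMod n)) then f.coeff j
      else 0 := by
  rw [aeval_eq_sum_range' hN]
  ext a b
  rw [Matrix.sum_apply, circulant_apply]
  refine Finset.sum_congr rfl fun j _ => ?_
  rw [P_pow, Matrix.smul_apply, circulant_apply, Pi.single_apply]
  simp

/-- a polynomial of degree less than `n` is determined by its value at `P` -/
theorem aeval_P_eq_zero (f : R[X]) (hf : f.natDegree < n) (h : aeval (P R n) f = 0) : f = 0 := by
  ext k
  by_cases hk : k < n
  · rw [aeval_P n f n hf] at h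
    have h1 := congrFun (congrFun h (k : ZMod n)) 0
    rw [circulant_apply, sub_zero] at h1
    rw [Finset.sum_eq_single k] at h1
    · simpa using h1
    · intro j hj hjk
      rw [if_neg]
      intro he
      apply hjk
      have h2 := congrArg ZMod.val he
      rw [ZMod.val_natCast, ZMod.val_natCast, Nat.mod_eq_of_lt hk,
        Nat.mod_eq_of_lt (Finset.mem_range.1 hj)] at h2
      exact h2.symm
    · intro hk'
      exact absurd (Finset.mem_range.2 hk) hk'
  · rw [coeff_eq_zero_of_natDegree_lt (by omega), coeff_zero]

theorem charpoly_P : (P R n).charpoly = X ^ n - 1 := by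
  nontriviality R
  have h0 : 0 < n := Nat.pos_of_ne_zero (NeZero.ne n)
  have h1 : (P R n).charpoly - (X ^ n - 1) = 0 := by
    apply aeval_P_eq_zero n
    · by_cases hz : (P R n).charpoly - (X ^ n - 1) = 0
      · rw [hz, natDegree_zero]; exact h0
      · rw [natDegree_lt_iff_degree_lt hz]
        have hd1 : (P R n).charpoly.degree = n := by
          rw [charpoly_degree_eq_dim, ZMod.card]
        have hd2 : (X ^ n - 1 : R[X]).degree = n := by
          have := degree_X_pow_sub_C h0 (1 : R)
          rwa [C_1] at this
        have := degree_sub_lt (hd1.trans hd2.symm) (charpoly_monic _).ne_zero (by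
          rw [(charpoly_monic _).leadingCoeff]
          have := (monic_X_pow_sub_C (1 : R) h0.ne').leadingCoeff
          rw [C_1] at this
          rw [this])
        rwa [hd1] at this
    · rw [map_sub, aeval_self_charpoly, map_sub, map_pow, aeval_X, P_pow_self, map_one, sub_self,
        sub_self]
  exact sub_eq_zero.1 h1

/-- The determinant of `f(P)`. -/
noncomputable def NR : R[X] →* R := detMonoidHom.comp (aeval (P R n) : R[X] →ₐ[R] _).toMonoidHom

theorem NR_apply (f : R[X]) : NR n f = (aeval (P R n) f).det := rfl

theorem NR_X_sub_C (a : R) : NR n (X - C a) = (-1) ^ n * (a ^ n - 1) := by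
  have h := eval_charpoly (P R n) a
  rw [charpoly_P, eval_sub, eval_pow, eval_X, eval_one] at h
  rw [NR_apply, map_sub, aeval_X, aeval_C, h]
  have : P R n - algebraMap R (Matrix (ZMod n) (ZMod n) R) a =
      -(Matrix.scalar (ZMod n) a - P R n) := by
    rw [neg_sub]
    rfl
  rw [this, det_neg, ZMod.card]

theorem NR_map {S : Type*} [CommRing S] (φ : R →+* S) (f : R[X]) :
    NR n (f.map φ) = φ (NR n f) := by
  rw [NR_apply, NR_apply, RingHom.map_det, aeval_P n f (f.natDegree + 1) (Nat.lt_succ_self _),
    aeval_P n (f.map φ) (f.natDegree + 1) (Nat.lt_succ_of_le natDegree_map_le)]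
  congr 1
  ext a b
  simp only [RingHom.mapMatrix_apply, Matrix.map_apply, circulant_apply, map_sum]
  refine Finset.sum_congr rfl fun j _ => ?_
  split_ifs
  · rw [coeff_map]
  · rw [map_zero]

/-- adding multiples of `X ^ n - 1` does not change `NR` -/
theorem NR_add_mul (f g : R[X]) (N : ℕ) (hN : n ∣ N) : NR n (f + g * (X ^ N - 1)) = NR n f := by
  rw [NR_apply, NR_apply, map_add, map_mul, map_sub, map_pow, aeval_X, map_one]
  obtain ⟨k, rfl⟩ := hN
  rw [pow_mul, P_pow_self, one_pow, sub_self, mul_zero, add_zero]

end Q9.Circ
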