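import Pool.Agent.Q9.CircTower

/-! The unit norms are exactly the unit ghost components. -/

open Polynomial Matrix Finset

namespace Q9.Circ

universe u

variable (p : ℕ) [hp : Fact p.Prime]

/-- the ghost sum -/
def gs {R : Type u} [CommRing R] (k : ℕ) (s : ℕ → R) : R :=
  ∑ j ∈ range (k + 1), (p : R) ^ j * s j ^ p ^ (k - j)

theorem gs_eq {R : Type u} [CommRing R] (k : ℕ) (s : ℕ → R) :
    gs p k s = (WittVector.mk p s).ghostComponent k := by
  rw [WittVector.ghostComponent_apply, aeval_wittPolynomial]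
  rfl

theorem ghost_eq_gs {R : Type u} [CommRing R] (k : ℕ) (w : WittVector p R) :
    w.ghostComponent k = gs p k w.coeff := by
  rw [WittVector.ghostComponent_apply, aeval_wittPolynomial]
  rfl

/-- the ideals -/
def I (R : Type u) [CommRing R] (k i : ℕ) (y : R) : Prop :=
  ∃ s : ℕ → R, (∀ j < i, s j = 0) ∧ y = gs p k s

theorem I_iff {R : Type u} [CommRing R] (k i : ℕ) (y : R) :
    I p R k i y ↔ ∃ w ∈ RingHom.ker (WittVector.truncate (p := p) (R := R) i),
      w.ghostComponent k = y := by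
  constructor
  · rintro ⟨s, hs, rfl⟩
    refine ⟨WittVector.mk p s, ?_, (gs_eq p k s).symm⟩
    rw [WittVector.mem_ker_truncate]
    intro j hj
    exact hs j hj
  · rintro ⟨w, hw, rfl⟩
    rw [WittVector.mem_ker_truncate] at hw
    exact ⟨w.coeff, hw, ghost_eq_gs p k w⟩

theorem I_add {R : Type u} [CommRing R] {k i : ℕ} {x y : R} (hx : I p R k i x)
    (hy : I p R k i y) : I p R k i (x + y) := by
  rw [I_iff] at *
  obtain ⟨w, hw, rfl⟩ := hx
  obtain ⟨v, hv, rfl⟩ := hy
  exact ⟨w + v, add_mem hw hv, map_add _ _ _⟩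

theorem I_sub {R : Type u} [CommRing R] {k i : ℕ} {x y : R} (hx : I p R k i x)
    (hy : I p R k i y) : I p R k i (x - y) := by
  rw [I_iff] at *
  obtain ⟨w, hw, rfl⟩ := hx
  obtain ⟨v, hv, rfl⟩ := hy
  exact ⟨w - v, sub_mem hw hv, map_sub _ _ _⟩

theorem I_mul {R : Type u} [CommRing R] {k i : ℕ} {x y : R}
    (hx : x ∈ (WittVector.ghostComponent (p := p) (R := R) k).range)
    (hy : I p R k i y) : I p R k i (x * y) := by
  rw [I_iff] at *
  obtain ⟨w, rfl⟩ := hx
  obtain ⟨v, hv, rfl⟩ := hy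
  exact ⟨w * v, Ideal.mul_mem_left _ _ hv, map_mul _ _ _⟩

theorem I_range {R : Type u} [CommRing R] {k i : ℕ} {y : R} (hy : I p R k i y) :
    y ∈ (WittVector.ghostComponent (p := p) (R := R) k).range := by
  rw [I_iff] at hy
  obtain ⟨v, hv, rfl⟩ := hy
  exact ⟨v, rfl⟩

theorem I_mono {R : Type u} [CommRing R] {k i j : ℕ} (hij : i ≤ j) {y : R}
    (hy : I p R k j y) : I p R k i y := by
  obtain ⟨s, hs, rfl⟩ := hy
  exact ⟨s, fun l hl => hs l (by omega), rfl⟩

theorem gs_residue {R : Type u} [CommRing R] [IsLocalRing R]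
    [CharP (IsLocalRing.ResidueField R) p] (k : ℕ) (s : ℕ → R) :
    IsLocalRing.residue R (gs p k s) = IsLocalRing.residue R (s 0) ^ p ^ k := by
  rw [gs, map_sum, sum_range_succ', sum_eq_zero]
  · rw [pow_zero, one_mul, Nat.sub_zero, zero_add, map_pow]
  · intro j _
    rw [map_mul, map_pow, map_natCast, CharP.cast_eq_zero, zero_pow (Nat.succ_ne_zero j),
      zero_mul]

theorem I_residue {R : Type u} [CommRing R] [IsLocalRing R]
    [CharP (IsLocalRing.ResidueField R) p] {k i : ℕ} (hi : 1 ≤ i) {y : R} (hy : I p R k i y) :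
    IsLocalRing.residue R y = 0 := by
  obtain ⟨s, hs, rfl⟩ := hy
  rw [gs_residue, hs 0 (by omega), map_zero, zero_pow (pow_pos hp.out.pos k).ne']

theorem inv_mem {R : Type u} [CommRing R] [Finite R] (S : Subring R) (u : Rˣ) (hu : (u : R) ∈ S) :
    ((u⁻¹ : Rˣ) : R) ∈ S := by
  haveI : Finite Rˣ := inferInstance
  obtain ⟨m, hm, h⟩ := (isOfFinOrder_of_finite u).exists_pow_eq_one
  have h2 : u⁻¹ = u ^ (m - 1) := by
    apply inv_eq_of_mul_eq_one_right
    rw [← pow_succ', Nat.sub_add_cancel hm, h]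
  rw [h2, Units.val_pow_eq_pow_val]
  exact pow_mem hu _

theorem I_term {R : Type u} [CommRing R] (k i : ℕ) (s : ℕ → R) (hik : i ≤ k)
    (hs : ∀ j < i, s j = 0) : I p R k (i + 1) (gs p k s - (p : R) ^ i * s i ^ p ^ (k - i)) := by
  refine ⟨fun j => if j = i then 0 else s j, fun j hj => ?_, ?_⟩
  · dsimp only
    split_ifs with h
    · rfl
    · exact hs j (by omega)
  · rw [gs, gs, ← add_sum_erase _ _ (mem_range.2 (show i < k + 1 by omega)),
      ← add_sum_erase _ _ (mem_range.2 (show i < k + 1 by omega)), if_pos rfl,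
      zero_pow (pow_pos hp.out.pos _).ne', mul_zero, zero_add, add_sub_cancel_left]
    refine sum_congr rfl fun j hj => ?_
    rw [if_neg (mem_erase.1 hj).1]

/-- the induction -/
theorem one_add_I {R : Type u} [CommRing R] [Finite R] [IsLocalRing R]
    [CharP (IsLocalRing.ResidueField R) p] (n' k : ℕ) [NeZero n'] (hn' : IsUnit (n' : R))
    (d : ℕ) : ∀ (i : ℕ), 1 ≤ i → i + d = k + 1 → ∀ y, I p R k i y →
      ∃ f : R[X], NR (n' * p ^ k) f = 1 + y := by
  induction d with
  | zero =>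
    rintro i hi hik y ⟨s, hs, rfl⟩
    refine ⟨1, ?_⟩
    have : gs p k s = 0 := by
      rw [gs]
      refine sum_eq_zero fun j hj => ?_
      rw [hs j (by have := mem_range.1 hj; omega), zero_pow (pow_pos hp.out.pos _).ne', mul_zero]
    rw [this, map_one, add_zero]
  | succ d ih =>
    rintro i hi hik y ⟨s, hs, rfl⟩
    obtain ⟨c, hc⟩ := hn'
    obtain ⟨z, hz, hN⟩ := tower p R n' k i hi (by omega) (((c⁻¹ : Rˣ) : R) * s i)
    set N := NR (n' * p ^ k) (1 + C (((c⁻¹ : Rˣ) : R) * s i) * ∑ l ∈ range (n' * p ^ i), X ^ l)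
      with hNdef
    have hcs : (n' : R) * (((c⁻¹ : Rˣ) : R) * s i) = s i := by
      rw [← hc, ← mul_assoc, Units.mul_inv, one_mul]
    rw [hcs] at hN
    have hz' : I p R k (i + 1) (gs p k z) := ⟨z, fun j hj => hz j (by omega), rfl⟩
    have hy' := I_term p k i s (by omega) hs
    have hdiff : I p R k (i + 1) (1 + gs p k s - N) := by
      have : 1 + gs p k s - N = (gs p k s - (p : R) ^ i * s i ^ p ^ (k - i)) - gs p k z := by
        rw [hN, gs, gs]
        ring
      rw [this]
      exact I_sub p hy' hz'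
    have hI1 : I p R k i (N - 1) := by
      have : N - 1 = gs p k s - (1 + gs p k s - N) := by ring
      rw [this]
      exact I_sub p ⟨s, hs, rfl⟩ (I_mono p (by omega) hdiff)
    have hNu : IsUnit N := by
      rw [← IsLocalRing.residue_ne_zero_iff_isUnit]
      have := I_residue p hi hI1
      rw [map_sub, map_one, sub_eq_zero] at this
      rw [this]
      exact one_ne_zero
    obtain ⟨u, hu⟩ := hNu
    have hNr : N ∈ (WittVector.ghostComponent (p := p) (R := R) k).range := by
      have := add_mem (I_range p hI1) (one_mem _)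
      rwa [sub_add_cancel] at this
    have huinv := inv_mem _ u (by rw [hu]; exact hNr)
    obtain ⟨f, hf⟩ := ih (i + 1) (by omega) (by omega) _ (I_mul p huinv hdiff)
    refine ⟨(1 + C (((c⁻¹ : Rˣ) : R) * s i) * ∑ l ∈ range (n' * p ^ i), X ^ l) * f, ?_⟩
    rw [map_mul, ← hNdef, hf, mul_add, mul_one, ← mul_assoc]
    rw [← hu, Units.mul_inv, one_mul]
    ring

/-- **The unit norms are exactly the units of the ghost ring.** -/
theorem norm_iff {R : Type u} [CommRing R] [Finite R] [IsLocalRing R]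
    [CharP (IsLocalRing.ResidueField R) p] (n' k : ℕ) [NeZero n'] (hn' : ¬ p ∣ n')
    (a : R) (ha : IsUnit a) :
    (∃ f : R[X], NR (n' * p ^ k) f = a) ↔ ∃ s : ℕ → R, a = gs p k s := by
  constructor
  · rintro ⟨f, rfl⟩
    obtain ⟨s, hs⟩ := NR_ghost p f n' k
    exact ⟨s, hs k le_rfl⟩
  · rintro ⟨s, rfl⟩
    have hn'u : IsUnit (n' : R) := by
      rw [← IsLocalRing.residue_ne_zero_iff_isUnit, map_natCast]
      intro h
      exact hn' ((CharP.cast_eq_zero_iff _ p n').1 h)
    obtain ⟨c, hc⟩ := hn'u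
    obtain ⟨z, hz, hN⟩ := tower_zero p R n' k (((c⁻¹ : Rˣ) : R) * (s 0 - 1))
    set N := NR (n' * p ^ k) (1 + C (((c⁻¹ : Rˣ) : R) * (s 0 - 1)) * ∑ l ∈ range n', X ^ l)
      with hNdef
    have hcs : 1 + (n' : R) * (((c⁻¹ : Rˣ) : R) * (s 0 - 1)) = s 0 := by
      rw [← hc, ← mul_assoc, Units.mul_inv, one_mul]
      ring
    rw [hcs] at hN
    have hz' : I p R k 1 (gs p k z) := ⟨z, fun j hj => by
      obtain rfl : j = 0 := by omega
      exact hz, rfl⟩
    have hy' := I_term p k 0 s (by omega) (fun j hj => absurd hj (by omega))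
    have hdiff : I p R k 1 (gs p k s - N) := by
      have : gs p k s - N = (gs p k s - (p : R) ^ 0 * s 0 ^ p ^ (k - 0)) - gs p k z := by
        rw [hN, gs, gs]
        simp only [pow_zero, one_mul, Nat.sub_zero]
        ring
      rw [this]
      exact I_sub p hy' hz'
    have hNu : IsUnit N := by
      rw [← IsLocalRing.residue_ne_zero_iff_isUnit] at ha ⊢
      have := I_residue p le_rfl hdiff
      rw [map_sub, sub_eq_zero] at this
      rwa [← this]
    obtain ⟨u, hu⟩ := hNu
    have hNr : N ∈ (WittVector.ghostComponent (p := p) (R := R) k).range := by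
      have h1 : gs p k s ∈ (WittVector.ghostComponent (p := p) (R := R) k).range :=
        ⟨WittVector.mk p s, (gs_eq p k s).symm⟩
      have := sub_mem h1 (I_range p hdiff)
      rwa [sub_sub_cancel] at this
    have huinv := inv_mem _ u (by rw [hu]; exact hNr)
    obtain ⟨f, hf⟩ := one_add_I p n' k ⟨c, hc⟩ k 1 le_rfl (by omega) _ (I_mul p huinv hdiff)
    refine ⟨(1 + C (((c⁻¹ : Rˣ) : R) * (s 0 - 1)) * ∑ l ∈ range n', X ^ l) * f, ?_⟩
    rw [map_mul, ← hNdef, hf, mul_add, mul_one, ← mul_assoc]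
    rw [← hu, Units.mul_inv, one_mul]
    ring

end Q9.Circ
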