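import Pool.Agent.Q9.CircWitt

/-! Explicit norms. -/

open Polynomial Matrix Finset

namespace Q9.Circ

universe u

theorem sum_P_pow {R : Type u} [CommRing R] (n : ℕ) [NeZero n] :
    ∑ l ∈ range n, P R n ^ l = Matrix.of fun _ _ => 1 := by
  ext a b
  rw [Matrix.sum_apply]
  have h : ∀ l ∈ range n, (P R n ^ l) a b = if (l : ZMod n) = a - b then 1 else 0 := by
    intro l _
    rw [P_pow, circulant_apply, Pi.single_apply]
    simp only [eq_comm]
  rw [sum_congr rfl h, sum_eq_single (a - b).val]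
  · rw [ZMod.natCast_zmod_val, if_pos rfl]
    rfl
  · intro l hl hne
    rw [if_neg]
    intro he
    apply hne
    rw [← he, ZMod.val_natCast, Nat.mod_eq_of_lt (mem_range.1 hl)]
  · intro h
    exact absurd (mem_range.2 (ZMod.val_lt _)) h

theorem sum_P_pow_mul {R : Type u} [CommRing R] (n c : ℕ) [NeZero n] :
    ∑ l ∈ range (n * c), P R n ^ l = Matrix.of fun _ _ => (c : R) := by
  induction c with
  | zero => rw [mul_zero, sum_range_zero]; ext a b; simp
  | succ c ih =>
    rw [Nat.mul_succ, sum_range_add, ih]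
    have h : ∀ l ∈ range n, P R n ^ (n * c + l) = P R n ^ l := by
      intro l _
      rw [pow_add, pow_mul, P_pow_self, one_pow, one_mul]
    rw [sum_congr rfl h, sum_P_pow]
    ext a b
    simp

theorem NR_sigma {R : Type u} [CommRing R] (n c : ℕ) [NeZero n] (t : R) :
    NR n (1 + C t * ∑ l ∈ range (n * c), X ^ l) = 1 + (n * c : ℕ) * t := by
  rw [NR_apply, map_add, map_one, map_mul, map_sum]
  have h : ∀ l ∈ range (n * c), aeval (P R n) (X ^ l : R[X]) = P R n ^ l := fun l _ => by
    rw [map_pow, aeval_X]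
  rw [sum_congr rfl h, sum_P_pow_mul, aeval_C]
  have h2 : (algebraMap R (Matrix (ZMod n) (ZMod n) R)) t * (Matrix.of fun _ _ => (c : R)) =
      replicateCol Unit (fun _ : ZMod n => t * c) * replicateRow Unit (fun _ : ZMod n => (1 : R)) := by
    ext a b
    rw [← Algebra.smul_def, Matrix.smul_apply, Matrix.mul_apply]
    simp
  rw [h2, det_one_add_replicateCol_mul_replicateRow]
  simp [dotProduct, ZMod.card]
  ring

theorem pow_dvd_pow_sub {R : Type u} [CommRing R] (p i l : ℕ) (hi : 1 ≤ i) (a b : R)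
    (h : (p : R) ^ i ∣ a - b) : (p : R) ^ (i + l) ∣ a ^ p ^ l - b ^ p ^ l := by
  induction l with
  | zero => simpa using h
  | succ l ih =>
    rw [pow_succ p l, pow_mul, pow_mul, ← geom_sum₂_mul, ← add_assoc, pow_succ']
    exact mul_dvd_mul (dvd_geom_sum₂_self (dvd_trans (dvd_pow_self _ (by omega)) ih)) ih

variable (p : ℕ) [hp : Fact p.Prime]

/-- The key computation in a torsion-free ring. -/
theorem tower_aux {A : Type u} [CommRing A] [IsDomain A] [CharZero A] (k i : ℕ) (hi : 1 ≤ i)
    (hik : i < k) (τ : A) (s : ℕ → A)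
    (hs : ∀ j ≤ i, ∑ l ∈ range (j + 1), (p : A) ^ l * s l ^ p ^ (j - l) = 1 + (p : A) ^ i * τ) :
    (p : A) ^ k ∣ ∑ j ∈ range (i + 1), (p : A) ^ j * s j ^ p ^ (k - j) -
      (1 + (p : A) ^ i * τ ^ p ^ (k - i)) := by
  have hp0 : (p : A) ≠ 0 := by exact_mod_cast hp.out.ne_zero
  have hp2 : 2 ≤ p := hp.out.two_le
  have h0 : s 0 = 1 + (p : A) ^ i * τ := by
    have := hs 0 (Nat.zero_le _)
    simpa using this
  have h0d : (p : A) ^ i ∣ s 0 - 1 := ⟨τ, by rw [h0]; ring⟩
  have claim : ∀ l, 1 ≤ l → l ≤ i → (p : A) ^ (i - l + 1) ∣ s l - (p : A) ^ (i - l) * τ := by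
    intro l
    induction l using Nat.strong_induction_on with
    | _ l ih =>
      intro hl1 hli
      have h1 := hs l hli
      rw [sum_range_succ, Nat.sub_self, pow_zero, pow_one] at h1
      have h2 : (p : A) ^ (i + 1) ∣ ∑ h ∈ range l, (p : A) ^ h * s h ^ p ^ (l - h) - 1 := by
        obtain ⟨l', rfl⟩ : ∃ l', l = l' + 1 := ⟨l - 1, by omega⟩
        rw [sum_range_succ']
        have h3 : (p : A) ^ (i + 1) ∣ ∑ h ∈ range l', (p : A) ^ (h + 1) *
            s (h + 1) ^ p ^ (l' + 1 - (h + 1)) := by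
          refine dvd_sum fun h hh => ?_
          have hh' := mem_range.1 hh
          have h4 := ih (h + 1) (by omega) (by omega) (by omega)
          have h5 : (p : A) ^ (i - (h + 1)) ∣ s (h + 1) := by
            have h6 : (p : A) ^ (i - (h + 1)) ∣ s (h + 1) - (p : A) ^ (i - (h + 1)) * τ :=
              dvd_trans (pow_dvd_pow _ (by omega)) h4
            have := dvd_add h6 (dvd_mul_right ((p : A) ^ (i - (h + 1))) τ)
            rwa [sub_add_cancel] at this
          have h7 : (p : A) ^ ((h + 1) + (i - (h + 1)) * p ^ (l' + 1 - (h + 1))) ∣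
              (p : A) ^ (h + 1) * s (h + 1) ^ p ^ (l' + 1 - (h + 1)) := by
            rw [pow_add, pow_mul]
            exact mul_dvd_mul_left _ (pow_dvd_pow_of_dvd h5 _)
          refine dvd_trans (pow_dvd_pow _ ?_) h7
          have h8 : 2 ≤ p ^ (l' + 1 - (h + 1)) :=
            le_trans hp2 (Nat.le_self_pow (by omega) p)
          have h9 : (i - (h + 1)) * 2 ≤ (i - (h + 1)) * p ^ (l' + 1 - (h + 1)) :=
            Nat.mul_le_mul_left _ h8
          omega
        have h10 : (p : A) ^ (i + 1) ∣ s 0 ^ p ^ (l' + 1) - 1 := by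
          have := pow_dvd_pow_sub p i (l' + 1) hi (s 0) 1 h0d
          rw [one_pow] at this
          exact dvd_trans (pow_dvd_pow _ (by omega)) this
        have := dvd_add h3 h10
        simpa [add_sub_assoc] using this
      have h11 : (p : A) ^ (i + 1) ∣ (p : A) ^ l * s l - (p : A) ^ i * τ := by
        have h12 : (p : A) ^ l * s l - (p : A) ^ i * τ =
            -(∑ h ∈ range l, (p : A) ^ h * s h ^ p ^ (l - h) - 1) := by
          linear_combination h1
        rw [h12]
        exact (dvd_neg).2 h2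
      have h13 : (p : A) ^ l * s l - (p : A) ^ i * τ =
          (p : A) ^ l * (s l - (p : A) ^ (i - l) * τ) := by
        rw [mul_sub, ← mul_assoc, ← pow_add]
        congr 3
        omega
      rw [h13, show i + 1 = l + (i - l + 1) by omega, pow_add] at h11
      exact (mul_dvd_mul_iff_left (pow_ne_zero _ hp0)).1 h11
  obtain ⟨i', rfl⟩ : ∃ i', i = i' + 1 := ⟨i - 1, by omega⟩
  rw [sum_range_succ, sum_range_succ']
  have hA : (p : A) ^ k ∣ ∑ h ∈ range i', (p : A) ^ (h + 1) *
      s (h + 1) ^ p ^ (k - (h + 1)) := by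
    refine dvd_sum fun h hh => ?_
    have hh' := mem_range.1 hh
    have h4 := claim (h + 1) (by omega) (by omega)
    have h5 : (p : A) ^ (i' + 1 - (h + 1)) ∣ s (h + 1) := by
      have h6 : (p : A) ^ (i' + 1 - (h + 1)) ∣ s (h + 1) - (p : A) ^ (i' + 1 - (h + 1)) * τ :=
        dvd_trans (pow_dvd_pow _ (by omega)) h4
      have := dvd_add h6 (dvd_mul_right ((p : A) ^ (i' + 1 - (h + 1))) τ)
      rwa [sub_add_cancel] at this
    have h7 : (p : A) ^ ((h + 1) + (i' + 1 - (h + 1)) * p ^ (k - (h + 1))) ∣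
        (p : A) ^ (h + 1) * s (h + 1) ^ p ^ (k - (h + 1)) := by
      rw [pow_add, pow_mul]
      exact mul_dvd_mul_left _ (pow_dvd_pow_of_dvd h5 _)
    refine dvd_trans (pow_dvd_pow _ ?_) h7
    have h8 : k - (h + 1) < p ^ (k - (h + 1)) := Nat.lt_pow_self hp.out.one_lt
    have h9 : 1 * p ^ (k - (h + 1)) ≤ (i' + 1 - (h + 1)) * p ^ (k - (h + 1)) :=
      Nat.mul_le_mul_right _ (by omega)
    omega
  have hB : (p : A) ^ k ∣ s 0 ^ p ^ k - 1 := by
    have := pow_dvd_pow_sub p (i' + 1) k hi (s 0) 1 h0d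
    rw [one_pow] at this
    exact dvd_trans (pow_dvd_pow _ (by omega)) this
  have hC : (p : A) ^ k ∣ (p : A) ^ (i' + 1) * s (i' + 1) ^ p ^ (k - (i' + 1)) -
      (p : A) ^ (i' + 1) * τ ^ p ^ (k - (i' + 1)) := by
    have h4 := claim (i' + 1) (by omega) le_rfl
    rw [Nat.sub_self, zero_add, pow_zero, one_mul] at h4
    have h5 := pow_dvd_pow_sub p 1 (k - (i' + 1)) le_rfl _ _ h4
    rw [← mul_sub]
    have h6 : k = (i' + 1) + (k - (i' + 1)) := by omega
    rw [show (p : A) ^ k = (p : A) ^ (i' + 1) * (p : A) ^ (k - (i' + 1)) by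
      rw [← pow_add, ← h6]]
    exact mul_dvd_mul_left _ (dvd_trans (pow_dvd_pow _ (by omega)) h5)
  have := dvd_add (dvd_add hA hB) hC
  convert this using 1
  simp
  ring

/-- norms in the tower -/
theorem tower (R : Type u) [CommRing R] (n' : ℕ) [NeZero n'] (k i : ℕ) (hi : 1 ≤ i)
    (hik : i ≤ k) (t : R) : ∃ s : ℕ → R, (∀ j ≤ i, s j = 0) ∧
    NR (n' * p ^ k) (1 + C t * ∑ l ∈ range (n' * p ^ i), X ^ l) =
      1 + (p : R) ^ i * ((n' : R) * t) ^ p ^ (k - i) +
        ∑ j ∈ range (k + 1), (p : R) ^ j * s j ^ p ^ (k - j) := by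
  rcases Nat.lt_or_ge i k with hik' | hik'
  · let A := ℤ[X]
    obtain ⟨s, hs⟩ := NR_ghost p (1 + C (X : A) * ∑ l ∈ range (n' * p ^ i), X ^ l) n' k
    have h1 : ∀ j ≤ i, ∑ l ∈ range (j + 1), (p : A) ^ l * s l ^ p ^ (j - l) =
        1 + (p : A) ^ i * ((n' : A) * X) := by
      intro j hj
      rw [← hs j (by omega)]
      have h2 : n' * p ^ i = (n' * p ^ j) * p ^ (i - j) := by
        rw [mul_assoc, ← pow_add]
        congr 2
        omega
      rw [h2, NR_sigma, ← h2]
      push_cast
      ring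
    obtain ⟨r, hr⟩ := tower_aux p k i hi hik' _ s h1
    let s' : ℕ → A := fun j => if j ≤ i then 0 else if j = k then s k + r else s j
    have key : NR (n' * p ^ k) (1 + C (X : A) * ∑ l ∈ range (n' * p ^ i), X ^ l) =
        1 + (p : A) ^ i * ((n' : A) * X) ^ p ^ (k - i) +
          ∑ j ∈ range (k + 1), (p : A) ^ j * s' j ^ p ^ (k - j) := by
      rw [hs k le_rfl]
      have hsplit : ∀ g : ℕ → A, ∑ j ∈ range (k + 1), g j = ∑ j ∈ range (i + 1), g j +
          (∑ j ∈ range (k - i - 1), g (i + 1 + j) + g k) := by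
        intro g
        have e0 : k + 1 = (i + 1) + ((k - i - 1) + 1) := by omega
        have e0' : i + 1 + (k - i - 1) = k := by omega
        rw [e0, sum_range_add, sum_range_succ (fun x => g (i + 1 + x)), e0']
      rw [hsplit, hsplit]
      have e1 : ∑ j ∈ range (i + 1), (p : A) ^ j * s' j ^ p ^ (k - j) = 0 := by
        refine sum_eq_zero fun j hj => ?_
        have hj' := mem_range.1 hj
        have : s' j = 0 := if_pos (by omega)
        rw [this, zero_pow (pow_pos hp.out.pos _).ne', mul_zero]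
      have e2 : ∑ j ∈ range (k - i - 1), (p : A) ^ (i + 1 + j) * s' (i + 1 + j) ^
          p ^ (k - (i + 1 + j)) = ∑ j ∈ range (k - i - 1), (p : A) ^ (i + 1 + j) *
            s (i + 1 + j) ^ p ^ (k - (i + 1 + j)) := by
        refine sum_congr rfl fun j hj => ?_
        have hj' := mem_range.1 hj
        have : s' (i + 1 + j) = s (i + 1 + j) := by
          simp only [s']
          rw [if_neg (by omega), if_neg (by omega)]
        rw [this]
      have e3 : s' k = s k + r := by
        change (if k ≤ i then 0 else if k = k then s k + r else s k) = _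
        rw [if_neg (by omega), if_pos rfl]
      rw [e1, e2, e3, Nat.sub_self, pow_zero, pow_one, pow_one]
      linear_combination hr
    refine ⟨fun j => eval₂RingHom (Int.castRingHom R) t (s' j), fun j hj => ?_, ?_⟩
    · have : s' j = 0 := if_pos hj
      simp only [this, map_zero]
    · have h3 := congrArg (eval₂RingHom (Int.castRingHom R) t) key
      rw [← NR_map] at h3
      have h4 : ((1 + C (X : A) * ∑ l ∈ range (n' * p ^ i), X ^ l)).map
          (eval₂RingHom (Int.castRingHom R) t) = 1 + C t * ∑ l ∈ range (n' * p ^ i), X ^ l := by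
        rw [Polynomial.map_add, Polynomial.map_one, Polynomial.map_mul, map_C, Polynomial.map_sum]
        congr 2
        · simp
        · refine sum_congr rfl fun l _ => ?_
          rw [Polynomial.map_pow, map_X]
      rw [h4] at h3
      rw [h3, map_add, map_add, map_one, map_mul, map_pow, map_pow, map_mul, map_sum, map_natCast,
        map_natCast]
      have h5 : eval₂RingHom (Int.castRingHom R) t X = t := by simp
      rw [h5]
      congr 1
      refine sum_congr rfl fun j _ => ?_
      rw [map_mul, map_pow, map_pow, map_natCast]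
  · obtain rfl : i = k := le_antisymm hik hik'
    refine ⟨fun _ => 0, fun _ _ => rfl, ?_⟩
    have h2 : n' * p ^ i = (n' * p ^ i) * 1 := (mul_one _).symm
    conv_lhs => rw [show (range (n' * p ^ i)) = range ((n' * p ^ i) * 1) by rw [mul_one], NR_sigma]
    rw [Nat.sub_self, pow_zero, pow_one, sum_eq_zero]
    · push_cast; ring
    · intro j _
      rw [zero_pow (pow_pos hp.out.pos _).ne', mul_zero]

theorem tower_zero (R : Type u) [CommRing R] (n' : ℕ) [NeZero n'] (k : ℕ) (t : R) :
    ∃ s : ℕ → R, s 0 = 0 ∧ NR (n' * p ^ k) (1 + C t * ∑ l ∈ range n', X ^ l) =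
      (1 + (n' : R) * t) ^ p ^ k + ∑ j ∈ range (k + 1), (p : R) ^ j * s j ^ p ^ (k - j) := by
  obtain ⟨s, hs⟩ := NR_ghost p (1 + C t * ∑ l ∈ range n', X ^ l) n' k
  have h0 : s 0 = 1 + (n' : R) * t := by
    have h1 := hs 0 (Nat.zero_le _)
    simp only [zero_add, sum_range_one, pow_zero, one_mul, Nat.sub_self, pow_one] at h1
    rw [← h1]
    have h2 := NR_sigma (R := R) (n' * p ^ 0) 1 t
    have h3 : n' * p ^ 0 * 1 = n' := by rw [pow_zero, mul_one, mul_one]
    rw [h3] at h2
    exact h2
  refine ⟨fun j => if j = 0 then 0 else s j, if_pos rfl, ?_⟩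
  rw [hs k le_rfl, sum_range_succ', sum_range_succ', h0]
  simp [zero_pow (pow_pos hp.out.pos k).ne']
  ring

end Q9.Circ
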