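import Pool.Agent.Q9.CircDet

/-! Norms of a polynomial along a tower of cyclic groups form a ghost vector. -/

open Polynomial Matrix

namespace Q9.Circ

universe u

variable (p : ℕ) [hp : Fact p.Prime]

/-- the universal monic polynomial of degree `m` -/
noncomputable def fU (m : ℕ) : (MvPolynomial (Fin m) ℤ)[X] :=
  X ^ m + ∑ j : Fin m, C (MvPolynomial.X j) * X ^ (m - (j + 1))

theorem fU_map_eq {R : Type u} [CommRing R] (f : R[X]) (hf : f.Monic) :
    (fU f.natDegree).map
      (MvPolynomial.aeval fun j : Fin f.natDegree => f.coeff (f.natDegree - (j + 1))).toRingHom =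
      f := by
  conv_rhs => rw [hf.as_sum]
  rw [fU, Polynomial.map_add, Polynomial.map_pow, map_X, Polynomial.map_sum]
  congr 1
  rw [← Finset.sum_range_reflect, ← Fin.sum_univ_eq_sum_range
    (fun j => C (f.coeff (f.natDegree - 1 - j)) * X ^ (f.natDegree - 1 - j))]
  refine Finset.sum_congr rfl fun j _ => ?_
  rw [Polynomial.map_mul, map_C, Polynomial.map_pow, map_X]
  congr 2
  · refine (MvPolynomial.aeval_X (R := ℤ) (fun j : Fin f.natDegree =>
        f.coeff (f.natDegree - (j + 1))) j).trans ?_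
    congr 1
    omega
  · omega

theorem fU_map_esymm (m : ℕ) :
    (fU m).map (((MvPolynomial.symmetricSubalgebra (Fin m) ℤ).val.comp
      (MvPolynomial.esymmAlgHom (Fin m) ℤ m)).toRingHom) =
      ∏ j : Fin m, (X + C (MvPolynomial.X j)) := by
  rw [MvPolynomial.prod_C_add_X_eq_sum_esymm, Finset.sum_range_succ', MvPolynomial.esymm_zero,
    map_one, one_mul, Fintype.card_fin, Nat.sub_zero, add_comm, fU, Polynomial.map_add,
    Polynomial.map_pow, map_X, Polynomial.map_sum, ← Fin.sum_univ_eq_sum_range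
      (fun j => C (MvPolynomial.esymm (Fin m) ℤ (j + 1)) * X ^ (m - (j + 1)))]
  congr 1
  refine Finset.sum_congr rfl fun j _ => ?_
  rw [Polynomial.map_mul, map_C, Polynomial.map_pow, map_X]
  congr 2
  change ((MvPolynomial.esymmAlgHom (Fin m) ℤ m) (MvPolynomial.X j)).val = _
  rw [MvPolynomial.esymmAlgHom_apply, MvPolynomial.aeval_X]

/-- the universal Witt vector -/
noncomputable def om (m n' : ℕ) : WittVector p (MvPolynomial (Fin m) ℤ) :=
  ∏ j : Fin m, (1 - (WittVector.teichmuller p (-MvPolynomial.X j)) ^ n')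

theorem om_coeff_symm (m n' i : ℕ) : ((om p m n').coeff i).IsSymmetric := by
  intro e
  have h : WittVector.map (MvPolynomial.rename e : MvPolynomial (Fin m) ℤ →ₐ[ℤ] _).toRingHom
      (om p m n') = om p m n' := by
    rw [om, map_prod]
    refine Fintype.prod_equiv e _ _ fun j => ?_
    rw [map_sub, map_one, map_pow, WittVector.map_teichmuller]
    congr 3
    change MvPolynomial.rename e _ = _
    rw [map_neg, MvPolynomial.rename_X]
  have h1 := congrArg (fun w => WittVector.coeff w i) h
  simp only [WittVector.map_coeff] at h1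
  exact h1

theorem om_ghost (m n' i : ℕ) : (om p m n').ghostComponent i =
    ∏ j : Fin m, (1 - (-MvPolynomial.X j) ^ (n' * p ^ i)) := by
  rw [om, map_prod]
  refine Finset.prod_congr rfl fun j _ => ?_
  rw [map_sub, map_one, map_pow, WittVector.ghostComponent_teichmuller, ← pow_mul, mul_comm]

theorem NR_prod (m : ℕ) (hm : Even m) (n : ℕ) [NeZero n] :
    NR n (∏ j : Fin m, (X + C (MvPolynomial.X j : MvPolynomial (Fin m) ℤ))) =
      ∏ j : Fin m, (1 - (-MvPolynomial.X j) ^ n) := by
  rw [map_prod]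
  have h : ∀ j : Fin m, NR n (X + C (MvPolynomial.X j : MvPolynomial (Fin m) ℤ)) =
      (-1) ^ (n + 1) * (1 - (-MvPolynomial.X j) ^ n) := by
    intro j
    have := NR_X_sub_C n (-MvPolynomial.X j : MvPolynomial (Fin m) ℤ)
    rw [map_neg, sub_neg_eq_add] at this
    rw [this]
    ring
  rw [Finset.prod_congr rfl fun j _ => h j, Finset.prod_mul_distrib, Finset.prod_const,
    Finset.card_univ, Fintype.card_fin, ← pow_mul, mul_comm (n + 1) m, pow_mul, hm.neg_one_pow,
    one_pow, one_mul]

/-- **Norms along a `p`-tower are ghost components.** -/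
theorem NR_ghost_monic {R : Type u} [CommRing R] (f : R[X]) (hf : f.Monic)
    (he : Even f.natDegree) (n' : ℕ) [NeZero n'] :
    ∃ s : ℕ → R, ∀ i, NR (n' * p ^ i) f = ∑ j ∈ Finset.range (i + 1), (p : R) ^ j *
      s j ^ p ^ (i - j) := by
  set m := f.natDegree with hm
  have hQ : ∀ i, ∃ Q : MvPolynomial (Fin m) ℤ,
      ((MvPolynomial.symmetricSubalgebra (Fin m) ℤ).val.comp
      (MvPolynomial.esymmAlgHom (Fin m) ℤ m)).toRingHom Q = (om p m n').coeff i := by
    intro i
    obtain ⟨Q, hQ⟩ := MvPolynomial.esymmAlgHom_surjective ℤ (Fintype.card_fin m).le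
      (⟨(om p m n').coeff i, om_coeff_symm p m n' i⟩ : MvPolynomial.symmetricSubalgebra (Fin m) ℤ)
    exact ⟨Q, congrArg Subtype.val hQ⟩
  choose Q hQ using hQ
  have hinj : Function.Injective ((MvPolynomial.symmetricSubalgebra (Fin m) ℤ).val.comp
      (MvPolynomial.esymmAlgHom (Fin m) ℤ m)).toRingHom := by
    intro x y hxy
    exact MvPolynomial.esymmAlgHom_injective ℤ (Fintype.card_fin m).ge (Subtype.ext hxy)
  have key : ∀ i, NR (n' * p ^ i) (fU m) = ∑ j ∈ Finset.range (i + 1),
      (p : MvPolynomial (Fin m) ℤ) ^ j * Q j ^ p ^ (i - j) := by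
    intro i
    apply hinj
    rw [← NR_map, fU_map_esymm, NR_prod _ he, ← om_ghost p, WittVector.ghostComponent_apply,
      aeval_wittPolynomial, map_sum]
    refine Finset.sum_congr rfl fun j _ => ?_
    rw [map_mul, map_pow, map_pow, hQ, map_natCast]
  refine ⟨fun j => (MvPolynomial.aeval fun j : Fin m => f.coeff (m - (j + 1))).toRingHom (Q j),
    fun i => ?_⟩
  conv_lhs => rw [← fU_map_eq f hf, NR_map, ← hm, key]
  rw [map_sum]
  refine Finset.sum_congr rfl fun j _ => ?_
  rw [map_mul, map_pow, map_pow, map_natCast]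

/-- every polynomial agrees with a monic polynomial of even degree modulo `X ^ N - 1` -/
theorem exists_monic {R : Type u} [CommRing R] (f : R[X]) (N : ℕ) (hN : 0 < N) :
    ∃ g : R[X], (f + g * (X ^ N - 1)).Monic ∧ Even (f + g * (X ^ N - 1)).natDegree := by
  nontriviality R
  obtain ⟨a, ha, hae⟩ : ∃ a : ℕ, f.natDegree < a ∧ Even (a + N) := by
    rcases Nat.even_or_odd (f.natDegree + 1 + N) with h | h
    · exact ⟨f.natDegree + 1, by omega, h⟩
    · exact ⟨f.natDegree + 2, by omega, by
        have := h.add_one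
        rwa [show f.natDegree + 1 + N + 1 = f.natDegree + 2 + N by ring] at this⟩
  have hm : (X ^ N - 1 : R[X]).Monic := by
    have := monic_X_pow_sub_C (1 : R) hN.ne'
    rwa [C_1] at this
  have hmon : (X ^ a * (X ^ N - 1) : R[X]).Monic := (monic_X_pow a).mul hm
  have hdeg : (X ^ a * (X ^ N - 1) : R[X]).natDegree = a + N := by
    rw [(monic_X_pow a).natDegree_mul hm, natDegree_X_pow]
    congr 1
    have := natDegree_X_pow_sub_C (R := R) (n := N) (r := 1)
    rwa [C_1] at this
  have hlt : f.degree < (X ^ a * (X ^ N - 1) : R[X]).degree := by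
    rw [degree_eq_natDegree hmon.ne_zero, hdeg]
    refine lt_of_le_of_lt degree_le_natDegree ?_
    exact_mod_cast (by omega : f.natDegree < a + N)
  refine ⟨X ^ a, ?_, ?_⟩
  · exact Monic.add_of_right hmon hlt
  · rw [natDegree_add_eq_right_of_degree_lt hlt, hdeg]
    exact hae

/-- **Norms along a `p`-tower are ghost components**, for arbitrary polynomials. -/
theorem NR_ghost {R : Type u} [CommRing R] (f : R[X]) (n' k : ℕ) [NeZero n'] :
    ∃ s : ℕ → R, ∀ i ≤ k, NR (n' * p ^ i) f = ∑ j ∈ Finset.range (i + 1), (p : R) ^ j *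
      s j ^ p ^ (i - j) := by
  obtain ⟨g, hg, hge⟩ := exists_monic f (n' * p ^ k) (Nat.mul_pos (Nat.pos_of_ne_zero
    (NeZero.ne n')) (pow_pos hp.out.pos k))
  obtain ⟨s, hs⟩ := NR_ghost_monic p _ hg hge n'
  refine ⟨s, fun i hi => ?_⟩
  rw [← hs i, NR_add_mul]
  exact Nat.mul_dvd_mul_left _ (pow_dvd_pow p hi)

end Q9.Circ
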