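import Mathlib

/-!
# Corner's theorem for countable rings with free additive group

Every countable ring whose additive group is free is the endomorphism ring of a torsion-free
abelian group.
-/

set_option autoImplicit false

open Cardinal

namespace Q9.Corner

section Independent

variable (p : ℕ) [Fact p.Prime]

lemma uncountable_padicInt : Uncountable ℤ_[p] := by
  rw [← not_countable_iff]
  intro h
  have h1 : Countable ℚ_[p] := by
    have hsurj : Function.Surjective (fun x : ℤ_[p] × ℕ => (x.1 : ℚ_[p]) / (p : ℚ_[p]) ^ x.2) := by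
      intro x
      obtain ⟨n, hn⟩ : ∃ n : ℕ, ‖x * (p : ℚ_[p]) ^ n‖ ≤ 1 := by
        have hp : (1 : ℝ) < p := by exact_mod_cast (Fact.out : p.Prime).one_lt
        obtain ⟨n, hn⟩ := pow_unbounded_of_one_lt ‖x‖ hp
        refine ⟨n, ?_⟩
        rw [norm_mul, norm_pow, Padic.norm_p, inv_pow, ← div_eq_mul_inv,
          div_le_one (by positivity)]
        exact hn.le
      have hp0 : (p : ℚ_[p]) ^ n ≠ 0 := by
        apply pow_ne_zero
        exact_mod_cast (Fact.out : p.Prime).ne_zero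
      refine ⟨(⟨x * (p : ℚ_[p]) ^ n, hn⟩, n), ?_⟩
      show x * (p : ℚ_[p]) ^ n / (p : ℚ_[p]) ^ n = x
      rw [mul_div_assoc, div_self hp0, mul_one]
    exact hsurj.countable
  have h2 := continuum_le_cardinal_of_nontriviallyNormedField ℚ_[p]
  have h3 : #ℚ_[p] ≤ ℵ₀ := Cardinal.mk_le_aleph0
  exact absurd (h2.trans h3) (not_le.2 Cardinal.aleph0_lt_continuum)

/-- There are countable algebraically independent families of `p`-adic integers. -/
theorem exists_algebraicIndependent (ι : Type) [Countable ι] :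
    ∃ γ : ι → ℤ_[p], AlgebraicIndependent ℤ γ := by
  obtain ⟨s, hs⟩ := exists_isTranscendenceBasis ℤ ℤ_[p]
  have hinf : Infinite s := by
    by_contra hfin
    rw [not_infinite_iff_finite] at hfin
    have halg := hs.isAlgebraic
    have h1 := Algebra.IsAlgebraic.cardinalMk_le_max (Algebra.adjoin ℤ (Set.range ((↑) : s → ℤ_[p]))) ℤ_[p]
    have h2 : #(Algebra.adjoin ℤ (Set.range ((↑) : s → ℤ_[p]))) ≤ ℵ₀ := by
      have h3 : Function.Surjective (MvPolynomial.aeval (R := ℤ) ((↑) : s → ℤ_[p])).rangeRestrict :=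
        AlgHom.rangeRestrict_surjective _
      rw [Algebra.adjoin_range_eq_range_aeval]
      have : Countable (MvPolynomial s ℤ) := by
        rw [← Cardinal.mk_le_aleph0_iff]
        refine MvPolynomial.cardinalMk_le_max.trans ?_
        simp
      have h4 := h3.countable
      exact Cardinal.mk_le_aleph0
    have h3 : #ℤ_[p] ≤ ℵ₀ := h1.trans (max_le h2 le_rfl)
    rw [Cardinal.mk_le_aleph0_iff] at h3
    exact (not_countable_iff.2 (uncountable_padicInt p)) h3
  obtain ⟨f, hf⟩ := exists_injective_nat ι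
  let g : ι → s := fun i => Infinite.natEmbedding s (f i)
  have hg : Function.Injective g := (Infinite.natEmbedding s).injective.comp hf
  exact ⟨fun i => (g i : ℤ_[p]), hs.1.comp g hg⟩

end Independent

section Abstract

variable {p : ℕ} [Fact p.Prime] {M R J : Type} [Ring M] [Algebra ℤ_[p] M] [Ring R]

/-- The data used in the construction: a ring homomorphism `ι` of `R` into a `p`-adic algebra `M`
with coordinate functionals. -/
structure Data (p : ℕ) [Fact p.Prime] (M R J : Type) [Ring M] [Algebra ℤ_[p] M] [Ring R] where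
  ι : R →+* M
  φ : J → M →ₗ[ℤ_[p]] ℤ_[p]
  c : J → R →+ ℤ
  γ : R × Bool → ℤ_[p]
  inj : ∀ x, (∀ j, φ j x = 0) → x = 0
  coord : ∀ j r, φ j (ι r) = (c j r : ℤ_[p])
  cinj : ∀ r, (∀ j, c j r = 0) → r = 0
  pure : ∀ (x : M) (r : R), (p : ℤ_[p]) • x = ι r → ∃ r', x = ι r'
  indep : AlgebraicIndependent ℤ γ

namespace Data

variable (D : Data p M R J)

lemma ι_injective : Function.Injective D.ι := by
  rw [injective_iff_map_eq_zero]
  intro r hr
  apply D.cinj
  intro j
  have h := D.coord j r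
  rw [hr, map_zero] at h
  exact_mod_cast h.symm

include D in
lemma smul_cancel {x : M} {k : ℕ} (h : ((p : ℤ_[p]) ^ k) • x = 0) : x = 0 := by
  apply D.inj
  intro j
  have h1 := congrArg (D.φ j) h
  rw [map_smul, map_zero, smul_eq_mul, mul_eq_zero] at h1
  rcases h1 with h1 | h1
  · exfalso
    exact pow_ne_zero k (by exact_mod_cast (Fact.out : p.Prime).ne_zero) h1
  · exact h1

lemma pure_pow (k : ℕ) : ∀ (x : M) (r : R), ((p : ℤ_[p]) ^ k) • x = D.ι r → ∃ r', x = D.ι r' := by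
  induction k with
  | zero => intro x r h; exact ⟨r, by simpa using h⟩
  | succ k ih =>
    intro x r h
    rw [pow_succ', mul_smul] at h
    obtain ⟨r', hr'⟩ := D.pure _ _ h
    exact ih x r' hr'

/-- The elements `e_s = γ(s,0) + γ(s,1) s`. -/
noncomputable def e (s : R) : M := D.γ (s, false) • (1 : M) + D.γ (s, true) • D.ι s

lemma ι_mul_e (t s : R) : D.ι t * D.e s =
    D.γ (s, false) • D.ι t + D.γ (s, true) • D.ι (t * s) := by
  rw [e, mul_add, mul_smul_comm, mul_smul_comm, mul_one, map_mul]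

/-- The parametrization of the group generated by `R` and the `R e_s`. -/
noncomputable def Ψ : R × (R →₀ R) →+ M where
  toFun a := D.ι a.1 + a.2.sum fun s t => D.ι t * D.e s
  map_zero' := by simp
  map_add' a b := by
    rw [Prod.fst_add, Prod.snd_add, map_add, Finsupp.sum_add_index']
    · abel
    · intro s; simp
    · intro s t t'; rw [map_add, add_mul]

lemma Ψ_apply (a : R × (R →₀ R)) :
    D.Ψ a = D.ι a.1 + a.2.sum fun s t => D.ι t * D.e s := rfl

lemma Ψ_zero_right (a0 : R) : D.Ψ (a0, 0) = D.ι a0 := by simp [Ψ_apply]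

lemma ι_mul_Ψ (s : R) (a : R × (R →₀ R)) : D.ι s * D.Ψ a =
    D.Ψ (s * a.1, a.2.mapRange (fun t => s * t) (mul_zero s)) := by
  rw [Ψ_apply, Ψ_apply, mul_add, map_mul]
  congr 1
  rw [Finsupp.sum_mapRange_index (by intro u; simp), Finsupp.mul_sum]
  refine Finsupp.sum_congr fun u _ => ?_
  rw [map_mul, mul_assoc]

/-- The polynomial giving the `j`-th coordinate of `Ψ a`. -/
noncomputable def P (j : J) (a : R × (R →₀ R)) : MvPolynomial (R × Bool) ℤ :=
  MvPolynomial.C (D.c j a.1) + a.2.sum fun s t =>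
    (MvPolynomial.C (D.c j t) * MvPolynomial.X (s, false) +
      MvPolynomial.C (D.c j (t * s)) * MvPolynomial.X (s, true))

lemma φ_Ψ (j : J) (a : R × (R →₀ R)) : D.φ j (D.Ψ a) = MvPolynomial.aeval D.γ (D.P j a) := by
  rw [Ψ_apply, P, map_add, map_add, D.coord, MvPolynomial.aeval_C]
  congr 1
  rw [map_finsuppSum, map_finsuppSum]
  refine Finsupp.sum_congr fun s _ => ?_
  rw [ι_mul_e, map_add, map_smul, map_smul, D.coord, D.coord, map_add,
    map_mul (MvPolynomial.aeval D.γ), map_mul (MvPolynomial.aeval D.γ), MvPolynomial.aeval_C, MvPolynomial.aeval_C, MvPolynomial.aeval_X, MvPolynomial.aeval_X,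
    smul_eq_mul, smul_eq_mul, mul_comm (D.γ _), mul_comm (D.γ _)]
  rfl

open MvPolynomial in
lemma coeff_P (j : J) (a : R × (R →₀ R)) (m : (R × Bool) →₀ ℕ) :
    coeff m (D.P j a) = coeff m (C (D.c j a.1) : MvPolynomial (R × Bool) ℤ) +
      a.2.sum fun s t => (D.c j t * coeff m (X (s, false) : MvPolynomial (R × Bool) ℤ) +
        D.c j (t * s) * coeff m (X (s, true) : MvPolynomial (R × Bool) ℤ)) := by
  rw [P, coeff_add]
  congr 1
  rw [← coeffAddMonoidHom_apply, map_finsuppSum]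
  refine Finsupp.sum_congr fun s _ => ?_
  rw [coeffAddMonoidHom_apply, coeff_add, coeff_C_mul, coeff_C_mul]

open MvPolynomial in
lemma coeff_P_zero (j : J) (a : R × (R →₀ R)) : coeff 0 (D.P j a) = D.c j a.1 := by
  rw [coeff_P, coeff_zero_C]
  simp

open MvPolynomial in
lemma coeff_P_false (j : J) (a : R × (R →₀ R)) (s0 : R) :
    coeff (Finsupp.single (s0, false) 1) (D.P j a) = D.c j (a.2 s0) := by
  classical
  rw [coeff_P, coeff_C, if_neg, zero_add]
  · rw [Finsupp.sum, Finset.sum_eq_single s0]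
    · rw [coeff_X, coeff_X, if_pos rfl, if_neg, mul_zero, mul_one, add_zero]
      intro h
      have := Finsupp.single_left_injective (one_ne_zero) h
      simp at this
    · intro s _ hs
      rw [coeff_X, coeff_X, if_neg, if_neg, mul_zero, mul_zero, add_zero]
      · intro h
        have := Finsupp.single_left_injective (one_ne_zero) h
        simp at this
      · intro h
        have := Finsupp.single_left_injective (one_ne_zero) h
        simp at this
        exact hs this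
    · intro h
      rw [Finsupp.notMem_support_iff.1 h]
      simp
  · intro h
    have := DFunLike.congr_fun h (s0, false)
    simp at this

open MvPolynomial in
lemma coeff_P_true (j : J) (a : R × (R →₀ R)) (s0 : R) :
    coeff (Finsupp.single (s0, true) 1) (D.P j a) = D.c j (a.2 s0 * s0) := by
  classical
  rw [coeff_P, coeff_C, if_neg, zero_add]
  · rw [Finsupp.sum, Finset.sum_eq_single s0]
    · rw [coeff_X, coeff_X, if_neg, if_pos rfl, mul_zero, mul_one, zero_add]
      intro h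
      have := Finsupp.single_left_injective (one_ne_zero) h
      simp at this
    · intro s _ hs
      rw [coeff_X, coeff_X, if_neg, if_neg, mul_zero, mul_zero, add_zero]
      · intro h
        have := Finsupp.single_left_injective (one_ne_zero) h
        simp at this
        exact hs this
      · intro h
        have := Finsupp.single_left_injective (one_ne_zero) h
        simp at this
    · intro h
      rw [Finsupp.notMem_support_iff.1 h]
      simp
  · intro h
    have := DFunLike.congr_fun h (s0, true)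
    simp at this

open MvPolynomial in
lemma coeff_P_two (j : J) (a : R × (R →₀ R)) (u v : R × Bool) :
    coeff (Finsupp.single u 1 + Finsupp.single v 1) (D.P j a) = 0 := by
  classical
  have hX : ∀ i : R × Bool, coeff (Finsupp.single u 1 + Finsupp.single v 1)
      (X i : MvPolynomial (R × Bool) ℤ) = 0 := by
    intro i
    rw [coeff_X, if_neg]
    intro h
    have := congrArg Finsupp.degree h
    simp at this
  rw [coeff_P, coeff_C, if_neg, zero_add]
  · simp [hX]
  · intro h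
    have := congrArg Finsupp.degree h
    simp at this

open MvPolynomial in
/-- The key computation of the construction. -/
lemma key (r : R) (a b c' : R × (R →₀ R))
    (h : D.γ (r, false) • D.Ψ a + D.γ (r, true) • D.Ψ b = D.Ψ c') :
    a.2 = 0 ∧ b.1 = a.1 * r ∧ b.2 = 0 := by
  classical
  have hpoly : ∀ j, (X (r, false) : MvPolynomial (R × Bool) ℤ) * D.P j a +
      X (r, true) * D.P j b = D.P j c' := by
    intro j
    apply D.indep
    rw [map_add, map_mul, map_mul, aeval_X, aeval_X, ← φ_Ψ, ← φ_Ψ, ← φ_Ψ, ← h, map_add, map_smul,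
      map_smul, smul_eq_mul, smul_eq_mul]
  have ha : a.2 = 0 := by
    ext s
    apply D.cinj
    intro j
    have h1 := congrArg (coeff (Finsupp.single (r, false) 1 + Finsupp.single (s, false) 1)) (hpoly j)
    rw [coeff_add, coeff_X_mul, coeff_P_false, coeff_X_mul', if_neg, add_zero, coeff_P_two] at h1
    · exact h1
    · rw [Finsupp.mem_support_iff, not_not]
      simp
  have hb : b.2 = 0 := by
    ext s
    apply D.cinj
    intro j
    have h1 := congrArg (coeff (Finsupp.single (r, true) 1 + Finsupp.single (s, false) 1)) (hpoly j)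
    rw [coeff_add, coeff_X_mul (m := Finsupp.single (s, false) 1) (s := (r, true)), coeff_P_false,
      coeff_P_two] at h1
    have h2 : coeff (Finsupp.single (r, true) 1 + Finsupp.single (s, false) 1)
        ((X (r, false) : MvPolynomial (R × Bool) ℤ) * D.P j a) = 0 := by
      rw [coeff_X_mul']
      split_ifs with hif
      · rw [P, ha, Finsupp.sum_zero_index, add_zero, coeff_C, if_neg]
        intro h3
        have := DFunLike.congr_fun h3 (r, true)
        simp at this
      · rfl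
    rw [h2, zero_add] at h1
    exact h1
  refine ⟨ha, ?_, hb⟩
  have h3 : a.1 = c'.2 r := by
    rw [← sub_eq_zero]
    apply D.cinj
    intro j
    have h1 := congrArg (coeff (Finsupp.single (r, false) 1)) (hpoly j)
    have h2 := coeff_X_mul (0 : (R × Bool) →₀ ℕ) (r, false) (D.P j a)
    rw [add_zero] at h2
    rw [coeff_add, h2, coeff_P_zero, coeff_X_mul', if_neg, add_zero, coeff_P_false] at h1
    · rw [map_sub, h1, sub_self]
    · rw [Finsupp.mem_support_iff, not_not]
      simp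
  have h4 : b.1 = c'.2 r * r := by
    rw [← sub_eq_zero]
    apply D.cinj
    intro j
    have h1 := congrArg (coeff (Finsupp.single (r, true) 1)) (hpoly j)
    have h2 := coeff_X_mul (0 : (R × Bool) →₀ ℕ) (r, true) (D.P j b)
    rw [add_zero] at h2
    rw [coeff_add, h2, coeff_P_zero, coeff_X_mul', if_neg, zero_add, coeff_P_true] at h1
    · rw [map_sub, h1, sub_self]
    · rw [Finsupp.mem_support_iff, not_not]
      simp
  rw [h3, h4]

/-- The group `A`. -/
def A : AddSubgroup M where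
  carrier := {x | ∃ k : ℕ, ∃ a, ((p : ℤ_[p]) ^ k) • x = D.Ψ a}
  zero_mem' := ⟨0, 0, by simp⟩
  neg_mem' := by
    rintro x ⟨k, a, h⟩
    exact ⟨k, -a, by rw [smul_neg, h, map_neg]⟩
  add_mem' := by
    rintro x y ⟨k, a, h⟩ ⟨l, b, h'⟩
    refine ⟨k + l, p ^ l • a + p ^ k • b, ?_⟩
    rw [map_add, map_nsmul, map_nsmul, ← h, ← h', smul_add]
    have e1 : ∀ (n : ℕ) (z : M), (p ^ n : ℕ) • z = ((p : ℤ_[p]) ^ n) • z := by
      intro n z
      rw [← Nat.cast_smul_eq_nsmul ℤ_[p], Nat.cast_pow]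
    rw [e1, e1, smul_smul, smul_smul, ← pow_add, ← pow_add, add_comm l k]

lemma mem_A {x : M} : x ∈ D.A ↔ ∃ k : ℕ, ∃ a, ((p : ℤ_[p]) ^ k) • x = D.Ψ a := Iff.rfl

lemma Ψ_mem (a) : D.Ψ a ∈ D.A := ⟨0, a, by simp⟩

lemma ι_mem (r : R) : D.ι r ∈ D.A := by
  rw [← Ψ_zero_right]; exact D.Ψ_mem _

lemma ι_mul_e_mem (t s : R) : D.ι t * D.e s ∈ D.A := by
  have : D.ι t * D.e s = D.Ψ (0, Finsupp.single s t) := by
    rw [Ψ_apply]; simp
  rw [this]; exact D.Ψ_mem _

lemma e_mem (s : R) : D.e s ∈ D.A := by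
  have := D.ι_mul_e_mem 1 s
  rwa [map_one, one_mul] at this

lemma mem_of_smul_mem {x : M} {n : ℕ} (h : ((p : ℤ_[p]) ^ n) • x ∈ D.A) : x ∈ D.A := by
  obtain ⟨k, a, h⟩ := h
  exact ⟨k + n, a, by rw [pow_add, mul_smul, h]⟩

lemma ι_mul_mem (s : R) {x : M} (h : x ∈ D.A) : D.ι s * x ∈ D.A := by
  obtain ⟨k, a, h⟩ := h
  exact ⟨k, _, by rw [← mul_smul_comm, h, ι_mul_Ψ]⟩

include D in
lemma eq_of_forall_dvd {x y : M} (h : ∀ n : ℕ, ∃ z, x - y = ((p : ℤ_[p]) ^ n) • z) : x = y := by
  rw [← sub_eq_zero]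
  apply D.inj
  intro j
  have h1 : ∀ n : ℕ, ‖D.φ j (x - y)‖ ≤ ((p : ℝ)⁻¹) ^ n := by
    intro n
    obtain ⟨z, hz⟩ := h n
    rw [hz, map_smul, smul_eq_mul, norm_mul, norm_pow, PadicInt.norm_p]
    calc ((p : ℝ)⁻¹) ^ n * ‖D.φ j z‖ ≤ ((p : ℝ)⁻¹) ^ n * 1 := by
          gcongr
          exact PadicInt.norm_le_one _
      _ = _ := mul_one _
  have hp : ((p : ℝ)⁻¹) < 1 := by
    apply inv_lt_one_of_one_lt₀
    exact_mod_cast (Fact.out : p.Prime).one_lt
  have h2 : Filter.Tendsto (fun n : ℕ => ((p : ℝ)⁻¹) ^ n) Filter.atTop (nhds 0) :=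
    tendsto_pow_atTop_nhds_zero_of_lt_one (by positivity) hp
  have h3 : ‖D.φ j (x - y)‖ ≤ 0 := ge_of_tendsto' h2 h1
  exact norm_le_zero_iff.1 h3

/-- Endomorphisms of `A` are continuous. -/
lemma cont (f : AddMonoid.End D.A) (α β : ℤ_[p]) (s t : R)
    (hx : α • D.ι s + β • D.ι t ∈ D.A) :
    ((f ⟨_, hx⟩ : D.A) : M) = α • ((f ⟨_, D.ι_mem s⟩ : D.A) : M) +
      β • ((f ⟨_, D.ι_mem t⟩ : D.A) : M) := by
  apply D.eq_of_forall_dvd
  intro n
  have happr : ∀ x : ℤ_[p], ∃ y, x = (PadicInt.appr x n : ℤ_[p]) + (p : ℤ_[p]) ^ n * y := by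
    intro x
    have h := PadicInt.appr_spec n x
    rw [Ideal.mem_span_singleton] at h
    obtain ⟨y, hy⟩ := h
    exact ⟨y, by rw [← hy]; ring⟩
  obtain ⟨a', ha'⟩ := happr α
  obtain ⟨b', hb'⟩ := happr β
  set a := PadicInt.appr α n
  set b := PadicInt.appr β n
  have hy : α • D.ι s + β • D.ι t - a • D.ι s - b • D.ι t =
      ((p : ℤ_[p]) ^ n) • (a' • D.ι s + b' • D.ι t) := by
    rw [← Nat.cast_smul_eq_nsmul ℤ_[p] a, ← Nat.cast_smul_eq_nsmul ℤ_[p] b]
    conv_lhs => rw [ha', hb']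
    module
  have hymem : a' • D.ι s + b' • D.ι t ∈ D.A := by
    apply D.mem_of_smul_mem (n := n)
    rw [← hy]
    exact D.A.sub_mem (D.A.sub_mem hx (D.A.nsmul_mem (D.ι_mem s) _)) (D.A.nsmul_mem (D.ι_mem t) _)
  have hyA : (⟨_, hx⟩ : D.A) = a • ⟨_, D.ι_mem s⟩ + b • ⟨_, D.ι_mem t⟩ + p ^ n • ⟨_, hymem⟩ := by
    apply Subtype.ext
    push_cast
    rw [← Nat.cast_smul_eq_nsmul ℤ_[p] (p ^ n), Nat.cast_pow, ← hy]
    abel
  have hf := congrArg (fun z : D.A => (z : M)) (congrArg f hyA)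
  simp only [map_add, map_nsmul] at hf
  push_cast at hf
  rw [hf]
  refine ⟨((f ⟨_, hymem⟩ : D.A) : M) - a' • ((f ⟨_, D.ι_mem s⟩ : D.A) : M) -
    b' • ((f ⟨_, D.ι_mem t⟩ : D.A) : M), ?_⟩
  rw [← Nat.cast_smul_eq_nsmul ℤ_[p] (p ^ n), Nat.cast_pow, ← Nat.cast_smul_eq_nsmul ℤ_[p] a,
    ← Nat.cast_smul_eq_nsmul ℤ_[p] b]
  conv_lhs => rw [ha', hb']
  module

/-- Every endomorphism of `A` is right multiplication on `R`, that is, `f r = f(1) r`. -/
lemma exists_left (f : AddMonoid.End D.A) :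
    ∃ a : R, ∀ r, ((f ⟨_, D.ι_mem r⟩ : D.A) : M) = D.ι (a * r) := by
  have step : ∀ r, ∃ a : R, ((f ⟨_, D.ι_mem 1⟩ : D.A) : M) = D.ι a ∧
      ((f ⟨_, D.ι_mem r⟩ : D.A) : M) = D.ι (a * r) := by
    intro r
    obtain ⟨k1, a1, h1⟩ := (f ⟨_, D.ι_mem 1⟩).2
    obtain ⟨k2, a2, h2⟩ := (f ⟨_, D.ι_mem r⟩).2
    have hmem : D.γ (r, false) • D.ι 1 + D.γ (r, true) • D.ι r ∈ D.A := by
      rw [map_one]; exact D.e_mem r
    obtain ⟨k3, a3, h3⟩ := (f ⟨_, hmem⟩).2
    have hc := D.cont f _ _ _ _ hmem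
    have e1 : ∀ (n : ℕ) (z : R × (R →₀ R)), D.Ψ (p ^ n • z) = ((p : ℤ_[p]) ^ n) • D.Ψ z := by
      intro n z
      rw [map_nsmul, ← Nat.cast_smul_eq_nsmul ℤ_[p], Nat.cast_pow]
    have hrel : D.γ (r, false) • D.Ψ (p ^ (k2 + k3) • a1) + D.γ (r, true) •
        D.Ψ (p ^ (k1 + k3) • a2) = D.Ψ (p ^ (k1 + k2) • a3) := by
      rw [e1, e1, e1, ← h1, ← h2, ← h3, hc]
      simp only [smul_add, smul_smul]
      congr 2 <;> ring
    obtain ⟨hk1, hk2, -⟩ := D.key r _ _ _ hrel
    have h4 : ((p : ℤ_[p]) ^ (k1 + k2 + k3)) • ((f ⟨_, D.ι_mem 1⟩ : D.A) : M) =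
        D.ι (p ^ (k2 + k3) • a1.1) := by
      have : D.Ψ (p ^ (k2 + k3) • a1) = D.ι (p ^ (k2 + k3) • a1.1) := by
        rw [Ψ_apply, hk1]; simp
      rw [← this, e1, ← h1, smul_smul, ← pow_add]
      congr 2
      ring
    obtain ⟨a, ha⟩ := D.pure_pow _ _ _ h4
    refine ⟨a, ha, ?_⟩
    have h5 : D.ι (p ^ (k2 + k3) • a1.1) = ((p : ℤ_[p]) ^ (k1 + k2 + k3)) • D.ι a := by
      rw [← h4, ha]
    have h6 : ((p : ℤ_[p]) ^ (k1 + k2 + k3)) • ((f ⟨_, D.ι_mem r⟩ : D.A) : M) =
        ((p : ℤ_[p]) ^ (k1 + k2 + k3)) • D.ι (a * r) := by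
      have h7 : D.Ψ (p ^ (k1 + k3) • a2) = D.ι (p ^ (k2 + k3) • a1.1 * r) := by
        have h8 : (p ^ (k1 + k3) • a2).2 = 0 := (D.key r _ _ _ hrel).2.2
        rw [Ψ_apply, h8, hk2]; simp
      rw [map_mul, ← smul_mul_assoc, ← h5, ← map_mul, ← h7, e1, ← h2, smul_smul, ← pow_add]
      congr 2
      ring
    have h7 : ((p : ℤ_[p]) ^ (k1 + k2 + k3)) •
        (((f ⟨_, D.ι_mem r⟩ : D.A) : M) - D.ι (a * r)) = 0 := by
      rw [smul_sub, h6, sub_self]
    exact sub_eq_zero.1 (D.smul_cancel h7)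
  obtain ⟨a, ha, -⟩ := step 1
  refine ⟨a, fun r => ?_⟩
  obtain ⟨a', ha', hr⟩ := step r
  rw [hr]
  have : a' = a := D.ι_injective (by rw [← ha, ← ha'])
  rw [this]

lemma eq_left (f : AddMonoid.End D.A) : ∃ a : R, ∀ x : D.A, ((f x : D.A) : M) = D.ι a * x := by
  obtain ⟨a, ha⟩ := D.exists_left f
  refine ⟨a, ?_⟩
  have hΨ : ∀ b : R × (R →₀ R), ((f ⟨_, D.Ψ_mem b⟩ : D.A) : M) = D.ι a * D.Ψ b := by
    rintro ⟨b0, b⟩
    induction b using Finsupp.induction_linear with
    | zero =>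
      have : (⟨_, D.Ψ_mem (b0, 0)⟩ : D.A) = ⟨_, D.ι_mem b0⟩ := Subtype.ext (D.Ψ_zero_right b0)
      rw [this, ha, map_mul, Ψ_zero_right]
    | add b b' hb hb' =>
      have h1 : (⟨_, D.Ψ_mem (b0, b + b')⟩ : D.A) =
          ⟨_, D.Ψ_mem (b0, b)⟩ + ⟨_, D.Ψ_mem (b0, b')⟩ - ⟨_, D.ι_mem b0⟩ := by
        apply Subtype.ext
        push_cast
        rw [← Ψ_zero_right, ← map_add, ← map_sub]
        congr 1
        ext <;> simp
      have h2 : D.Ψ (b0, b + b') = D.Ψ (b0, b) + D.Ψ (b0, b') - D.ι b0 := by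
        rw [← Ψ_zero_right, ← map_add, ← map_sub]
        congr 1
        ext <;> simp
      rw [h1, map_sub, map_add]
      push_cast
      rw [hb, hb', ha, h2, mul_sub, mul_add, map_mul]
    | single s t =>
      have hmem : D.γ (s, false) • D.ι t + D.γ (s, true) • D.ι (t * s) ∈ D.A := by
        rw [← ι_mul_e]; exact D.ι_mul_e_mem t s
      have h2 : D.Ψ (b0, Finsupp.single s t) = D.ι b0 +
          (D.γ (s, false) • D.ι t + D.γ (s, true) • D.ι (t * s)) := by
        rw [Ψ_apply, ← ι_mul_e]; simp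
      have h1 : (⟨_, D.Ψ_mem (b0, Finsupp.single s t)⟩ : D.A) = ⟨_, D.ι_mem b0⟩ + ⟨_, hmem⟩ :=
        Subtype.ext h2
      rw [h1, map_add]
      push_cast
      rw [D.cont f, ha, ha, ha, h2, mul_add, mul_add, map_mul, map_mul, map_mul D.ι t s,
        map_mul, mul_smul_comm, mul_smul_comm, map_mul]
  rintro ⟨x, hx⟩
  obtain ⟨k, b, h⟩ := hx
  have h1 : (p ^ k • (⟨x, ⟨k, b, h⟩⟩ : D.A)) = ⟨_, D.Ψ_mem b⟩ := by
    apply Subtype.ext
    push_cast
    rw [← Nat.cast_smul_eq_nsmul ℤ_[p], Nat.cast_pow, h]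
  have h2 := congrArg (fun z : D.A => (z : M)) (congrArg f h1)
  simp only [map_nsmul, hΨ] at h2
  push_cast at h2
  rw [← Nat.cast_smul_eq_nsmul ℤ_[p], Nat.cast_pow, ← h, mul_smul_comm] at h2
  rw [← sub_eq_zero]
  apply D.smul_cancel (k := k)
  rw [smul_sub, h2, sub_self]

/-- Left multiplication as a ring homomorphism. -/
def left : R →+* AddMonoid.End D.A where
  toFun s :=
    { toFun := fun x => ⟨D.ι s * x, D.ι_mul_mem s x.2⟩
      map_zero' := by apply Subtype.ext; simp
      map_add' := fun x y => by apply Subtype.ext; simp [mul_add] }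
  map_one' := by
    ext x
    show D.ι 1 * (x : M) = x
    rw [map_one, one_mul]
  map_mul' s t := by
    ext x
    show D.ι (s * t) * (x : M) = D.ι s * (D.ι t * (x : M))
    rw [map_mul, mul_assoc]
  map_zero' := by
    ext x
    show D.ι 0 * (x : M) = 0
    simp
  map_add' s t := by
    ext x
    show D.ι (s + t) * (x : M) = D.ι s * x + D.ι t * x
    rw [map_add, add_mul]

lemma left_bijective : Function.Bijective D.left := by
  constructor
  · rw [injective_iff_map_eq_zero]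
    intro s hs
    apply D.ι_injective
    rw [map_zero]
    have h1 : (1 : M) ∈ D.A := by
      have := D.ι_mem 1
      rwa [map_one] at this
    have h := congrArg (fun z : D.A => (z : M)) (DFunLike.congr_fun hs ⟨1, h1⟩)
    have h2 : D.ι s * 1 = 0 := h
    rwa [mul_one] at h2
  · intro f
    obtain ⟨a, ha⟩ := D.eq_left f
    refine ⟨a, ?_⟩
    ext x
    exact (ha x).symm

end Data

end Abstract

section Free

open TensorProduct

variable (p : ℕ) [Fact p.Prime] (R : Type) [Ring R] [Countable R] [Module.Free ℤ R]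

/-- The `j`-th coordinate on `ℤ_[p] ⊗ R`. -/
noncomputable def coordT {J : Type} (b : Module.Basis J ℤ R) (j : J) :
    (ℤ_[p] ⊗[ℤ] R) →ₗ[ℤ_[p]] ℤ_[p] :=
  (Module.Basis.baseChange ℤ_[p] b).coord j

/-- The data for a countable ring with free additive group. -/
theorem exists_data : ∃ J : Type, Nonempty (Data p (ℤ_[p] ⊗[ℤ] R) R J) := by
  obtain ⟨γ, hγ⟩ := exists_algebraicIndependent p (R × Bool)
  let b := Module.Free.chooseBasis ℤ R
  have hcoord : ∀ (j : Module.Free.ChooseBasisIndex ℤ R) (r : R),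
      (Module.Basis.baseChange ℤ_[p] b).coord j ((1 : ℤ_[p]) ⊗ₜ[ℤ] r) = (b.coord j r : ℤ_[p]) := by
    intro j r
    rw [Module.Basis.coord_apply, Module.Basis.baseChange_repr_tmul, Module.Basis.coord_apply]
    simp
  have hinj : ∀ x : ℤ_[p] ⊗[ℤ] R, (∀ j, (Module.Basis.baseChange ℤ_[p] b).coord j x = 0) →
      x = 0 := by
    intro x hx
    apply (Module.Basis.baseChange ℤ_[p] b).repr.injective
    ext j
    rw [map_zero]
    exact hx j
  refine ⟨Module.Free.ChooseBasisIndex ℤ R, ⟨{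
    ι := (Algebra.TensorProduct.includeRight : R →ₐ[ℤ] ℤ_[p] ⊗[ℤ] R).toRingHom
    φ := fun j => (Module.Basis.baseChange ℤ_[p] b).coord j
    c := fun j => (b.coord j).toAddMonoidHom
    γ := γ
    inj := hinj
    coord := fun j r => hcoord j r
    cinj := ?_
    pure := ?_
    indep := hγ }⟩⟩
  · intro r hr
    apply b.repr.injective
    ext j
    rw [map_zero]
    exact hr j
  · intro x r hx
    have h1 : ∀ j, ∃ n : ℤ, b.coord j r = p * n := by
      intro j
      have h2 := congrArg ((Module.Basis.baseChange ℤ_[p] b).coord j) hx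
      rw [map_smul] at h2
      have h3 : (Module.Basis.baseChange ℤ_[p] b).coord j
        ((Algebra.TensorProduct.includeRight : R →ₐ[ℤ] ℤ_[p] ⊗[ℤ] R).toRingHom r) =
        (b.coord j r : ℤ_[p]) := hcoord j r
      rw [h3, smul_eq_mul] at h2
      have h4 : (p : ℤ_[p]) ^ 1 ∣ (b.coord j r : ℤ_[p]) := ⟨_, by rw [pow_one]; exact h2.symm⟩
      rw [PadicInt.pow_p_dvd_int_iff, pow_one] at h4
      exact h4
    choose n hn using h1
    have hfin : (Function.support n).Finite := by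
      refine (b.repr r).hasFiniteSupport.subset ?_
      intro j hj h0
      apply hj
      have h2 := hn j
      rw [Module.Basis.coord_apply, h0] at h2
      have hp : (p : ℤ) ≠ 0 := by exact_mod_cast (Fact.out : p.Prime).ne_zero
      exact (mul_eq_zero.1 h2.symm).resolve_left hp
    let nf : Module.Free.ChooseBasisIndex ℤ R →₀ ℤ := Finsupp.ofSupportFinite n hfin
    refine ⟨b.repr.symm nf, ?_⟩
    rw [← sub_eq_zero]
    apply hinj
    intro j
    rw [map_sub]
    have h3 : (Module.Basis.baseChange ℤ_[p] b).coord j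
        ((Algebra.TensorProduct.includeRight : R →ₐ[ℤ] ℤ_[p] ⊗[ℤ] R).toRingHom (b.repr.symm nf)) =
        (b.coord j (b.repr.symm nf) : ℤ_[p]) := hcoord j _
    rw [h3, Module.Basis.coord_apply b, LinearEquiv.apply_symm_apply]
    have h2 := congrArg ((Module.Basis.baseChange ℤ_[p] b).coord j) hx
    have h4 : (Module.Basis.baseChange ℤ_[p] b).coord j
        ((Algebra.TensorProduct.includeRight : R →ₐ[ℤ] ℤ_[p] ⊗[ℤ] R).toRingHom r) =
        (b.coord j r : ℤ_[p]) := hcoord j r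
    rw [map_smul, h4, hn j, smul_eq_mul, Int.cast_mul, Int.cast_natCast] at h2
    have hp : (p : ℤ_[p]) ≠ 0 := by exact_mod_cast (Fact.out : p.Prime).ne_zero
    rw [mul_left_cancel₀ hp h2]
    show ((n j : ℤ) : ℤ_[p]) - ((n j : ℤ) : ℤ_[p]) = 0
    rw [sub_self]

/-- **Corner's theorem** for countable rings with free additive group. -/
theorem corner (R : Type) [Ring R] [Countable R] [Module.Free ℤ R] :
    ∃ (A : Type) (_ : AddCommGroup A), Nonempty (R ≃+* AddMonoid.End A) := by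
  have : Fact (Nat.Prime 2) := ⟨Nat.prime_two⟩
  obtain ⟨J, ⟨D⟩⟩ := exists_data 2 R
  exact ⟨D.A, inferInstance, ⟨RingEquiv.ofBijective D.left D.left_bijective⟩⟩

end Free

end Q9.Corner
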