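import Mathlib

/-! Chains modulo 2 and linear quotients: the combinatorial core. -/

namespace Q9.MonoChain

variable {V : Type*} [Fintype V] [DecidableEq V]

/-- boundary modulo 2 -/
def bd (w : Finset V → ZMod 2) (T : Finset V) : ZMod 2 := ∑ v ∈ Tᶜ, w (insert v T)

theorem add_self (x : ZMod 2) : x + x = 0 := CharTwo.add_self_eq_zero x

theorem bd_bd (u : Finset V → ZMod 2) (T : Finset V) : bd (bd u) T = 0 := by
  unfold bd
  rw [Finset.sum_sigma']
  apply Finset.sum_involution (fun x _ => ⟨x.2, x.1⟩)
  · rintro ⟨v, a⟩ _
    simp only
    rw [Finset.insert_comm]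
    exact add_self _
  · rintro ⟨v, a⟩ h _ heq
    rw [Finset.mem_sigma, Finset.mem_compl, Finset.mem_compl] at h
    simp only [Sigma.mk.injEq] at heq
    apply h.2
    rw [Finset.mem_insert]
    exact Or.inl heq.1
  · rintro ⟨v, a⟩ _
    rfl
  · rintro ⟨v, a⟩ h
    rw [Finset.mem_sigma, Finset.mem_compl, Finset.mem_compl] at h ⊢
    simp only [Finset.mem_insert, not_or] at h ⊢
    exact ⟨h.2.2, fun h' => h.2.1 h'.symm, h.1⟩

theorem bd_add (u w : Finset V → ZMod 2) (T : Finset V) :
    bd (fun F => u F + w F) T = bd u T + bd w T := by
  unfold bd
  rw [Finset.sum_add_distrib]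

theorem eq_insert_of {M F : Finset V} (hM : M.card = 3) (hF : F.card = 4) (h : M ⊆ F) :
    ∃ v, v ∉ M ∧ F = insert v M := by
  have h1 : (F \ M).card = 1 := by
    rw [Finset.card_sdiff_of_subset h]; omega
  rw [Finset.card_eq_one] at h1
  obtain ⟨v, hv⟩ := h1
  have hv' : v ∈ F \ M := by rw [hv]; exact Finset.mem_singleton_self v
  refine ⟨v, (Finset.mem_sdiff.1 hv').2, ?_⟩
  rw [Finset.insert_eq, ← hv, Finset.sdiff_union_of_subset h]

/-- The condition on a filling `w` of `z` with respect to the set `P` of removed triples. -/
structure Fill (z : Finset V → ZMod 2) (P : Finset (Finset V)) (w : Finset V → ZMod 2) :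
    Prop where
  four : ∀ F, F.card ≠ 4 → w F = 0
  avoid : ∀ F, ∀ M' ∈ P, M' ⊆ F → w F = 0
  bdry : ∀ T, T.card = 3 → bd w T = z T

theorem step {z : Finset V → ZMod 2} {P : Finset (Finset V)} {w : Finset V → ZMod 2}
    (hw : Fill z P w) {M : Finset V} (hM : M.card = 3) (hz : z M = 0)
    (hLQ : ∀ M' ∈ P, ∃ M'' ∈ P, ∃ y ∈ M', y ∉ M ∧ M'' ⊆ insert y M) :
    ∃ w', Fill z (insert M P) w' := by
  by_cases hc : ∃ v0, v0 ∉ M ∧ w (insert v0 M) ≠ 0
  · obtain ⟨v0, hv0, hc0⟩ := hc
    let u : Finset V → ZMod 2 := fun F =>
      if v0 ∈ F ∧ M ⊆ F ∧ F.card = 5 then w (F.erase v0) else 0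
    have hu : ∀ F, u F = if v0 ∈ F ∧ M ⊆ F ∧ F.card = 5 then w (F.erase v0) else 0 :=
      fun F => rfl
    have hsum : ∑ a ∈ Mᶜ, w (insert a M) = 0 := by
      have := hw.bdry M hM
      rw [hz] at this
      exact this
    refine ⟨fun F => w F + bd u F, ?_, ?_, ?_⟩
    · intro F hF
      rw [hw.four F hF, zero_add]
      unfold bd
      apply Finset.sum_eq_zero
      intro a ha
      rw [Finset.mem_compl] at ha
      rw [hu, if_neg]
      rintro ⟨_, _, h3⟩
      rw [Finset.card_insert_of_notMem ha] at h3
      omega
    · intro F M' hM' hsub
      rw [Finset.mem_insert] at hM'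
      rcases hM' with rfl | hM'
      · -- F contains M
        by_cases hF : F.card = 4
        · obtain ⟨v, hv, rfl⟩ := eq_insert_of hM hF hsub
          by_cases hvv : v = v0
          · subst hvv
            have h1 : bd u (insert v M') = ∑ a ∈ (insert v M')ᶜ, w (insert a M') := by
              unfold bd
              apply Finset.sum_congr rfl
              intro a ha
              rw [Finset.mem_compl, Finset.mem_insert, not_or] at ha
              rw [hu, if_pos]
              · congr 1
                rw [Finset.insert_comm, Finset.erase_insert]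
                rw [Finset.mem_insert, not_or]
                exact ⟨fun h => ha.1 h.symm, hv⟩
              · refine ⟨by simp, ?_, ?_⟩
                · intro x hx
                  simp [hx]
                · rw [Finset.card_insert_of_notMem, Finset.card_insert_of_notMem hv, hM]
                  rw [Finset.mem_insert, not_or]
                  exact ha
            rw [h1]
            rw [← hsum]
            have h2 : M'ᶜ = insert v (insert v M')ᶜ := by
              ext x
              simp only [Finset.mem_compl, Finset.mem_insert, not_or]
              constructor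
              · intro hx
                by_cases hxv : x = v
                · exact Or.inl hxv
                · exact Or.inr ⟨hxv, hx⟩
              · rintro (rfl | ⟨_, hx⟩)
                · exact hv
                · exact hx
            rw [h2, Finset.sum_insert]
            simp
          · have h1 : bd u (insert v M') = w (insert v M') := by
              unfold bd
              rw [Finset.sum_eq_single v0]
              · rw [hu, if_pos]
                · rw [Finset.erase_insert]
                  rw [Finset.mem_insert, not_or]
                  exact ⟨fun h => hvv h.symm, hv0⟩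
                · refine ⟨by simp, ?_, ?_⟩
                  · intro x hx
                    simp [hx]
                  · rw [Finset.card_insert_of_notMem, Finset.card_insert_of_notMem hv, hM]
                    rw [Finset.mem_insert, not_or]
                    exact ⟨fun h => hvv h.symm, hv0⟩
              · intro a _ ha
                rw [hu, if_neg]
                rintro ⟨h2, _, _⟩
                rw [Finset.mem_insert, Finset.mem_insert] at h2
                rcases h2 with h2 | h2 | h2
                · exact ha h2.symm
                · exact hvv h2.symm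
                · exact hv0 h2
              · intro h2
                exfalso
                apply h2
                rw [Finset.mem_compl, Finset.mem_insert, not_or]
                exact ⟨fun h => hvv h.symm, hv0⟩
            rw [h1]
            exact add_self _
        · rw [hw.four F hF, zero_add]
          unfold bd
          apply Finset.sum_eq_zero
          intro a ha
          rw [Finset.mem_compl] at ha
          rw [hu, if_neg]
          rintro ⟨_, _, h3⟩
          rw [Finset.card_insert_of_notMem ha] at h3
          omega
      · rw [hw.avoid F M' hM' hsub, zero_add]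
        unfold bd
        apply Finset.sum_eq_zero
        intro a ha
        rw [Finset.mem_compl] at ha
        rw [hu]
        split_ifs with h
        · obtain ⟨h1, h2, h3⟩ := h
          by_contra hne
          have hcard : ((insert a F).erase v0).card = 4 := by
            rw [Finset.card_erase_of_mem h1, h3]
          have hMs : M ⊆ (insert a F).erase v0 := by
            intro x hx
            rw [Finset.mem_erase]
            exact ⟨fun h => hv0 (h ▸ hx), h2 hx⟩
          obtain ⟨v, hv, hG⟩ := eq_insert_of hM hcard hMs
          obtain ⟨M'', hM'', y, hy, hyM, hsub''⟩ := hLQ M' hM'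
          have hyF : y ∈ insert a F := Finset.mem_insert_of_mem (hsub hy)
          by_cases hyv0 : y = v0
          · subst hyv0
            exact hc0 (hw.avoid _ M'' hM'' hsub'')
          · have hyG : y ∈ (insert a F).erase v0 := Finset.mem_erase.2 ⟨hyv0, hyF⟩
            rw [hG, Finset.mem_insert] at hyG
            rcases hyG with rfl | hyG
            · apply hne
              rw [hG]
              exact hw.avoid _ M'' hM'' hsub''
            · exact hyM hyG
        · rfl
    · intro T hT
      rw [bd_add, bd_bd, add_zero]
      exact hw.bdry T hT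
  · push Not at hc
    refine ⟨w, hw.four, ?_, hw.bdry⟩
    intro F M' hM' hsub
    rw [Finset.mem_insert] at hM'
    rcases hM' with rfl | hM'
    · by_cases hF : F.card = 4
      · obtain ⟨v, hv, rfl⟩ := eq_insert_of hM hF hsub
        exact hc v hv
      · exact hw.four F hF
    · exact hw.avoid F M' hM' hsub

/-- Induction along an ordering with the linear quotient property. -/
theorem fill_all {z : Finset V → ZMod 2} {w0 : Finset V → ZMod 2} (h0 : Fill z ∅ w0) {r : ℕ}
    (M : Fin r → Finset V) (hcard : ∀ i, (M i).card = 3) (hz : ∀ i, z (M i) = 0)
    (hLQ : ∀ i j, j < i → ∃ l, l < i ∧ ∃ y ∈ M j, y ∉ M i ∧ M l ⊆ insert y (M i)) :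
    ∃ w, Fill z (Finset.univ.image M) w := by
  have key : ∀ k : ℕ, k ≤ r → ∃ w, Fill z ((Finset.univ.filter (fun i : Fin r => i.1 < k)).image M)
      w := by
    intro k
    induction k with
    | zero =>
      intro _
      refine ⟨w0, ?_⟩
      convert h0 using 1
      ext T
      simp
    | succ k ih =>
      intro hk
      obtain ⟨w, hw⟩ := ih (by omega)
      obtain ⟨w', hw'⟩ := step hw (hcard ⟨k, by omega⟩) (hz ⟨k, by omega⟩) (by
        intro M' hM'
        rw [Finset.mem_image] at hM'
        obtain ⟨j, hj, rfl⟩ := hM'
        rw [Finset.mem_filter] at hj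
        obtain ⟨l, hl, y, hy1, hy2, hy3⟩ := hLQ ⟨k, by omega⟩ j (by
          rw [Fin.lt_def]; exact hj.2)
        refine ⟨M l, ?_, y, hy1, hy2, hy3⟩
        rw [Finset.mem_image]
        exact ⟨l, Finset.mem_filter.2 ⟨Finset.mem_univ _, by rw [Fin.lt_def] at hl; exact hl⟩, rfl⟩)
      refine ⟨w', ?_⟩
      convert hw' using 1
      ext T
      simp only [Finset.mem_image, Finset.mem_filter, Finset.mem_univ, true_and,
        Finset.mem_insert]
      constructor
      · rintro ⟨i, hi, rfl⟩
        rcases Nat.lt_succ_iff_lt_or_eq.1 hi with h | h
        · exact Or.inr ⟨i, h, rfl⟩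
        · left
          congr 1
          exact Fin.ext h
      · rintro (rfl | ⟨i, hi, rfl⟩)
        · exact ⟨⟨k, by omega⟩, by simp, rfl⟩
        · exact ⟨i, by omega, rfl⟩
  obtain ⟨w, hw⟩ := key r le_rfl
  refine ⟨w, ?_⟩
  convert hw using 2
  ext i
  simp

/-- The cone over a cycle. -/
theorem cone {z : Finset V → ZMod 2} (hz3 : ∀ T, T.card ≠ 3 → z T = 0)
    (hcyc : ∀ a b : V, a ≠ b → ∑ v ∈ ({a, b} : Finset V)ᶜ, z (insert v {a, b}) = 0) (o : V) :
    Fill z ∅ (fun F => if o ∈ F then z (F.erase o) else 0) := by
  refine ⟨?_, ?_, ?_⟩
  · intro F hF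
    split_ifs with h
    · apply hz3
      rw [Finset.card_erase_of_mem h]
      have : 0 < F.card := Finset.card_pos.2 ⟨o, h⟩
      omega
    · rfl
  · intro F M' hM'
    exact absurd hM' (Finset.notMem_empty M')
  · intro T hT
    unfold bd
    by_cases ho : o ∈ T
    · have h1 : (T.erase o).card = 2 := by rw [Finset.card_erase_of_mem ho, hT]
      rw [Finset.card_eq_two] at h1
      obtain ⟨a, b, hab, hT'⟩ := h1
      have h2 := hcyc a b hab
      rw [← hT'] at h2
      have h3 : (T.erase o)ᶜ = insert o Tᶜ := by
        ext x
        simp only [Finset.mem_compl, Finset.mem_erase, Finset.mem_insert, not_and]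
        constructor
        · intro h
          by_cases hx : x = o
          · exact Or.inl hx
          · exact Or.inr (h hx)
        · rintro (rfl | h) hne
          · exact absurd rfl hne
          · exact h
      rw [h3, Finset.sum_insert (by simp [ho]), Finset.insert_erase ho] at h2
      have h4 : ∑ v ∈ Tᶜ, (if o ∈ insert v T then z ((insert v T).erase o) else 0)
          = ∑ v ∈ Tᶜ, z (insert v (T.erase o)) := by
        apply Finset.sum_congr rfl
        intro v hv
        rw [Finset.mem_compl] at hv
        rw [if_pos (Finset.mem_insert_of_mem ho), Finset.erase_insert_of_ne]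
        rintro rfl
        exact hv ho
      rw [h4]
      have h5 := add_self (z T)
      have h6 : z T + ∑ v ∈ Tᶜ, z (insert v (T.erase o)) = z T + z T := by rw [h2, h5]
      exact add_left_cancel h6
    · rw [Finset.sum_eq_single o]
      · show (if o ∈ insert o T then z ((insert o T).erase o) else 0) = z T
        rw [if_pos (Finset.mem_insert_self _ _), Finset.erase_insert ho]
      · intro v _ hv
        show (if o ∈ insert v T then z ((insert v T).erase o) else 0) = 0
        rw [if_neg]
        rw [Finset.mem_insert, not_or]
        exact ⟨fun h => hv h.symm, ho⟩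
      · intro h
        exact absurd (Finset.mem_compl.2 ho) h

end Q9.MonoChain
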