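import Mathlib

/-!
# Units in group algebras of residually finite 2-groups in characteristic two
-/

set_option autoImplicit false

open MonoidAlgebra

namespace Q9.PiUU

/-- The field with two elements. -/
abbrev F2 : Type := ZMod 2

lemma two_eq_zero : (2 : F2) = 0 := rfl

/-- The group algebra over the field with two elements. -/
abbrev FA (G : Type) : Type := MonoidAlgebra F2 G

variable {G Q : Type} [Group G] [Group Q]

/-- The augmentation. -/
noncomputable def aug (G : Type) [Group G] : MonoidAlgebra F2 G →+* F2 :=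
  (MonoidAlgebra.lift F2 F2 G (1 : G →* F2)).toRingHom

lemma aug_single (g : G) (r : F2) : aug G (single g r) = r := by
  simp [aug]

/-- Nilpotency of the augmentation ideal of a finite `2`-group. -/
lemma isNilpotent_of_aug [Finite Q] (hQ : IsPGroup 2 Q) (y : MonoidAlgebra F2 Q)
    (hy : aug Q y = 0) : IsNilpotent y := by
  classical
  have : Fintype Q := Fintype.ofFinite Q
  have hfin : Finite (MonoidAlgebra F2 Q) :=
    Finite.of_injective _ (MonoidAlgebra.coeff_injective (R := F2) (M := Q))
  -- right multiplication by powers of `y`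
  let f : ℕ → (MonoidAlgebra F2 Q →+ MonoidAlgebra F2 Q) := fun k => AddMonoidHom.mulRight (y ^ k)
  obtain ⟨n, hn⟩ : ∃ n, (f (n + 1)).range = (f n).range := by
    by_contra hcon
    push Not at hcon
    have hanti : ∀ n, (f (n + 1)).range < (f n).range := by
      intro n
      refine lt_of_le_of_ne ?_ (hcon n)
      rintro _ ⟨x, rfl⟩
      exact ⟨x * y, by simp [f, pow_succ', mul_assoc]⟩
    have hcard : ∀ n, Nat.card (f n).range + n ≤ Nat.card (MonoidAlgebra F2 Q) := by
      intro n
      induction n with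
      | zero =>
        rw [add_zero]
        exact Nat.card_le_card_of_injective _ Subtype.val_injective
      | succ n ih =>
        have hlt : Nat.card (f (n + 1)).range < Nat.card (f n).range := by
          apply Set.Finite.card_lt_card (Set.toFinite _)
          exact hanti n
        omega
    have h1 := hcard (Nat.card (MonoidAlgebra F2 Q) + 1)
    omega
  refine ⟨n, ?_⟩
  by_contra hne
  set M := (f n).range with hM
  have hyM : ∀ x ∈ M, x * y ∈ M := by
    rintro _ ⟨x, rfl⟩
    exact ⟨x * y, by simp [f, mul_assoc, ← pow_succ, ← pow_succ']⟩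
  have hsurj : ∀ x ∈ M, ∃ z ∈ M, z * y = x := by
    intro x hx
    rw [← hn] at hx
    obtain ⟨w, rfl⟩ := hx
    exact ⟨w * y ^ n, ⟨w, rfl⟩, by simp [f, mul_assoc, ← pow_succ]⟩
  have hinj : ∀ x ∈ M, x * y = 0 → x = 0 := by
    intro x hx hxy
    let φ : M → M := fun z => ⟨z * y, hyM z z.2⟩
    have hφ : Function.Surjective φ := by
      rintro ⟨x, hx⟩
      obtain ⟨z, hz, h⟩ := hsurj x hx
      exact ⟨⟨z, hz⟩, Subtype.ext h⟩
    have hφi : Function.Injective φ := Finite.injective_iff_surjective.2 hφ
    have h1 : φ ⟨x, hx⟩ = φ ⟨0, M.zero_mem⟩ := Subtype.ext (by simp [φ, hxy])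
    exact congrArg Subtype.val (hφi h1)
  -- a fixed vector
  let act : MulAction Q M :=
    { smul := fun g v => ⟨single g (1 : F2) * (v : MonoidAlgebra F2 Q), by
        obtain ⟨w, hw⟩ := v.2
        exact ⟨single g (1 : F2) * w, by rw [← hw]; simp [f, mul_assoc]⟩⟩
      one_smul := fun v => by
        apply Subtype.ext
        change single (1 : Q) (1 : F2) * (v : MonoidAlgebra F2 Q) = v
        rw [← MonoidAlgebra.one_def, one_mul]
      mul_smul := fun g h v => by
        apply Subtype.ext
        change single (g * h) (1 : F2) * (v : MonoidAlgebra F2 Q) =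
          single g (1 : F2) * (single h (1 : F2) * v)
        rw [← mul_assoc, single_mul_single, one_mul] }
  have hsmul : ∀ (g : Q) (v : M), ((g • v : M) : MonoidAlgebra F2 Q) =
      single g (1 : F2) * (v : MonoidAlgebra F2 Q) :=
    fun _ _ => rfl
  have h2M : ∀ v : M, v + v = 0 := by
    intro v
    apply Subtype.ext
    change (v : MonoidAlgebra F2 Q) + v = 0
    have : (v : MonoidAlgebra F2 Q) + v = (2 : F2) • (v : MonoidAlgebra F2 Q) := by
      rw [two_smul]
    rw [this]
    rw [two_eq_zero, zero_smul]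
  have hcard : 2 ∣ Nat.card M := by
    have hnt : ∃ v : M, v ≠ 0 := ⟨⟨y ^ n, ⟨1, by simp [f]⟩⟩, fun h => hne (congrArg Subtype.val h)⟩
    obtain ⟨v, hv⟩ := hnt
    have hord : addOrderOf v = 2 := by
      apply addOrderOf_eq_prime
      · rw [two_nsmul, h2M]
      · exact hv
    have h3 := addOrderOf_dvd_natCard v
    rwa [hord] at h3
  have h0 : (0 : M) ∈ MulAction.fixedPoints Q M := by
    intro g
    apply Subtype.ext
    rw [hsmul]
    simp
  obtain ⟨b, hb, hb0⟩ := hQ.exists_fixed_point_of_prime_dvd_card_of_fixed_point M hcard h0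
  have hbfix : ∀ g : Q, single g (1 : F2) * (b : MonoidAlgebra F2 Q) = (b : MonoidAlgebra F2 Q) := fun g => by
    rw [← hsmul, hb g]
  -- the coefficients of `b` are constant
  have hconst : ∀ g : Q, (b : MonoidAlgebra F2 Q).coeff g = (b : MonoidAlgebra F2 Q).coeff 1 := by
    intro g
    have h1 := congrArg (fun x => MonoidAlgebra.coeff x g) (hbfix g)
    rw [← h1]
    have h2 := MonoidAlgebra.coeff_single_mul_eq_mul_coeff (r := (1 : F2))
      (x := (b : MonoidAlgebra F2 Q)) (m := g) (m₁ := g) (1 : Q) (by
        intro m' _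
        exact ⟨fun h => by simpa using h, fun h => by rw [h, mul_one]⟩)
    rw [h2, one_mul]
  have hby : (b : MonoidAlgebra F2 Q) * y = 0 := by
    have hbeq : (b : MonoidAlgebra F2 Q) =
        ∑ g : Q, single g ((b : MonoidAlgebra F2 Q).coeff 1) := by
      conv_lhs => rw [← MonoidAlgebra.sum_coeff_single (b : MonoidAlgebra F2 Q)]
      rw [Finsupp.sum_fintype _ _ (by simp)]
      exact Finset.sum_congr rfl fun g _ => by rw [hconst g]
    have hsing : ∀ h : Q, ∀ r : F2, (b : MonoidAlgebra F2 Q) * single h r =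
        (r : F2) • (b : MonoidAlgebra F2 Q) := by
      intro h r
      conv_lhs => rw [hbeq]
      conv_rhs => rw [hbeq]
      rw [Finset.sum_mul, Finset.smul_sum]
      simp only [single_mul_single, MonoidAlgebra.smul_single, smul_eq_mul]
      rw [← Equiv.sum_comp (Equiv.mulRight h) (fun g => single g (r * (b : MonoidAlgebra F2 Q).coeff 1))]
      refine Finset.sum_congr rfl fun g _ => ?_
      rw [mul_comm r]
      rfl
    have hgen : ∀ z : MonoidAlgebra F2 Q, (b : MonoidAlgebra F2 Q) * z =
        (aug Q z) • (b : MonoidAlgebra F2 Q) := by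
      intro z
      induction z using MonoidAlgebra.induction_linear with
      | zero => simp
      | add x z hx hz => rw [mul_add, hx, hz, map_add, add_smul]
      | single h r => rw [hsing, aug_single]
    rw [hgen, hy, zero_smul]
  exact hb0 (Subtype.ext (hinj _ b.2 hby).symm)

lemma aug_mapDomain (φ : G →* Q) (x : MonoidAlgebra F2 G) :
    aug Q (MonoidAlgebra.mapDomainRingHom F2 φ x) = aug G x := by
  induction x using MonoidAlgebra.induction_linear with
  | zero => simp
  | add x z hx hz => rw [map_add, map_add, map_add, hx, hz]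
  | single h r => rw [MonoidAlgebra.mapDomainRingHom_apply, MonoidAlgebra.mapDomain_single,
      aug_single, aug_single]

/-- Being residually a finite `2`-group, in the form needed. -/
def Sep (G : Type) [Group G] : Prop :=
  ∀ S : Finset G, ∃ (Q : Type) (_ : Group Q) (φ : G →* Q), Finite Q ∧ IsPGroup 2 Q ∧
    Set.InjOn φ S

lemma eq_zero_of_sep (hG : Sep G) (x : MonoidAlgebra F2 G)
    (h : ∀ (Q : Type) [Group Q] (φ : G →* Q), Finite Q → IsPGroup 2 Q →
      MonoidAlgebra.mapDomainRingHom F2 φ x = 0) : x = 0 := by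
  obtain ⟨Q, _, φ, hfin, hQ, hinj⟩ := hG x.coeff.support
  have h1 := h Q φ hfin hQ
  rw [MonoidAlgebra.mapDomainRingHom_apply] at h1
  apply MonoidAlgebra.coeff_injective
  have h2 : Finsupp.mapDomain φ x.coeff = 0 := by
    have := congrArg MonoidAlgebra.coeff h1
    simpa [MonoidAlgebra.mapDomain] using this
  ext g
  by_cases hg : g ∈ x.coeff.support
  · have h3 : Finsupp.mapDomain φ x.coeff (φ g) = x.coeff g :=
      Finsupp.mapDomain_apply' _ _ (subset_refl _) hinj hg
    rw [← h3, h2]
    rfl
  · rw [Finsupp.notMem_support_iff.1 hg]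
    rfl

/-- If `u ∈ 1 + ω` and `u ^ m - 1` is nilpotent for some `m ≥ 1` then `u - 1` is nilpotent. -/
lemma isNilpotent_sub_one (hG : Sep G) (u : MonoidAlgebra F2 G) (hu : aug G u = 1) (i : ℕ)
    (hi : 1 ≤ i) (h : IsNilpotent (u ^ i - 1)) : IsNilpotent (u - 1) := by
  have hchar : CharP (MonoidAlgebra F2 G) 2 := by
    exact charP_of_injective_algebraMap (algebraMap F2 (MonoidAlgebra F2 G)).injective 2
  obtain ⟨k, m, hm, him⟩ := Nat.exists_eq_pow_mul_and_not_dvd (n := i) (by omega) 2 (by norm_num)
  have h1 : u ^ i - 1 = (u ^ m - 1) ^ 2 ^ k := by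
    rw [sub_pow_char_pow_of_commute 2 k (Commute.one_right _), one_pow, ← pow_mul, him, mul_comm]
  rw [h1] at h
  have h2 : IsNilpotent (u ^ m - 1) := (IsNilpotent.pow_iff_pos (by positivity)).1 h
  -- geometric sum
  set w := ∑ j ∈ Finset.range m, u ^ j with hw
  have h3 : w * (u - 1) = u ^ m - 1 := geom_sum_mul u m
  have hcomm : Commute w (u - 1) := by
    apply Commute.sub_right _ (Commute.one_right _)
    apply Commute.symm
    apply Commute.sum_right
    intro j _
    exact (Commute.refl u).pow_right j
  have hwaug : aug G w = 1 := by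
    rw [hw, map_sum]
    simp only [map_pow, hu, one_pow, Finset.sum_const, Finset.card_range, nsmul_eq_mul, mul_one]
    have hodd : m % 2 = 1 := by omega
    have : ((m : ℕ) : F2) = ((m % 2 : ℕ) : F2) := (ZMod.natCast_mod m 2).symm
    rw [this, hodd]
    rfl
  obtain ⟨N, hN⟩ := h2
  rw [← h3, hcomm.mul_pow] at hN
  refine ⟨N, eq_zero_of_sep hG _ ?_⟩
  intro Q _ φ hfin hQ
  set π := MonoidAlgebra.mapDomainRingHom F2 φ with hπ
  have h4 : π w ^ N * π (u - 1) ^ N = 0 := by
    rw [← map_pow, ← map_pow, ← map_mul, hN, map_zero]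
  have h5 : IsNilpotent (π w - 1) := by
    apply isNilpotent_of_aug hQ
    rw [map_sub, aug_mapDomain, hwaug, map_one, sub_self]
  have h6 : IsUnit (π w) := by
    have := h5.isUnit_one_add
    rwa [add_sub_cancel] at this
  rw [map_pow]
  exact (h6.pow N).mul_right_eq_zero.1 h4

/-- The construction: if `a` is an involution which does not commute with `g⁻¹ a g`, and the
Jacobson radical vanishes, there is a unit no power of which is unipotent. -/
theorem exists_unit (hG : Sep G) (hJ : Ideal.jacobson (⊥ : Ideal (MonoidAlgebra F2 G)) = ⊥)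
    (a g : G) (ha : a * a = 1) (hag : a * (g⁻¹ * a * g) ≠ (g⁻¹ * a * g) * a) :
    ∃ u : (MonoidAlgebra F2 G)ˣ, ∀ i : ℕ, 1 ≤ i →
      ¬ IsNilpotent ((u : MonoidAlgebra F2 G) ^ i - 1) := by
  classical
  have h2 : ∀ x : (FA G), x + x = 0 := by
    intro x
    have : x + x = (2 : F2) • x := by rw [two_smul]
    rw [this]
    rw [two_eq_zero, zero_smul]
  have hneg : ∀ x : (FA G), -x = x := fun x => by
    rw [neg_eq_iff_add_eq_zero]; exact h2 x
  set A : (FA G) := single a 1 with hA
  set α : (FA G) := 1 + A with hα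
  have hAA : A * A = 1 := by
    rw [hA, single_mul_single, ha, one_mul]; rfl
  have hαα : α * α = 0 := by
    have : α * α = (1 + A * A) + (A + A) := by rw [hα]; noncomm_ring
    rw [this, hAA, h2, h2, add_zero]
  set γg : (FA G) := single g 1 with hγg
  set γg' : (FA G) := single g⁻¹ 1 with hγg'
  have hgg : γg' * γg = 1 := by
    rw [hγg, hγg', single_mul_single, inv_mul_cancel, one_mul]; rfl
  have hgg' : γg * γg' = 1 := by
    rw [hγg, hγg', single_mul_single, mul_inv_cancel, one_mul]; rfl
  -- the element `γ`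
  set γ : (FA G) := α * γg' * α * γg * α with hγ
  have hγ0 : γ ≠ 0 := by
    set x : G := g⁻¹ * a * g with hx
    have hxx : γg' * A * γg = (single x 1 : (FA G)) := by
      rw [hγg, hγg', hA, single_mul_single, single_mul_single, one_mul, one_mul]
    set X : (FA G) := single x 1 with hX
    have h1 : γ = X + A * X + X * A + A * X * A := by
      have : γ = (1 + A) * (γg' * γg + γg' * A * γg) * (1 + A) := by
        rw [hγ, hα]; noncomm_ring
      rw [this, hgg, hxx]
      have : (1 + A) * (1 + X) * (1 + A) = (1 + A * A) + (A + A) + (X + A * X + X * A + A * X * A) := by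
        noncomm_ring
      rw [this, hAA, h2, h2, add_zero, zero_add]
    intro h0
    rw [h1] at h0
    have hXc : (X + A * X + X * A + A * X * A).coeff x = 1 := by
      rw [hX, hA, single_mul_single, single_mul_single, single_mul_single]
      simp only [MonoidAlgebra.coeff_add, MonoidAlgebra.coeff_single, Finsupp.add_apply,
        Finsupp.single_eq_same, one_mul]
      rw [Finsupp.single_apply, Finsupp.single_apply, Finsupp.single_apply, if_neg, if_neg, if_neg]
      · simp
      · intro h
        apply hag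
        have h3 : a * (a * x * a) = a * x := by rw [h]
        rw [← mul_assoc, ← mul_assoc, ha, one_mul] at h3
        exact h3.symm
      · intro h
        have h3 : a = 1 := by simpa using h
        apply hag
        rw [h3]; simp
      · intro h
        have h3 : a = 1 := by simpa using h
        apply hag
        rw [h3]; simp
    rw [h0] at hXc
    simp at hXc
  -- non-nilpotent multiple
  obtain ⟨s, hs⟩ : ∃ s : (FA G), ¬ IsNilpotent (s * γ) := by
    by_contra hcon
    push Not at hcon
    apply hγ0
    have : γ ∈ Ideal.jacobson (⊥ : Ideal (FA G)) := by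
      rw [Ideal.mem_jacobson_iff]
      intro y
      obtain ⟨v, hv⟩ := (hcon y).isUnit_one_add
      refine ⟨((v⁻¹ : (FA G)ˣ) : (FA G)), ?_⟩
      have h3 : ((v⁻¹ : (FA G)ˣ) : (FA G)) * (1 + y * γ) = 1 := by rw [← hv]; exact Units.inv_mul v
      have h4 : ((v⁻¹ : (FA G)ˣ) : (FA G)) * y * γ + ((v⁻¹ : (FA G)ˣ) : (FA G)) - 1 = 0 := by
        rw [mul_add, mul_one, ← mul_assoc] at h3
        rw [add_comm, h3, sub_self]
      rw [h4]
      exact Ideal.zero_mem _
    rw [hJ] at this
    exact this
  set β : (FA G) := γg * α * s * α * γg' with hβ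
  have hββ : β * β = 0 := by
    have : β * β = γg * α * s * α * (γg' * γg) * α * s * α * γg' := by rw [hβ]; noncomm_ring
    rw [this, hgg, mul_one]
    have : γg * α * s * α * α * s * α * γg' = γg * α * s * (α * α) * s * α * γg' := by
      noncomm_ring
    rw [this, hαα]
    simp
  have hβα : ¬ IsNilpotent (β * α) := by
    rintro ⟨n, hn⟩
    apply hs
    -- `s γ = s α g⁻¹ α g α`
    have hpow : ∀ n : ℕ, (s * γ) ^ (n + 1) =
        s * α * γg' * α * γg * (γg' * (β * α) ^ n * γg) * α := by
      intro n
      induction n with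
      | zero =>
        rw [zero_add, pow_one, pow_zero, mul_one, hgg, mul_one, hγ]
        noncomm_ring
      | succ n ih =>
        rw [pow_succ, ih, pow_succ]
        have e1 : s * α * γg' * α * γg * (γg' * ((β * α) ^ n * (β * α)) * γg) * α =
            s * α * γg' * α * γg * γg' * (β * α) ^ n * (β * α * γg * α) := by noncomm_ring
        have e2 : s * α * γg' * α * γg * (γg' * (β * α) ^ n * γg) * α * (s * γ) =
            s * α * γg' * α * γg * γg' * (β * α) ^ n * (γg * α * s * α * γg' * α * γg * α) := by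
          rw [hγ]; noncomm_ring
        rw [e1, e2, hβ]
    refine ⟨n + 1, ?_⟩
    rw [hpow, hn]
    simp
  -- the unit
  have hu1 : (1 + α) * (1 + α) = 1 := by
    have : (1 + α) * (1 + α) = 1 + (α + α) + α * α := by noncomm_ring
    rw [this, h2, hαα, add_zero, add_zero]
  have hu2 : (1 + β) * (1 + β) = 1 := by
    have : (1 + β) * (1 + β) = 1 + (β + β) + β * β := by noncomm_ring
    rw [this, h2, hββ, add_zero, add_zero]
  let ua : (FA G)ˣ := ⟨1 + α, 1 + α, hu1, hu1⟩
  let ub : (FA G)ˣ := ⟨1 + β, 1 + β, hu2, hu2⟩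
  refine ⟨ua * ub, ?_⟩
  intro i hi hnil
  have hval : ((ua * ub : (FA G)ˣ) : (FA G)) = (1 + α) * (1 + β) := rfl
  have hvali : (((ua * ub)⁻¹ : (FA G)ˣ) : (FA G)) = (1 + β) * (1 + α) := by
    rw [mul_inv_rev]; rfl
  set u : (FA G)ˣ := ua * ub with hu
  have hαaug : aug G α = 0 := by
    rw [hα, map_add, map_one, hA, aug_single]; decide
  have hβaug : aug G β = 0 := by
    rw [hβ, map_mul, map_mul, hαaug, mul_zero, zero_mul]
  have huaug : aug G (u : (FA G)) = 1 := by
    rw [hval, map_mul, map_add (aug G) 1 α, map_add (aug G) 1 β, map_one, hαaug, hβaug]; simp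
  have h3 : IsNilpotent ((u : (FA G)) - 1) := isNilpotent_sub_one hG _ huaug i hi hnil
  -- `δ = u + u⁻¹`
  set δ : (FA G) := α * β + β * α with hδ
  have h4 : (u : (FA G)) + ((u⁻¹ : (FA G)ˣ) : (FA G)) = δ := by
    rw [hval, hvali, hδ]
    have : (1 + α) * (1 + β) + (1 + β) * (1 + α) =
        (1 + 1) + (α + α) + (β + β) + (α * β + β * α) := by noncomm_ring
    rw [this, h2 1, h2 α, h2 β]; simp
  have h5 : ((u : (FA G)) - 1) * ((u : (FA G)) - 1) = (u : (FA G)) * δ := by
    rw [← h4, mul_add, Units.mul_inv]
    have : ((u : (FA G)) - 1) * ((u : (FA G)) - 1) = (u : (FA G)) * u + 1 + (-(u : (FA G)) + -(u : (FA G))) := by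
      noncomm_ring
    rw [this, h2, add_zero]
  have hcu : Commute (u : (FA G)) δ := by
    rw [← h4]
    apply Commute.add_right (Commute.refl _)
    rw [Commute, SemiconjBy, Units.mul_inv, Units.inv_mul]
  have h6 : IsNilpotent ((u : (FA G)) * δ) := by
    rw [← h5, ← pow_two]
    exact h3.pow_of_pos (by norm_num)
  obtain ⟨n, hn⟩ := h6
  rw [hcu.mul_pow] at hn
  have h7 : δ ^ n = 0 := by
    have : IsUnit ((u : (FA G)) ^ n) := u.isUnit.pow n
    exact this.mul_right_eq_zero.1 hn
  -- powers of `δ`
  have h8 : ∀ n : ℕ, α * δ ^ n = α * (β * α) ^ n := by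
    intro n
    induction n with
    | zero => simp
    | succ n ih =>
      have e1 : ∀ n : ℕ, α * (β * α) ^ n * (α * β) = 0 := by
        intro n
        cases n with
        | zero =>
          have : α * (β * α) ^ 0 * (α * β) = α * α * β := by rw [pow_zero]; noncomm_ring
          rw [this, hαα, zero_mul]
        | succ n =>
          have : α * (β * α) ^ (n + 1) * (α * β) = α * (β * α) ^ n * β * (α * α) * β := by
            rw [pow_succ]; noncomm_ring
          rw [this, hαα]; simp
      rw [pow_succ, ← mul_assoc, ih, hδ, mul_add, e1, zero_add, pow_succ, mul_assoc]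
  apply hβα
  refine ⟨n + 1, ?_⟩
  have h9 : α * (β * α) ^ n = 0 := by rw [← h8, h7, mul_zero]
  rw [pow_succ', mul_assoc, h9, mul_zero]

end Q9.PiUU
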