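import Mathlib

/-! The unit group of the quaternions over `ℤ/256`. -/

open Quaternion

namespace Q9.Quat

/-- The quaternions over `ℤ/256`. -/
abbrev H : Type := Quaternion (ZMod 256)

instance : Finite H := Finite.of_equiv _ (Quaternion.equivProd (ZMod 256)).symm

/-- the quaternion with given components -/
def mk4 (a b c d : ZMod 256) : H := ⟨a, b, c, d⟩

@[simp] theorem mk4_re (a b c d : ZMod 256) : (mk4 a b c d).re = a := rfl
@[simp] theorem mk4_imI (a b c d : ZMod 256) : (mk4 a b c d).imI = b := rfl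
@[simp] theorem mk4_imJ (a b c d : ZMod 256) : (mk4 a b c d).imJ = c := rfl
@[simp] theorem mk4_imK (a b c d : ZMod 256) : (mk4 a b c d).imK = d := rfl

/-- reduction modulo two -/
def c : ZMod 256 →+* ZMod 2 := ZMod.castHom (by decide) (ZMod 2)

theorem sq_two (x : ZMod 2) : x ^ 2 = x := by revert x; decide

theorem isUnit_iff_c (a : ZMod 256) : IsUnit a ↔ c a = 1 := by
  constructor
  · intro h
    have h1 := h.map c
    have h2 : ∀ x : ZMod 2, IsUnit x → x = 1 := by decide
    exact h2 _ h1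
  · intro h
    have h1 : ((a.val : ℕ) : ZMod 256) = a := ZMod.natCast_zmod_val a
    rw [← h1, ZMod.isUnit_iff_coprime]
    rw [← h1, map_natCast] at h
    have h2 : a.val % 2 = 1 := by
      have h3 := congrArg ZMod.val h
      rw [ZMod.val_natCast] at h3
      exact h3
    have h4 : Nat.Coprime a.val 2 := Nat.coprime_two_right.2 (Nat.odd_iff.2 h2)
    exact (h4.pow_right 8 : Nat.Coprime a.val (2 ^ 8))

theorem c_cases (a : ZMod 256) : c a = 0 ∨ c a = 1 := by
  have : ∀ x : ZMod 2, x = 0 ∨ x = 1 := by decide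
  exact this _

theorem c_zero (a : ZMod 256) (h : c a = 0) : ∃ b, a = 2 * b := by
  have h1 : ((a.val : ℕ) : ZMod 256) = a := ZMod.natCast_zmod_val a
  rw [← h1, map_natCast] at h
  have h2 : a.val % 2 = 0 := by
    have h3 := congrArg ZMod.val h
    rw [ZMod.val_natCast] at h3
    exact h3
  refine ⟨((a.val / 2 : ℕ) : ZMod 256), ?_⟩
  conv_lhs => rw [← h1, ← Nat.div_add_mod a.val 2, h2, add_zero]
  push_cast
  rfl

/-- parity -/
def par (q : H) : ZMod 2 := c q.re + c q.imI + c q.imJ + c q.imK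

theorem isUnit_iff_par (q : H) : IsUnit q ↔ par q = 1 := by
  have h1 : c (normSq q) = par q := by
    rw [normSq_def', map_add, map_add, map_add, map_pow, map_pow, map_pow, map_pow, sq_two, sq_two,
      sq_two, sq_two]
    rfl
  rw [← h1, ← isUnit_iff_c]
  constructor
  · exact fun h => h.map normSq
  · rintro ⟨u, hu⟩
    have h2 : q * (star q * ((u⁻¹ : (ZMod 256)ˣ) : ZMod 256)) = 1 := by
      rw [← mul_assoc, self_mul_star, ← hu, ← coe_mul, Units.mul_inv, coe_one]
    have h3 : (((u⁻¹ : (ZMod 256)ˣ) : ZMod 256) * star q) * q = 1 := by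
      rw [mul_assoc, star_mul_self, ← hu, ← coe_mul, Units.inv_mul, coe_one]
    exact ⟨⟨q, _, h2, by
      have := left_inv_eq_right_inv h3 h2
      rw [← this]; exact h3⟩, rfl⟩

theorem par_add_one (q : H) : par (q + 1) = par q + 1 := by
  simp only [par, Quaternion.re_add, Quaternion.imI_add, Quaternion.imJ_add, Quaternion.imK_add,
    Quaternion.re_one, Quaternion.imI_one, Quaternion.imJ_one, Quaternion.imK_one, map_add,
    map_one, add_zero]
  ring

theorem card_H : Nat.card H = 2 ^ 32 := by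
  rw [Nat.card_congr (Quaternion.equivProd (ZMod 256))]
  simp only [Nat.card_prod, Nat.card_zmod]
  norm_num

theorem card_units : Nat.card Hˣ = 2 ^ 31 := by
  have e1 : Hˣ ≃ {q : H // par q = 1} :=
    (Equiv.ofBijective (fun u : Hˣ => (⟨(u : H), (isUnit_iff_par _).1 u.isUnit⟩ : {q : H // par q = 1}))
      ⟨fun u v h => Units.ext (congrArg Subtype.val h), fun q =>
        ⟨((isUnit_iff_par q.1).2 q.2).unit, Subtype.ext rfl⟩⟩)
  have e2 : {q : H // par q = 1} ≃ {q : H // ¬ par q = 1} :=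
    { toFun := fun q => ⟨q.1 + 1, by rw [par_add_one, q.2]; decide⟩
      invFun := fun q => ⟨q.1 - 1, by
        have h1 := par_add_one (q.1 - 1)
        rw [sub_add_cancel] at h1
        have h2 := q.2
        rw [h1] at h2
        have : ∀ x : ZMod 2, ¬ (x + 1 = 1) → x = 1 := by decide
        exact this _ h2⟩
      left_inv := fun q => Subtype.ext (add_sub_cancel_right _ _)
      right_inv := fun q => Subtype.ext (sub_add_cancel _ _) }
  have e3 := Equiv.sumCompl (fun q : H => par q = 1)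
  have h1 := Nat.card_congr e3
  rw [Nat.card_sum, ← Nat.card_congr e2, ← Nat.card_congr e1, card_H] at h1
  omega

/-! ### Centralizers -/

/-- imaginary part even -/
def Ev (q : H) : Prop := c q.imI = 0 ∧ c q.imJ = 0 ∧ c q.imK = 0

theorem Ev_mul {q r : H} (hq : Ev q) (hr : Ev r) : Ev (q * r) := by
  obtain ⟨h1, h2, h3⟩ := hq
  obtain ⟨h4, h5, h6⟩ := hr
  refine ⟨?_, ?_, ?_⟩
  · rw [Quaternion.imI_mul]; simp [h1, h2, h3, h4, h5, h6]
  · rw [Quaternion.imJ_mul]; simp [h1, h2, h3, h4, h5, h6]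
  · rw [Quaternion.imK_mul]; simp [h1, h2, h3, h4, h5, h6]

theorem comm_comp {q w : H} (h : q * w = w * q) :
    2 * (q.imJ * w.imK) = 2 * (q.imK * w.imJ) ∧ 2 * (q.imK * w.imI) = 2 * (q.imI * w.imK) ∧
      2 * (q.imI * w.imJ) = 2 * (q.imJ * w.imI) := by
  have hI := congrArg QuaternionAlgebra.imI h
  have hJ := congrArg QuaternionAlgebra.imJ h
  have hK := congrArg QuaternionAlgebra.imK h
  rw [Quaternion.imI_mul, Quaternion.imI_mul] at hI
  rw [Quaternion.imJ_mul, Quaternion.imJ_mul] at hJ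
  rw [Quaternion.imK_mul, Quaternion.imK_mul] at hK
  refine ⟨?_, ?_, ?_⟩
  · linear_combination hI
  · linear_combination hJ
  · linear_combination hK

theorem comm_of_comp {q w : H}
    (h1 : 2 * (q.imJ * w.imK) = 2 * (q.imK * w.imJ))
    (h2 : 2 * (q.imK * w.imI) = 2 * (q.imI * w.imK))
    (h3 : 2 * (q.imI * w.imJ) = 2 * (q.imJ * w.imI)) : q * w = w * q := by
  apply Quaternion.ext
  · rw [Quaternion.re_mul, Quaternion.re_mul]; ring
  · rw [Quaternion.imI_mul, Quaternion.imI_mul]; linear_combination h1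
  · rw [Quaternion.imJ_mul, Quaternion.imJ_mul]; linear_combination h2
  · rw [Quaternion.imK_mul, Quaternion.imK_mul]; linear_combination h3

/-- centralizers of elements with non-even imaginary part are commutative -/
theorem centralizer_comm {q w v : H} (hq : ¬ Ev q) (hw : q * w = w * q) (hv : q * v = v * q) :
    w * v = v * w := by
  obtain ⟨a1, a2, a3⟩ := comm_comp hw
  obtain ⟨b1, b2, b3⟩ := comm_comp hv
  have hu : IsUnit q.imI ∨ IsUnit q.imJ ∨ IsUnit q.imK := by
    rw [isUnit_iff_c, isUnit_iff_c, isUnit_iff_c]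
    by_contra hcon
    push Not at hcon
    apply hq
    refine ⟨?_, ?_, ?_⟩
    · exact (c_cases _).resolve_right hcon.1
    · exact (c_cases _).resolve_right hcon.2.1
    · exact (c_cases _).resolve_right hcon.2.2
  rcases hu with hu | hu | hu
  · apply comm_of_comp
    · refine (hu.mul hu).mul_left_cancel ?_
      linear_combination (q.imI * v.imK) * a3 - (q.imJ * w.imI) * b2 + (q.imI * v.imJ) * a2 -
        (q.imK * w.imI) * b3
    · refine hu.mul_left_cancel ?_
      linear_combination (w.imI) * b2 - (v.imI) * a2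
    · refine hu.mul_left_cancel ?_
      linear_combination (w.imI) * b3 - (v.imI) * a3
  · apply comm_of_comp
    · refine hu.mul_left_cancel ?_
      linear_combination (w.imJ) * b1 - (v.imJ) * a1
    · refine (hu.mul hu).mul_left_cancel ?_
      linear_combination (q.imJ * v.imI) * a1 - (q.imK * w.imJ) * b3 - (q.imI * w.imJ) * b1 +
        (q.imJ * v.imK) * a3
    · refine hu.mul_left_cancel ?_
      linear_combination (w.imJ) * b3 - (v.imJ) * a3
  · apply comm_of_comp
    · refine hu.mul_left_cancel ?_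
      linear_combination (w.imK) * b1 - (v.imK) * a1
    · refine hu.mul_left_cancel ?_
      linear_combination (w.imK) * b2 - (v.imK) * a2
    · refine (hu.mul hu).mul_left_cancel ?_
      linear_combination (q.imK * v.imJ) * a2 - (q.imI * w.imK) * b1 - (q.imJ * w.imK) * b2 +
        (q.imK * v.imI) * a1

/-! ### The center -/

theorem center_form {q : H} (hI : q * mk4 0 1 0 0 = mk4 0 1 0 0 * q)
    (hJ : q * mk4 0 0 1 0 = mk4 0 0 1 0 * q) :
    2 * q.imI = 0 ∧ 2 * q.imJ = 0 ∧ 2 * q.imK = 0 := by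
  obtain ⟨a1, a2, a3⟩ := comm_comp hI
  obtain ⟨b1, b2, b3⟩ := comm_comp hJ
  simp only [mk4_imI, mk4_imJ, mk4_imK, mul_zero, mul_one] at a1 a2 a3 b1 b2 b3
  exact ⟨b3, a3.symm, a2⟩

theorem half (x : ZMod 256) (h : 2 * x = 0) : ∃ y, x = 128 * y := by
  have h1 : ((x.val : ℕ) : ZMod 256) = x := ZMod.natCast_zmod_val x
  rw [← h1] at h ⊢
  have h2 : ((2 * x.val : ℕ) : ZMod 256) = 0 := by push_cast; exact h
  rw [ZMod.natCast_eq_zero_iff] at h2
  obtain ⟨k, hk⟩ := h2
  refine ⟨(k : ℕ), ?_⟩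
  have h3 : x.val = 128 * k := by omega
  rw [h3]
  push_cast
  rfl

theorem key : ∀ a < 256, a % 2 = 1 → ∃ x < 128, (x * x) % 256 = a ∨ (x * x + 4) % 256 = a ∨
      (x * x + a) % 256 = 0 ∨ (x * x + 4 + a) % 256 = 0 := by decide +kernel

theorem odd_repr (a : ZMod 256) (ha : IsUnit a) : ∃ x y : ZMod 256,
    a = x * x + y * y ∨ a = -(x * x + y * y) := by
  have h1 : ((a.val : ℕ) : ZMod 256) = a := ZMod.natCast_zmod_val a
  have h2 : a.val % 2 = 1 := by
    rw [isUnit_iff_c, ← h1, map_natCast] at ha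
    have h3 := congrArg ZMod.val ha
    rw [ZMod.val_natCast] at h3
    exact h3
  have h0 : ((256 : ℕ) : ZMod 256) = 0 := ZMod.natCast_self 256
  have hmod : ∀ m : ℕ, ((m % 256 : ℕ) : ZMod 256) = m := fun m => by
    conv_rhs => rw [← Nat.div_add_mod m 256, Nat.cast_add, Nat.cast_mul, h0, zero_mul, zero_add]
  obtain ⟨x, -, h | h | h | h⟩ := key a.val (ZMod.val_lt a) h2
  · refine ⟨x, 0, Or.inl ?_⟩
    rw [← h1, ← h, hmod]
    push_cast
    ring
  · refine ⟨x, 2, Or.inl ?_⟩
    rw [← h1, ← h, hmod]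
    push_cast
    ring
  · refine ⟨x, 0, Or.inr ?_⟩
    have h3 := hmod (x * x + a.val)
    rw [h, Nat.cast_add, h1] at h3
    push_cast at h3
    linear_combination -h3
  · refine ⟨x, 2, Or.inr ?_⟩
    have h3 := hmod (x * x + 4 + a.val)
    rw [h, Nat.cast_add, h1] at h3
    push_cast at h3
    linear_combination -h3

/-- the subgroup generated by the squares -/
def Sq : Subgroup Hˣ := Subgroup.closure {g | ∃ h, g = h * h}

theorem sq_mem (h : Hˣ) : h * h ∈ Sq := Subgroup.subset_closure ⟨h, rfl⟩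

/-- the unit `i` -/
def iU : Hˣ := ⟨mk4 0 1 0 0, mk4 0 (-1) 0 0,
  by apply Quaternion.ext <;> simp [re_mul, imI_mul, imJ_mul, imK_mul],
  by apply Quaternion.ext <;> simp [re_mul, imI_mul, imJ_mul, imK_mul]⟩

/-- the unit `j` -/
def jU : Hˣ := ⟨mk4 0 0 1 0, mk4 0 0 (-1) 0,
  by apply Quaternion.ext <;> simp [re_mul, imI_mul, imJ_mul, imK_mul],
  by apply Quaternion.ext <;> simp [re_mul, imI_mul, imJ_mul, imK_mul]⟩

theorem neg_one_mem : (-1 : Hˣ) ∈ Sq := by
  have : (-1 : Hˣ) = iU * iU := by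
    apply Units.ext
    apply Quaternion.ext <;> simp [iU, re_mul, imI_mul, imJ_mul, imK_mul]
  rw [this]
  exact sq_mem _

theorem neg_mem {g : Hˣ} (hg : g ∈ Sq) : -g ∈ Sq := by
  rw [← neg_one_mul]
  exact Sq.mul_mem neg_one_mem hg

theorem scalar_mem (u : Hˣ) (a : ZMod 256) (hu : (u : H) = (a : H)) (ha : IsUnit a) : u ∈ Sq := by
  -- `a = ± (x² + y²)` and `-(x² + y²) = ((x + y i) j)²`
  have h1 : ∀ (v : Hˣ) (x y : ZMod 256), (v : H) = ((-(x * x + y * y) : ZMod 256) : H) → v ∈ Sq := by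
    intro v x y hv
    have h2 : mk4 0 0 x y * mk4 0 0 x y = (v : H) := by
      rw [hv]
      apply Quaternion.ext
      · rw [re_mul]; simp; ring
      · rw [imI_mul]; simp; ring
      · rw [imJ_mul]; simp
      · rw [imK_mul]; simp
    have h3 : IsUnit (mk4 0 0 x y) := by
      rw [isUnit_iff_par]
      have h4 := (isUnit_iff_par (v : H)).1 v.isUnit
      rw [hv] at h4
      simp only [par, re_coe, imI_coe, imJ_coe, imK_coe, map_zero, add_zero, map_neg, map_add,
        map_mul] at h4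
      simp only [par, mk4_re, mk4_imI, mk4_imJ, mk4_imK, map_zero, zero_add]
      have : ∀ x y : ZMod 2, -(x * x + y * y) = 1 → x + y = 1 := by decide
      exact this _ _ h4
    obtain ⟨w, hw⟩ := h3
    have h5 : v = w * w := by
      apply Units.ext
      rw [Units.val_mul, hw, h2]
    rw [h5]
    exact sq_mem w
  obtain ⟨x, y, h | h⟩ := odd_repr a ha
  · have h2 : -u ∈ Sq := h1 (-u) x y (by rw [Units.val_neg, hu, h]; simp)
    have h3 := neg_mem h2
    rwa [neg_neg] at h3
  · exact h1 u x y (by rw [hu, h])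

/-- the center is contained in the subgroup generated by the squares -/
theorem center_le (g : Hˣ) (hg : ∀ h : Hˣ, g * h = h * g) : g ∈ Sq := by
  have hI : (g : H) * mk4 0 1 0 0 = mk4 0 1 0 0 * g := congrArg Units.val (hg iU)
  have hJ : (g : H) * mk4 0 0 1 0 = mk4 0 0 1 0 * g := congrArg Units.val (hg jU)
  obtain ⟨h1, h2, h3⟩ := center_form hI hJ
  obtain ⟨b, hb⟩ := half _ h1
  obtain ⟨c', hc'⟩ := half _ h2
  obtain ⟨d, hd⟩ := half _ h3
  have h128 : c 128 = 0 := by decide
  have ha : IsUnit (g : H).re := by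
    have h4 := (isUnit_iff_par (g : H)).1 g.isUnit
    rw [par, hb, hc', hd, map_mul, map_mul, map_mul, h128, zero_mul, zero_mul, zero_mul, add_zero,
      add_zero, add_zero] at h4
    exact (isUnit_iff_c _).2 h4
  obtain ⟨a, ha'⟩ := ha
  -- the scalar unit
  let s : Hˣ := ⟨((a : ZMod 256) : H), (((a⁻¹ : (ZMod 256)ˣ) : ZMod 256) : H),
    by rw [← coe_mul, Units.mul_inv, coe_one], by rw [← coe_mul, Units.inv_mul, coe_one]⟩
  set a' : ZMod 256 := ((a⁻¹ : (ZMod 256)ˣ) : ZMod 256) with ha'def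
  have haa : (g : H).re * a' = 1 := by rw [← ha']; exact Units.mul_inv a
  have h64 : (64 : ZMod 256) * 64 = 0 := by decide
  have h64' : (64 : ZMod 256) * 2 = 128 := by decide
  have hw : IsUnit (mk4 1 (64 * (a' * b)) (64 * (a' * c')) (64 * (a' * d))) := by
    rw [isUnit_iff_par]
    have h64c : c 64 = 0 := by decide
    simp only [par, mk4_re, mk4_imI, mk4_imJ, mk4_imK, map_one, map_mul, h64c, zero_mul, add_zero]
  obtain ⟨w, hw⟩ := hw
  have hg' : g = s * (w * w) := by
    apply Units.ext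
    rw [Units.val_mul, Units.val_mul, hw]
    change (g : H) = ((a : ZMod 256) : H) * _
    rw [ha']
    apply Quaternion.ext
    · rw [re_mul, re_mul]
      simp only [re_coe, imI_coe, imJ_coe, imK_coe, zero_mul, sub_zero, mk4_re, mk4_imI, mk4_imJ,
        mk4_imK]
      linear_combination ((g : H).re) * ((a' * b) * (a' * b) + (a' * c') * (a' * c') +
        (a' * d) * (a' * d)) * h64
    · rw [imI_mul, imI_mul]
      simp only [re_coe, imI_coe, imJ_coe, imK_coe, zero_mul, sub_zero, mk4_re, mk4_imI, mk4_imJ,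
        mk4_imK, add_zero]
      rw [hb]
      linear_combination (-128 * b) * haa - b * ((g : H).re) * a' * h64'
    · rw [imJ_mul, imJ_mul]
      simp only [re_coe, imI_coe, imJ_coe, imK_coe, zero_mul, sub_zero, mk4_re, mk4_imI, mk4_imJ,
        mk4_imK, add_zero]
      rw [hc']
      linear_combination (-128 * c') * haa - c' * ((g : H).re) * a' * h64'
    · rw [imK_mul, imK_mul]
      simp only [re_coe, imI_coe, imJ_coe, imK_coe, zero_mul, sub_zero, mk4_re, mk4_imI, mk4_imJ,
        mk4_imK, add_zero]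
      rw [hd]
      linear_combination (-128 * d) * haa - d * ((g : H).re) * a' * h64'
  rw [hg']
  exact Sq.mul_mem (scalar_mem s a rfl a.isUnit) (sq_mem w)

end Q9.Quat
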