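import Pool.Agent.Q9.Trunc

/-!
# A seven-dimensional noncommutative centrally essential algebra

`T B` is the free module over the commutative ring `B` with basis `1, x, y, x², y², c, t`, where
`x y = c`, `y x = 0`, `x³ = y³ = t` and all other products of basis elements different from `1`
vanish.
-/

set_option autoImplicit false

namespace Q9.Seven

/-- The ring `T B`: an element is `a0 + a1 x + a2 y + a3 x² + a4 y² + a5 c + a6 t`. -/
@[ext] structure T (B : Type) where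
  /-- coordinate at `1` -/
  a0 : B
  /-- coordinate at `x` -/
  a1 : B
  /-- coordinate at `y` -/
  a2 : B
  /-- coordinate at `x²` -/
  a3 : B
  /-- coordinate at `y²` -/
  a4 : B
  /-- coordinate at `c` -/
  a5 : B
  /-- coordinate at `t` -/
  a6 : B

namespace T

variable {B C : Type} [CommRing B] [CommRing C]

instance : Zero (T B) := ⟨⟨0, 0, 0, 0, 0, 0, 0⟩⟩
instance : One (T B) := ⟨⟨1, 0, 0, 0, 0, 0, 0⟩⟩
instance : Add (T B) := ⟨fun u v => ⟨u.a0 + v.a0, u.a1 + v.a1, u.a2 + v.a2, u.a3 + v.a3, u.a4 + v.a4, u.a5 + v.a5, u.a6 + v.a6⟩⟩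
instance : Sub (T B) := ⟨fun u v => ⟨u.a0 - v.a0, u.a1 - v.a1, u.a2 - v.a2, u.a3 - v.a3, u.a4 - v.a4, u.a5 - v.a5, u.a6 - v.a6⟩⟩
instance : Neg (T B) := ⟨fun u => ⟨-u.a0, -u.a1, -u.a2, -u.a3, -u.a4, -u.a5, -u.a6⟩⟩
instance : Mul (T B) := ⟨fun u v => ⟨u.a0 * v.a0,
    u.a0 * v.a1 + u.a1 * v.a0,
    u.a0 * v.a2 + u.a2 * v.a0,
    u.a0 * v.a3 + u.a3 * v.a0 + u.a1 * v.a1,
    u.a0 * v.a4 + u.a4 * v.a0 + u.a2 * v.a2,
    u.a0 * v.a5 + u.a5 * v.a0 + u.a1 * v.a2,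
    u.a0 * v.a6 + u.a6 * v.a0 + u.a1 * v.a3 + u.a3 * v.a1 + u.a2 * v.a4 + u.a4 * v.a2⟩⟩
instance : SMul B (T B) := ⟨fun b u => ⟨b * u.a0, b * u.a1, b * u.a2, b * u.a3, b * u.a4, b * u.a5, b * u.a6⟩⟩

@[simp] lemma zero_a0 : (0 : T B).a0 = 0 := rfl
@[simp] lemma zero_a1 : (0 : T B).a1 = 0 := rfl
@[simp] lemma zero_a2 : (0 : T B).a2 = 0 := rfl
@[simp] lemma zero_a3 : (0 : T B).a3 = 0 := rfl
@[simp] lemma zero_a4 : (0 : T B).a4 = 0 := rfl
@[simp] lemma zero_a5 : (0 : T B).a5 = 0 := rfl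
@[simp] lemma zero_a6 : (0 : T B).a6 = 0 := rfl
@[simp] lemma one_a0 : (1 : T B).a0 = 1 := rfl
@[simp] lemma one_a1 : (1 : T B).a1 = 0 := rfl
@[simp] lemma one_a2 : (1 : T B).a2 = 0 := rfl
@[simp] lemma one_a3 : (1 : T B).a3 = 0 := rfl
@[simp] lemma one_a4 : (1 : T B).a4 = 0 := rfl
@[simp] lemma one_a5 : (1 : T B).a5 = 0 := rfl
@[simp] lemma one_a6 : (1 : T B).a6 = 0 := rfl
@[simp] lemma add_a0 (u v : T B) : (u + v).a0 = u.a0 + v.a0 := rfl
@[simp] lemma add_a1 (u v : T B) : (u + v).a1 = u.a1 + v.a1 := rfl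
@[simp] lemma add_a2 (u v : T B) : (u + v).a2 = u.a2 + v.a2 := rfl
@[simp] lemma add_a3 (u v : T B) : (u + v).a3 = u.a3 + v.a3 := rfl
@[simp] lemma add_a4 (u v : T B) : (u + v).a4 = u.a4 + v.a4 := rfl
@[simp] lemma add_a5 (u v : T B) : (u + v).a5 = u.a5 + v.a5 := rfl
@[simp] lemma add_a6 (u v : T B) : (u + v).a6 = u.a6 + v.a6 := rfl
@[simp] lemma sub_a0 (u v : T B) : (u - v).a0 = u.a0 - v.a0 := rfl
@[simp] lemma sub_a1 (u v : T B) : (u - v).a1 = u.a1 - v.a1 := rfl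
@[simp] lemma sub_a2 (u v : T B) : (u - v).a2 = u.a2 - v.a2 := rfl
@[simp] lemma sub_a3 (u v : T B) : (u - v).a3 = u.a3 - v.a3 := rfl
@[simp] lemma sub_a4 (u v : T B) : (u - v).a4 = u.a4 - v.a4 := rfl
@[simp] lemma sub_a5 (u v : T B) : (u - v).a5 = u.a5 - v.a5 := rfl
@[simp] lemma sub_a6 (u v : T B) : (u - v).a6 = u.a6 - v.a6 := rfl
@[simp] lemma neg_a0 (u : T B) : (-u).a0 = -u.a0 := rfl
@[simp] lemma neg_a1 (u : T B) : (-u).a1 = -u.a1 := rfl
@[simp] lemma neg_a2 (u : T B) : (-u).a2 = -u.a2 := rfl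
@[simp] lemma neg_a3 (u : T B) : (-u).a3 = -u.a3 := rfl
@[simp] lemma neg_a4 (u : T B) : (-u).a4 = -u.a4 := rfl
@[simp] lemma neg_a5 (u : T B) : (-u).a5 = -u.a5 := rfl
@[simp] lemma neg_a6 (u : T B) : (-u).a6 = -u.a6 := rfl
@[simp] lemma mul_a0 (u v : T B) : (u * v).a0 =
    u.a0 * v.a0 := rfl
@[simp] lemma mul_a1 (u v : T B) : (u * v).a1 =
    u.a0 * v.a1 + u.a1 * v.a0 := rfl
@[simp] lemma mul_a2 (u v : T B) : (u * v).a2 =
    u.a0 * v.a2 + u.a2 * v.a0 := rfl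
@[simp] lemma mul_a3 (u v : T B) : (u * v).a3 =
    u.a0 * v.a3 + u.a3 * v.a0 + u.a1 * v.a1 := rfl
@[simp] lemma mul_a4 (u v : T B) : (u * v).a4 =
    u.a0 * v.a4 + u.a4 * v.a0 + u.a2 * v.a2 := rfl
@[simp] lemma mul_a5 (u v : T B) : (u * v).a5 =
    u.a0 * v.a5 + u.a5 * v.a0 + u.a1 * v.a2 := rfl
@[simp] lemma mul_a6 (u v : T B) : (u * v).a6 =
    u.a0 * v.a6 + u.a6 * v.a0 + u.a1 * v.a3 + u.a3 * v.a1 + u.a2 * v.a4 + u.a4 * v.a2 := rfl
@[simp] lemma smul_a0 (b : B) (u : T B) : (b • u).a0 = b * u.a0 := rfl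
@[simp] lemma smul_a1 (b : B) (u : T B) : (b • u).a1 = b * u.a1 := rfl
@[simp] lemma smul_a2 (b : B) (u : T B) : (b • u).a2 = b * u.a2 := rfl
@[simp] lemma smul_a3 (b : B) (u : T B) : (b • u).a3 = b * u.a3 := rfl
@[simp] lemma smul_a4 (b : B) (u : T B) : (b • u).a4 = b * u.a4 := rfl
@[simp] lemma smul_a5 (b : B) (u : T B) : (b • u).a5 = b * u.a5 := rfl
@[simp] lemma smul_a6 (b : B) (u : T B) : (b • u).a6 = b * u.a6 := rfl

instance : Ring (T B) where
  add_assoc u v w := by ext <;> simp [add_assoc]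
  zero_add u := by ext <;> simp
  add_zero u := by ext <;> simp
  add_comm u v := by ext <;> simp [add_comm]
  neg_add_cancel u := by ext <;> simp
  sub_eq_add_neg u v := by ext <;> simp [sub_eq_add_neg]
  mul_assoc u v w := by ext <;> simp <;> ring
  one_mul u := by ext <;> simp
  mul_one u := by ext <;> simp
  zero_mul u := by ext <;> simp
  mul_zero u := by ext <;> simp
  left_distrib u v w := by ext <;> simp <;> ring
  right_distrib u v w := by ext <;> simp <;> ring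
  nsmul := nsmulRec
  zsmul := zsmulRec

instance : Module B (T B) where
  one_smul u := by ext <;> simp
  mul_smul b c u := by ext <;> simp [mul_assoc]
  smul_zero b := by ext <;> simp
  smul_add b u v := by ext <;> simp [mul_add]
  add_smul b c u := by ext <;> simp [add_mul]
  zero_smul u := by ext <;> simp

@[simp] lemma nsmul_a0 (n : ℕ) (u : T B) : (n • u).a0 = n * u.a0 := by
  induction n with
  | zero => simp
  | succ n ih => rw [succ_nsmul, add_a0, ih]; push_cast; ring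
@[simp] lemma nsmul_a1 (n : ℕ) (u : T B) : (n • u).a1 = n * u.a1 := by
  induction n with
  | zero => simp
  | succ n ih => rw [succ_nsmul, add_a1, ih]; push_cast; ring
@[simp] lemma nsmul_a2 (n : ℕ) (u : T B) : (n • u).a2 = n * u.a2 := by
  induction n with
  | zero => simp
  | succ n ih => rw [succ_nsmul, add_a2, ih]; push_cast; ring
@[simp] lemma nsmul_a3 (n : ℕ) (u : T B) : (n • u).a3 = n * u.a3 := by
  induction n with
  | zero => simp
  | succ n ih => rw [succ_nsmul, add_a3, ih]; push_cast; ring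
@[simp] lemma nsmul_a4 (n : ℕ) (u : T B) : (n • u).a4 = n * u.a4 := by
  induction n with
  | zero => simp
  | succ n ih => rw [succ_nsmul, add_a4, ih]; push_cast; ring
@[simp] lemma nsmul_a5 (n : ℕ) (u : T B) : (n • u).a5 = n * u.a5 := by
  induction n with
  | zero => simp
  | succ n ih => rw [succ_nsmul, add_a5, ih]; push_cast; ring
@[simp] lemma nsmul_a6 (n : ℕ) (u : T B) : (n • u).a6 = n * u.a6 := by
  induction n with
  | zero => simp
  | succ n ih => rw [succ_nsmul, add_a6, ih]; push_cast; ring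

/-- Functoriality. -/
def map (f : B →+* C) : T B →+* T C where
  toFun u := ⟨f u.a0, f u.a1, f u.a2, f u.a3, f u.a4, f u.a5, f u.a6⟩
  map_one' := by ext <;> simp
  map_mul' u v := by ext <;> simp
  map_zero' := by ext <;> simp
  map_add' u v := by ext <;> simp

@[simp] lemma map_a0 (f : B →+* C) (u : T B) : (map f u).a0 = f u.a0 := rfl
@[simp] lemma map_a1 (f : B →+* C) (u : T B) : (map f u).a1 = f u.a1 := rfl
@[simp] lemma map_a2 (f : B →+* C) (u : T B) : (map f u).a2 = f u.a2 := rfl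
@[simp] lemma map_a3 (f : B →+* C) (u : T B) : (map f u).a3 = f u.a3 := rfl
@[simp] lemma map_a4 (f : B →+* C) (u : T B) : (map f u).a4 = f u.a4 := rfl
@[simp] lemma map_a5 (f : B →+* C) (u : T B) : (map f u).a5 = f u.a5 := rfl
@[simp] lemma map_a6 (f : B →+* C) (u : T B) : (map f u).a6 = f u.a6 := rfl

/-- The linear equivalence with `B ^ 7`. -/
def equivFun : T B ≃ₗ[B] (Fin 7 → B) where
  toFun u := ![u.a0, u.a1, u.a2, u.a3, u.a4, u.a5, u.a6]
  invFun v := ⟨v 0, v 1, v 2, v 3, v 4, v 5, v 6⟩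
  map_add' u v := by
    ext i; fin_cases i <;> rfl
  map_smul' b u := by
    ext i; fin_cases i <;> rfl
  left_inv u := rfl
  right_inv v := by
    ext i; fin_cases i <;> rfl

lemma mem_center {u : T B} (h1 : u.a1 = 0) (h2 : u.a2 = 0) : ∀ v : T B, u * v = v * u := by
  intro v
  ext <;> simp [h1, h2] <;> ring

/-- `x y ≠ y x`. -/
lemma noncomm [Nontrivial B] : (⟨0, 1, 0, 0, 0, 0, 0⟩ : T B) * ⟨0, 0, 1, 0, 0, 0, 0⟩ ≠
    ⟨0, 0, 1, 0, 0, 0, 0⟩ * ⟨0, 1, 0, 0, 0, 0, 0⟩ := by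
  intro h
  have := congrArg T.a5 h
  simp at this

/-- Every nonzero element has a nonzero central multiple by `t`, `x²`, `y²` or `1`. -/
lemma exists_multiplier (u : T B) (hu : u ≠ 0) : ∃ d : T B,
    (d = ⟨0, 0, 0, 0, 0, 0, 1⟩ ∨ d = ⟨0, 0, 0, 1, 0, 0, 0⟩ ∨ d = ⟨0, 0, 0, 0, 1, 0, 0⟩ ∨ d = 1) ∧
    d.a1 = 0 ∧ d.a2 = 0 ∧ (u * d).a1 = 0 ∧ (u * d).a2 = 0 ∧ u * d ≠ 0 := by
  by_cases h0 : u.a0 = 0
  · by_cases h1 : u.a1 = 0
    · by_cases h2 : u.a2 = 0
      · refine ⟨1, by simp, rfl, rfl, ?_, ?_, ?_⟩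
        · rw [mul_one]; exact h1
        · rw [mul_one]; exact h2
        · rw [mul_one]; exact hu
      · refine ⟨⟨0, 0, 0, 0, 1, 0, 0⟩, by simp, rfl, rfl, by simp, by simp, ?_⟩
        intro h
        have := congrArg T.a6 h
        simp at this
        exact h2 this
    · refine ⟨⟨0, 0, 0, 1, 0, 0, 0⟩, by simp, rfl, rfl, by simp, by simp, ?_⟩
      intro h
      have := congrArg T.a6 h
      simp at this
      exact h1 this
  · refine ⟨⟨0, 0, 0, 0, 0, 0, 1⟩, by simp, rfl, rfl, by simp, by simp, ?_⟩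
    intro h
    have := congrArg T.a6 h
    simp at this
    exact h0 this

end T

end Q9.Seven
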