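import Pool.Agent.Q9.Seven

/-!
# A torsion-free group of rank seven
-/

set_option autoImplicit false

namespace Q9.Seven

/-- The ring of `p`-integral rational numbers. -/
def O (p : ℕ) (hp : p.Prime) : Subring ℚ where
  carrier := {q | ∃ (a : ℤ) (b : ℕ), ¬ p ∣ b ∧ q * b = a}
  zero_mem' := ⟨0, 1, hp.one_lt.ne' ∘ Nat.dvd_one.1, by simp⟩
  one_mem' := ⟨1, 1, hp.one_lt.ne' ∘ Nat.dvd_one.1, by simp⟩
  add_mem' := by
    rintro x y ⟨a, b, hb, h⟩ ⟨a', b', hb', h'⟩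
    refine ⟨a * b' + a' * b, b * b', fun hd => (hp.dvd_mul.1 hd).elim hb hb', ?_⟩
    push_cast
    rw [← h, ← h']; ring
  mul_mem' := by
    rintro x y ⟨a, b, hb, h⟩ ⟨a', b', hb', h'⟩
    refine ⟨a * a', b * b', fun hd => (hp.dvd_mul.1 hd).elim hb hb', ?_⟩
    push_cast
    rw [← h, ← h']; ring
  neg_mem' := by
    rintro x ⟨a, b, hb, h⟩
    exact ⟨-a, b, hb, by push_cast; rw [← h]; ring⟩

lemma mem_O {p : ℕ} {hp : p.Prime} {q : ℚ} :
    q ∈ O p hp ↔ ∃ (a : ℤ) (b : ℕ), ¬ p ∣ b ∧ q * b = a := Iff.rfl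

lemma inv_mem_O {p q : ℕ} (hp : p.Prime) (hq : q.Prime) (h : p ≠ q) (k : ℕ) :
    ((q : ℚ) ^ k)⁻¹ ∈ O p hp := by
  refine ⟨1, q ^ k, ?_, ?_⟩
  · intro hd
    exact h ((Nat.prime_dvd_prime_iff_eq hp hq).1 (hp.dvd_of_dvd_pow hd))
  · push_cast
    apply inv_mul_cancel₀
    apply pow_ne_zero
    exact_mod_cast hq.ne_zero

/-- A rational number divisible by infinitely many primes is zero. -/
lemma eq_zero_of_infinite (q : ℚ) (S : Set ℕ) (hS : S.Infinite)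
    (h : ∀ p ∈ S, ∃ hp : p.Prime, ∃ w ∈ O p hp, q = p * w) : q = 0 := by
  by_contra hq
  apply hS
  have hfin : Set.Finite {p : ℕ | p ∣ q.num.natAbs} := by
    apply Set.Finite.subset (Finset.range (q.num.natAbs + 1)).finite_toSet
    intro p hp
    rw [Finset.coe_range, Set.mem_Iio, Nat.lt_succ_iff]
    exact Nat.le_of_dvd (Int.natAbs_pos.2 (Rat.num_ne_zero.2 hq)) hp
  refine hfin.subset ?_
  intro p hpS
  obtain ⟨hp, w, ⟨a, b, hb, hw⟩, hqw⟩ := h p hpS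
  have h1 : q * b = p * a := by rw [hqw, mul_assoc, hw]
  have h2 : (q.num : ℚ) * b = p * a * q.den := by
    rw [← h1]
    have := Rat.mul_den_eq_num q
    rw [← this]; ring
  have h3 : q.num * b = p * a * q.den := by exact_mod_cast h2
  have h4 : (p : ℤ) ∣ q.num * b := ⟨a * q.den, by rw [h3]; ring⟩
  rcases (Nat.prime_iff_prime_int.1 hp).dvd_or_dvd h4 with h5 | h5
  · exact Int.natCast_dvd.1 h5
  · exact absurd (Int.natCast_dvd_natCast.1 h5) hb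

/-- The elements of `T ℚ` with `p`-integral coordinates. -/
def TI (p : ℕ) (hp : p.Prime) : Subring (T ℚ) := (T.map (O p hp).subtype).range

lemma mem_TI {p : ℕ} {hp : p.Prime} {u : T ℚ} : u ∈ TI p hp ↔
    u.a0 ∈ O p hp ∧ u.a1 ∈ O p hp ∧ u.a2 ∈ O p hp ∧ u.a3 ∈ O p hp ∧ u.a4 ∈ O p hp ∧
      u.a5 ∈ O p hp ∧ u.a6 ∈ O p hp := by
  constructor
  · rintro ⟨v, rfl⟩
    exact ⟨v.a0.2, v.a1.2, v.a2.2, v.a3.2, v.a4.2, v.a5.2, v.a6.2⟩
  · rintro ⟨h0, h1, h2, h3, h4, h5, h6⟩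
    exact ⟨⟨⟨_, h0⟩, ⟨_, h1⟩, ⟨_, h2⟩, ⟨_, h3⟩, ⟨_, h4⟩, ⟨_, h5⟩, ⟨_, h6⟩⟩, rfl⟩

lemma smul_mem_TI {p : ℕ} {hp : p.Prime} {u : T ℚ} {q : ℚ} (hq : q ∈ O p hp)
    (hu : u ∈ TI p hp) : q • u ∈ TI p hp := by
  rw [mem_TI] at hu ⊢
  obtain ⟨h0, h1, h2, h3, h4, h5, h6⟩ := hu
  exact ⟨(O p hp).mul_mem hq h0, (O p hp).mul_mem hq h1, (O p hp).mul_mem hq h2,
    (O p hp).mul_mem hq h3, (O p hp).mul_mem hq h4, (O p hp).mul_mem hq h5,
    (O p hp).mul_mem hq h6⟩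

/-- The inclusion of `T ℤ` into `T ℚ`. -/
def ι : T ℤ →+* T ℚ := T.map (Int.castRingHom ℚ)

lemma int_mem_O {p : ℕ} (hp : p.Prime) (a : ℤ) : (a : ℚ) ∈ O p hp :=
  ⟨a, 1, hp.one_lt.ne' ∘ Nat.dvd_one.1, by simp⟩

lemma ι_mem_TI {p : ℕ} {hp : p.Prime} (s : T ℤ) : ι s ∈ TI p hp := by
  rw [mem_TI]
  exact ⟨int_mem_O hp _, int_mem_O hp _, int_mem_O hp _, int_mem_O hp _, int_mem_O hp _,
    int_mem_O hp _, int_mem_O hp _⟩

lemma eq_zero_of_infinite_T (u : T ℚ) (S : Set ℕ) (hS : S.Infinite)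
    (h : ∀ p ∈ S, ∃ hp : p.Prime, ∃ w ∈ TI p hp, u = (p : ℚ) • w) : u = 0 := by
  have key : ∀ (c : T ℚ → ℚ), (∀ (q : ℚ) (w : T ℚ), c (q • w) = q * c w) →
      (∀ (p : ℕ) (hp : p.Prime) (w : T ℚ), w ∈ TI p hp → c w ∈ O p hp) → c u = 0 := by
    intro c hc1 hc2
    apply eq_zero_of_infinite _ S hS
    intro p hpS
    obtain ⟨hp, w, hw, hu⟩ := h p hpS
    exact ⟨hp, c w, hc2 p hp w hw, by rw [hu, hc1]⟩
  ext
  · exact key T.a0 (fun _ _ => rfl) (fun p hp w hw => (mem_TI.1 hw).1)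
  · exact key T.a1 (fun _ _ => rfl) (fun p hp w hw => (mem_TI.1 hw).2.1)
  · exact key T.a2 (fun _ _ => rfl) (fun p hp w hw => (mem_TI.1 hw).2.2.1)
  · exact key T.a3 (fun _ _ => rfl) (fun p hp w hw => (mem_TI.1 hw).2.2.2.1)
  · exact key T.a4 (fun _ _ => rfl) (fun p hp w hw => (mem_TI.1 hw).2.2.2.2.1)
  · exact key T.a5 (fun _ _ => rfl) (fun p hp w hw => (mem_TI.1 hw).2.2.2.2.2.1)
  · exact key T.a6 (fun _ _ => rfl) (fun p hp w hw => (mem_TI.1 hw).2.2.2.2.2.2)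

/-- Clearing denominators. -/
lemma exists_mul_eq (u : T ℚ) : ∃ (n : ℕ) (s : T ℤ), 0 < n ∧ (n : ℚ) • u = ι s := by
  have h : ∀ (q : ℚ) (m : ℕ), q.den ∣ m → ∃ a : ℤ, (m : ℚ) * q = a := by
    rintro q m ⟨k, rfl⟩
    refine ⟨k * q.num, ?_⟩
    push_cast
    rw [← Rat.mul_den_eq_num q]; ring
  set n := u.a0.den * u.a1.den * u.a2.den * u.a3.den * u.a4.den * u.a5.den * u.a6.den with hn
  obtain ⟨s0, h0⟩ := h u.a0 n (by
    rw [hn]; exact ⟨u.a1.den * u.a2.den * u.a3.den * u.a4.den * u.a5.den * u.a6.den, by ring⟩)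
  obtain ⟨s1, h1⟩ := h u.a1 n (by
    rw [hn]; exact ⟨u.a0.den * u.a2.den * u.a3.den * u.a4.den * u.a5.den * u.a6.den, by ring⟩)
  obtain ⟨s2, h2⟩ := h u.a2 n (by
    rw [hn]; exact ⟨u.a1.den * u.a0.den * u.a3.den * u.a4.den * u.a5.den * u.a6.den, by ring⟩)
  obtain ⟨s3, h3⟩ := h u.a3 n (by
    rw [hn]; exact ⟨u.a1.den * u.a2.den * u.a0.den * u.a4.den * u.a5.den * u.a6.den, by ring⟩)
  obtain ⟨s4, h4⟩ := h u.a4 n (by
    rw [hn]; exact ⟨u.a1.den * u.a2.den * u.a3.den * u.a0.den * u.a5.den * u.a6.den, by ring⟩)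
  obtain ⟨s5, h5⟩ := h u.a5 n (by
    rw [hn]; exact ⟨u.a1.den * u.a2.den * u.a3.den * u.a4.den * u.a0.den * u.a6.den, by ring⟩)
  obtain ⟨s6, h6⟩ := h u.a6 n (by
    rw [hn]; exact ⟨u.a1.den * u.a2.den * u.a3.den * u.a4.den * u.a5.den * u.a0.den, by ring⟩)
  refine ⟨n, ⟨s0, s1, s2, s3, s4, s5, s6⟩, ?_, ?_⟩
  · have := u.a0.den_pos
    have := u.a1.den_pos
    have := u.a2.den_pos
    have := u.a3.den_pos
    have := u.a4.den_pos
    have := u.a5.den_pos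
    have := u.a6.den_pos
    positivity
  · ext
    · exact h0
    · exact h1
    · exact h2
    · exact h3
    · exact h4
    · exact h5
    · exact h6

/-- All but finitely many primes do not divide the denominators. -/
lemma infinite_inter (u : T ℚ) (S : Set ℕ) (hS : S.Infinite) :
    {p ∈ S | ∀ hp : p.Prime, u ∈ TI p hp}.Infinite := by
  obtain ⟨n, s, hn, hs⟩ := exists_mul_eq u
  have hfin : Set.Finite {p : ℕ | p ∣ n} := by
    apply Set.Finite.subset (Finset.range (n + 1)).finite_toSet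
    intro p hp
    rw [Finset.coe_range, Set.mem_Iio, Nat.lt_succ_iff]
    exact Nat.le_of_dvd hn hp
  refine (hS.sdiff hfin).mono ?_
  rintro p ⟨hpS, hpn⟩
  refine ⟨hpS, fun hp => ?_⟩
  have hn0 : (n : ℚ) ≠ 0 := by exact_mod_cast hn.ne'
  have h1 : ((n : ℚ))⁻¹ ∈ O p hp := ⟨1, n, hpn, by simp [hn0]⟩
  have h2 : u = ((n : ℚ))⁻¹ • ι s := by
    rw [← hs, smul_smul, inv_mul_cancel₀ hn0, one_smul]
  rw [h2]
  exact smul_mem_TI h1 (ι_mem_TI s)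

/-- The main arithmetic lemma. -/
lemma eq_zero_of_infinite_conditions (z r : T ℚ) (S : Set ℕ) (hS : S.Infinite)
    (hr : ∀ (p : ℕ) (hp : p.Prime), r ∈ TI p hp)
    (h : ∀ p ∈ S, ∃ hp : p.Prime, ∃ w ∈ TI p hp,
      z * (((p : ℚ) ^ 3) • 1 - ((p : ℚ) ^ 2) • r + (p : ℚ) • (r * r) - r * r * r) =
        ((p : ℚ) ^ 4) • w) : z = 0 := by
  set S' := {p ∈ S | ∀ hp : p.Prime, z ∈ TI p hp} with hS'
  have hS'inf : S'.Infinite := infinite_inter z S hS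
  have hpos : ∀ p : ℕ, p.Prime → (p : ℚ) ≠ 0 := fun p hp => by exact_mod_cast hp.ne_zero
  -- Step 1
  have h1 : z * (r * r * r) = 0 := by
    apply eq_zero_of_infinite_T _ S' hS'inf
    rintro p ⟨hpS, hz⟩
    obtain ⟨hp, w, hw, hwz⟩ := h p hpS
    refine ⟨hp, z * (((p : ℚ) ^ 2) • 1 - (p : ℚ) • r + r * r) - ((p : ℚ) ^ 3) • w, ?_, ?_⟩
    · have hpO : ∀ k : ℕ, ((p : ℚ) ^ k) ∈ O p hp := fun k => by
        have := int_mem_O hp ((p : ℤ) ^ k)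
        push_cast at this
        exact this
      have hp1 := hpO 1
      rw [pow_one] at hp1
      exact Subring.sub_mem _ (Subring.mul_mem _ (hz hp) (Subring.add_mem _ (Subring.sub_mem _
        (smul_mem_TI (hpO 2) (Subring.one_mem _)) (smul_mem_TI hp1 (hr p hp)))
        (Subring.mul_mem _ (hr p hp) (hr p hp)))) (smul_mem_TI (hpO 3) hw)
    · have e1 : z * (((p : ℚ) ^ 3) • 1 - ((p : ℚ) ^ 2) • r + (p : ℚ) • (r * r) - r * r * r) =
          (p : ℚ) • (z * (((p : ℚ) ^ 2) • 1 - (p : ℚ) • r + r * r)) - z * (r * r * r) := by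
        ext <;> simp <;> ring
      rw [e1] at hwz
      have e2 : z * (r * r * r) =
          (p : ℚ) • (z * (((p : ℚ) ^ 2) • 1 - (p : ℚ) • r + r * r)) - ((p : ℚ) ^ 4) • w := by
        rw [← hwz]; abel
      rw [e2, smul_sub, smul_smul]
      congr 2
      ring
  -- Step 2
  have h2' : ∀ p ∈ S', ∃ hp : p.Prime, ∃ w ∈ TI p hp,
      z * (((p : ℚ) ^ 2) • 1 - (p : ℚ) • r + r * r) = ((p : ℚ) ^ 3) • w := by
    rintro p ⟨hpS, hz⟩
    obtain ⟨hp, w, hw, hwz⟩ := h p hpS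
    refine ⟨hp, w, hw, ?_⟩
    have e1 : z * (((p : ℚ) ^ 3) • 1 - ((p : ℚ) ^ 2) • r + (p : ℚ) • (r * r) - r * r * r) =
        (p : ℚ) • (z * (((p : ℚ) ^ 2) • 1 - (p : ℚ) • r + r * r)) - z * (r * r * r) := by
      ext <;> simp <;> ring
    rw [e1, h1, sub_zero] at hwz
    have e2 : ((p : ℚ) ^ 4) • w = (p : ℚ) • (((p : ℚ) ^ 3) • w) := by
      rw [smul_smul]; congr 1; ring
    rw [e2] at hwz
    exact smul_right_injective _ (hpos p hp) hwz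
  have h2 : z * (r * r) = 0 := by
    apply eq_zero_of_infinite_T _ S' hS'inf
    intro p hpS'
    obtain ⟨hp, w, hw, hwz⟩ := h2' p hpS'
    have hz := hpS'.2
    refine ⟨hp, ((p : ℚ) ^ 2) • w - z * ((p : ℚ) • 1 - r), ?_, ?_⟩
    · have hpO : ∀ k : ℕ, ((p : ℚ) ^ k) ∈ O p hp := fun k => by
        have := int_mem_O hp ((p : ℤ) ^ k)
        push_cast at this
        exact this
      have hp1 := hpO 1
      rw [pow_one] at hp1
      exact Subring.sub_mem _ (smul_mem_TI (hpO 2) hw) (Subring.mul_mem _ (hz hp)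
        (Subring.sub_mem _ (smul_mem_TI hp1 (Subring.one_mem _)) (hr p hp)))
    · have e1 : z * (((p : ℚ) ^ 2) • 1 - (p : ℚ) • r + r * r) =
          (p : ℚ) • (z * ((p : ℚ) • 1 - r)) + z * (r * r) := by
        ext <;> simp <;> ring
      rw [e1] at hwz
      have e2 : z * (r * r) = ((p : ℚ) ^ 3) • w - (p : ℚ) • (z * ((p : ℚ) • 1 - r)) := by
        rw [← hwz]; abel
      rw [e2, smul_sub, smul_smul]
      congr 2
      ring
  -- Step 3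
  have h3' : ∀ p ∈ S', ∃ hp : p.Prime, ∃ w ∈ TI p hp,
      z * ((p : ℚ) • 1 - r) = ((p : ℚ) ^ 2) • w := by
    intro p hpS'
    obtain ⟨hp, w, hw, hwz⟩ := h2' p hpS'
    refine ⟨hp, w, hw, ?_⟩
    have e1 : z * (((p : ℚ) ^ 2) • 1 - (p : ℚ) • r + r * r) =
        (p : ℚ) • (z * ((p : ℚ) • 1 - r)) + z * (r * r) := by
      ext <;> simp <;> ring
    rw [e1, h2, add_zero] at hwz
    have e2 : ((p : ℚ) ^ 3) • w = (p : ℚ) • (((p : ℚ) ^ 2) • w) := by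
      rw [smul_smul]; congr 1; ring
    rw [e2] at hwz
    exact smul_right_injective _ (hpos p hp) hwz
  have h3 : z * r = 0 := by
    apply eq_zero_of_infinite_T _ S' hS'inf
    intro p hpS'
    obtain ⟨hp, w, hw, hwz⟩ := h3' p hpS'
    have hz := hpS'.2
    refine ⟨hp, z - (p : ℚ) • w, ?_, ?_⟩
    · have hp1 : (p : ℚ) ∈ O p hp := by exact_mod_cast int_mem_O hp (p : ℤ)
      exact Subring.sub_mem _ (hz hp) (smul_mem_TI hp1 hw)
    · have e1 : z * ((p : ℚ) • 1 - r) = (p : ℚ) • z - z * r := by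
        ext <;> simp <;> ring
      rw [e1] at hwz
      have e2 : z * r = (p : ℚ) • z - ((p : ℚ) ^ 2) • w := by
        rw [← hwz]; abel
      rw [e2, smul_sub, smul_smul]
      congr 2
      ring
  -- Step 4
  apply eq_zero_of_infinite_T _ S' hS'inf
  intro p hpS'
  obtain ⟨hp, w, hw, hwz⟩ := h3' p hpS'
  refine ⟨hp, w, hw, ?_⟩
  have e1 : z * ((p : ℚ) • 1 - r) = (p : ℚ) • z - z * r := by
    ext <;> simp <;> ring
  rw [e1, h3, sub_zero] at hwz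
  have e2 : ((p : ℚ) ^ 2) • w = (p : ℚ) • ((p : ℚ) • w) := by
    rw [smul_smul]; congr 1; ring
  rw [e2] at hwz
  exact smul_right_injective _ (hpos p hp) hwz

end Q9.Seven
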