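import Mathlib

/-!
# Structure constants of thin decompositions: the combinatorial part

`c x y` are the structure constants of a Lie algebra graded by an elementary abelian `2`-group
with one-dimensional homogeneous components of non-zero degree, over a field of characteristic
`2`. The function `ff c a b = c a b * c a (a + b)` is the eigenvalue of `(ad e_a)^2` on `e_b`.
-/

namespace Q9.Thin

variable {V K : Type*} [AddCommGroup V] [Field K]

/-- The eigenvalue of `(ad e_a)^2` on `e_b`. -/
def ff (c : V → V → K) (a b : V) : K := c a b * c a (a + b)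

/-- Structure constants with additive eigenvalues. -/
structure Consts (c : V → V → K) : Prop where
  two : ∀ x : V, x + x = 0
  char2 : ∀ t : K, t + t = 0
  symm : ∀ x y, c x y = c y x
  diag : ∀ x, c x x = 0
  jac : ∀ x y z, c x y * c (x + y) z + c y z * c (y + z) x + c z x * c (z + x) y = 0
  add : ∀ a b b', ff c a (b + b') = ff c a b + ff c a b'

/-- No line carries three non-zero structure constants. -/
def NoLine (c : V → V → K) : Prop := ∀ a b, c a b ≠ 0 → c a (a + b) ≠ 0 → c b (a + b) = 0

variable {c : V → V → K}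

theorem Consts.cancel (h : Consts c) (x y : V) : x + (x + y) = y := by
  rw [← add_assoc, h.two, zero_add]

theorem Consts.eq_of_add (h : Consts c) {s t : K} (e : s + t = 0) : s = t := by
  have h1 : s + t = t + t := by rw [e, h.char2]
  exact add_right_cancel h1

theorem ff_ne {a b : V} (h : ff c a b ≠ 0) : c a b ≠ 0 ∧ c a (a + b) ≠ 0 :=
  ⟨left_ne_zero_of_mul h, right_ne_zero_of_mul h⟩

theorem Consts.comm_zero (hno : NoLine c) {a b : V} (h : ff c a b ≠ 0) : c b (a + b) = 0 :=
  hno a b (ff_ne h).1 (ff_ne h).2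

theorem Consts.asym (hno : NoLine c) {a b : V} (h : ff c a b ≠ 0) : ff c b a = 0 := by
  have := Consts.comm_zero hno h
  unfold ff
  rw [add_comm b a, this, mul_zero]

theorem Consts.ff_self (h : Consts c) (a : V) : ff c a a = 0 := by
  unfold ff; rw [h.diag, zero_mul]

/-- A closed walk of length `k`. -/
def Cyc (c : V → V → K) (k : ℕ) (w : ℕ → V) : Prop :=
  (∀ i, ff c (w i) (w (i + 1)) ≠ 0) ∧ ∀ i, w (i + k) = w i

theorem Consts.no_cyc_one (h : Consts c) {w : ℕ → V} (hw : Cyc c 1 w) : False := by
  have h1 := hw.1 0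
  have h2 := hw.2 0
  rw [zero_add] at h1 h2
  rw [h2, h.ff_self] at h1
  exact h1 rfl

theorem no_cyc_two (hno : NoLine c) {w : ℕ → V} (hw : Cyc c 2 w) : False := by
  have h1 := hw.1 0
  have h2 := hw.1 1
  have h3 : w 2 = w 0 := hw.2 0
  rw [zero_add] at h1
  norm_num at h2
  rw [h3] at h2
  exact h2 (Consts.asym hno h1)

theorem Consts.tri (h : Consts c) (hno : NoLine c) {a b d : V} (h1 : ff c a b ≠ 0)
    (h2 : ff c b d ≠ 0) (h3 : ff c d a ≠ 0) : c (a + b) (a + d) ≠ 0 := by
  have h21 := Consts.asym hno h1
  have h13 := Consts.asym hno h3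
  have e1 : c (a + d) a = 0 := by
    rw [h.symm, add_comm a d]
    exact Consts.comm_zero hno h3
  have e2 : ff c b (a + d) ≠ 0 := by rw [h.add, h21, zero_add]; exact h2
  have e3 : ff c a (b + d) ≠ 0 := by rw [h.add, h13, add_zero]; exact h1
  have J := h.jac a b (a + d)
  rw [e1, zero_mul, add_zero] at J
  intro h0
  rw [h0, mul_zero, zero_add] at J
  rcases mul_eq_zero.1 J with J | J
  · exact (ff_ne e2).1 J
  · have e4 : b + (a + d) = a + (b + d) := by abel
    rw [e4, h.symm] at J
    exact (ff_ne e3).2 J

theorem Consts.no_cyc_three (h : Consts c) (hno : NoLine c) {w : ℕ → V} (hw : Cyc c 3 w) :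
    False := by
  have h1 := hw.1 0
  have h2 := hw.1 1
  have h3 := hw.1 2
  have h4 : w 3 = w 0 := hw.2 0
  norm_num at h1 h2 h3
  rw [h4] at h3
  generalize w 0 = a at h1 h2 h3
  generalize w 1 = b at h1 h2 h3
  generalize w 2 = d at h1 h2 h3
  have t1 := h.tri hno h2 h3 h1
  have t2 := h.tri hno h3 h1 h2
  have h21 := Consts.asym hno h1
  have h13 := Consts.asym hno h3
  have h32 := Consts.asym hno h2
  -- `ff (b+d) (a+b) ≠ 0`
  have e : ff c (b + d) (b + a) ≠ 0 := by
    unfold ff
    refine mul_ne_zero t1 ?_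
    have : b + d + (b + a) = d + a := by
      have := h.cancel b (d + a)
      rw [← this]; abel
    rw [this, h.symm, add_comm b d]
    exact t2
  have e1 : ff c (b + d) a = 0 := by
    refine Consts.asym hno ?_
    rw [h.add, h13, add_zero]; exact h1
  have e2 : ff c (b + d) b = 0 := by
    refine Consts.asym hno ?_
    rw [h.add, h.ff_self, zero_add]; exact h2
  rw [h.add, e1, e2, add_zero] at e
  exact e rfl

/-- Chordlessness of a closed walk of minimal length. -/
theorem chordless {k : ℕ} {w : ℕ → V} (hw : Cyc c k w) (hc : Consts c)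
    (hmin : ∀ k' < k, 0 < k' → ∀ w', ¬ Cyc c k' w') {i m : ℕ} (h2 : 2 ≤ m) (hm : m ≤ k) :
    ff c (w i) (w (i + m)) = 0 := by
  rcases Nat.eq_or_lt_of_le hm with rfl | hlt
  · rw [hw.2, hc.ff_self]
  by_contra hne
  set k' := k - m + 1 with hk'
  refine hmin k' (by omega) (by omega) (fun j => if j % k' = 0 then w i else w (i + m - 1 + j % k'))
    ⟨?_, ?_⟩
  · intro j
    have hjlt : j % k' < k' := Nat.mod_lt _ (by omega)
    by_cases hr : j % k' + 1 < k'
    · have e : (j + 1) % k' = j % k' + 1 := by
        rw [Nat.add_mod, Nat.mod_eq_of_lt (show 1 < k' by omega), Nat.mod_eq_of_lt hr]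
      simp only [e]
      rw [if_neg (by omega : ¬ j % k' + 1 = 0)]
      by_cases h0 : j % k' = 0
      · rw [if_pos h0, h0]
        have : i + m - 1 + (0 + 1) = i + m := by omega
        rw [this]; exact hne
      · rw [if_neg h0]
        have := hw.1 (i + m - 1 + j % k')
        rwa [add_assoc] at this
    · have hr' : j % k' + 1 = k' := by omega
      have e : (j + 1) % k' = 0 := by
        rw [Nat.add_mod, Nat.mod_eq_of_lt (show 1 < k' by omega), hr', Nat.mod_self]
      simp only [e, if_true]
      rw [if_neg (by omega : ¬ j % k' = 0)]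
      have h3 := hw.1 (i + m - 1 + j % k')
      have h4 : i + m - 1 + j % k' + 1 = i + k := by omega
      rw [h4, hw.2] at h3
      exact h3
  · intro j
    simp only [Nat.add_mod_right]

/-- The propagation lemma along a minimal closed walk. -/
theorem propagate {k : ℕ} {w : ℕ → V} (hw : Cyc c k w) (h : Consts c) (hno : NoLine c)
    (hmin : ∀ k' < k, 0 < k' → ∀ w', ¬ Cyc c k' w') (j : ℕ) (hj : 2 ≤ j) (hjk : j ≤ k) :
    ∀ x, ff c (w j) x ≠ 0 → ff c (w 1) x = 0 → c x (w 1 + x) = 0 := by
  induction j, hj using Nat.le_induction with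
  | base =>
    intro x hx hbx
    by_contra hne
    have hbd : ff c (w 1) (w 2) ≠ 0 := hw.1 1
    generalize w 1 = b at hbx hne hbd ⊢
    generalize w 2 = d at hx hbd
    have J := h.jac d (b + x) (d + x)
    have e1 : b + x + (d + x) = b + d := by
      have := h.two x
      calc b + x + (d + x) = b + d + (x + x) := by abel
        _ = b + d := by rw [this, add_zero]
    have e2 : d + x + d = x := by rw [add_comm, h.cancel]
    have e3 : c (b + d) d = 0 := by rw [h.symm]; exact Consts.comm_zero hno hbd
    rw [e1, e2, e3, mul_zero, add_zero] at J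
    have J' := h.eq_of_add J
    have hdx : c (d + x) d ≠ 0 := by rw [h.symm]; exact (ff_ne hx).2
    have hr : c (d + x) d * c x (b + x) ≠ 0 := mul_ne_zero hdx hne
    rw [← J'] at hr
    have h5 := right_ne_zero_of_mul hr
    have hb : ff c b (d + x) ≠ 0 := by rw [h.add, hbx, add_zero]; exact hbd
    have h6 := Consts.comm_zero hno hb
    apply h5
    rw [h.symm]
    have : d + (b + x) = b + (d + x) := by abel
    rw [this]
    exact h6
  | succ j hj ih =>
    have ih := ih (by omega)
    intro x hx hbx
    by_contra hne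
    by_cases hjx : ff c (w j) x ≠ 0
    · exact hne (ih x hjx hbx)
    push Not at hjx
    have hgj : ff c (w j) (w (j + 1)) ≠ 0 := hw.1 j
    have hbg : ff c (w 1) (w (j + 1)) = 0 := by
      have := chordless hw h hmin (i := 1) (m := j) (by omega) (by omega)
      rwa [add_comm 1 j] at this
    have hcg : c (w (j + 1)) (w 1 + w (j + 1)) = 0 := ih _ hgj hbg
    generalize w (j + 1) = g at hx hgj hbg hcg
    have hz : ff c (w j) (g + x) ≠ 0 := by rw [h.add, hjx, add_zero]; exact hgj
    have hbz : ff c (w 1) (g + x) = 0 := by rw [h.add, hbg, hbx, add_zero]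
    have hfin := ih _ hz hbz
    generalize w 1 = b at hbx hne hbg hcg hbz hfin
    have J := h.jac g (b + x) (g + x)
    have e1 : b + x + (g + x) = b + g := by
      have := h.two x
      calc b + x + (g + x) = b + g + (x + x) := by abel
        _ = b + g := by rw [this, add_zero]
    have e2 : g + x + g = x := by rw [add_comm, h.cancel]
    have e3 : c (b + g) g = 0 := by rw [h.symm]; exact hcg
    rw [e1, e2, e3, mul_zero, add_zero] at J
    have J' := h.eq_of_add J
    have hdx : c (g + x) g ≠ 0 := by rw [h.symm]; exact (ff_ne hx).2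
    have hr : c (g + x) g * c x (b + x) ≠ 0 := mul_ne_zero hdx hne
    rw [← J'] at hr
    apply right_ne_zero_of_mul hr
    rw [h.symm]
    have : g + (b + x) = b + (g + x) := by abel
    rw [this]
    exact hfin

theorem Consts.no_cyc (h : Consts c) (hno : NoLine c) (k : ℕ) (hk : 0 < k) (w : ℕ → V) :
    ¬ Cyc c k w := by
  induction k using Nat.strong_induction_on generalizing w with
  | _ k ih =>
    intro hw
    have hmin : ∀ k' < k, 0 < k' → ∀ w', ¬ Cyc c k' w' := fun k' h1 h2 w' => ih k' h1 h2 w'
    rcases lt_or_ge k 4 with hlt | hge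
    · interval_cases k
      · exact h.no_cyc_one hw
      · exact no_cyc_two hno hw
      · exact h.no_cyc_three hno hw
    have hprop := propagate hw h hno hmin (k - 2) (by omega) (by omega)
    have hab : ff c (w 0) (w 1) ≠ 0 := hw.1 0
    have hea : ff c (w (k - 1)) (w 0) ≠ 0 := by
      have h1 := hw.1 (k - 1)
      have h2 : k - 1 + 1 = 0 + k := by omega
      rw [h2, hw.2] at h1
      exact h1
    have hge' : ff c (w (k - 2)) (w (k - 1)) ≠ 0 := by
      have h1 := hw.1 (k - 2)
      have h2 : k - 2 + 1 = k - 1 := by omega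
      rwa [h2] at h1
    have hbe : ff c (w 1) (w (k - 1)) = 0 := by
      have h1 := chordless hw h hmin (i := 1) (m := k - 2) (by omega) (by omega)
      have h2 : 1 + (k - 2) = k - 1 := by omega
      rwa [h2] at h1
    have hba : ff c (w 1) (w 0) = 0 := Consts.asym hno hab
    have hga : ff c (w (k - 2)) (w 0) = 0 := by
      have h1 := chordless hw h hmin (i := k - 2) (m := 2) (by omega) (by omega)
      have h2 : k - 2 + 2 = 0 + k := by omega
      rwa [h2, hw.2] at h1
    have r1 := hprop (w (k - 1)) hge' hbe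
    have r2 := hprop (w 0 + w (k - 1)) (by rw [h.add, hga, zero_add]; exact hge')
      (by rw [h.add, hba, hbe, add_zero])
    generalize w (k - 1) = e at *
    generalize w 0 = a at *
    generalize w 1 = b at *
    have J := h.jac (a + b) e (a + e)
    have e1 : a + b + e = b + (a + e) := by abel
    have e2 : e + (a + e) = a := by rw [add_comm a e, h.cancel]
    have e3 : a + e + (a + b) = e + b := by
      have := h.cancel a (e + b)
      rw [← this]; abel
    have e4 : c (b + (a + e)) (a + e) = 0 := by rw [h.symm]; exact r2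
    have e5 : c (e + b) e = 0 := by rw [h.symm, add_comm e b]; exact r1
    rw [e1, e2, e3, e4, e5, mul_zero, mul_zero, zero_add, add_zero] at J
    have h7 : c e (a + e) ≠ 0 := by rw [add_comm]; exact (ff_ne hea).2
    exact mul_ne_zero h7 (ff_ne hab).2 J

theorem Consts.exists_line [Finite V] [Nontrivial V] (h : Consts c)
    (hpred : ∀ b : V, b ≠ 0 → ∃ a : V, a ≠ 0 ∧ ff c a b ≠ 0) :
    ∃ a b : V, c a b ≠ 0 ∧ c a (a + b) ≠ 0 ∧ c b (a + b) ≠ 0 := by
  by_contra hcon
  have hno : NoLine c := by
    intro a b h1 h2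
    by_contra h3
    exact hcon ⟨a, b, h1, h2, h3⟩
  choose! p hp0 hp using hpred
  obtain ⟨x0, hx0⟩ := exists_ne (0 : V)
  have hit : ∀ m, p^[m] x0 ≠ 0 := by
    intro m
    induction m with
    | zero => exact hx0
    | succ m ih => rw [Function.iterate_succ_apply']; exact hp0 _ ih
  obtain ⟨i, j, hij, he⟩ := Finite.exists_ne_map_eq_of_infinite (fun m => p^[m] x0)
  -- wlog `i < j`
  obtain ⟨s, k, hk, he⟩ : ∃ s k, 0 < k ∧ p^[k] (p^[s] x0) = p^[s] x0 := by
    rcases lt_or_gt_of_ne hij with hl | hl
    · refine ⟨i, j - i, by omega, ?_⟩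
      rw [← Function.iterate_add_apply, Nat.sub_add_cancel hl.le]
      exact he.symm
    · refine ⟨j, i - j, by omega, ?_⟩
      rw [← Function.iterate_add_apply, Nat.sub_add_cancel hl.le]
      exact he
  set y := p^[s] x0 with hy
  have hu : ∀ m, p^[m] y ≠ 0 := by
    intro m
    rw [hy, ← Function.iterate_add_apply]
    exact hit _
  have hper : ∀ m, p^[m + k] y = p^[m] y := by
    intro m
    rw [Function.iterate_add_apply, he]
  have hperq : ∀ q m, p^[m + k * q] y = p^[m] y := by
    intro q
    induction q with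
    | zero => intro m; simp
    | succ q ih => intro m; rw [Nat.mul_succ, ← add_assoc, hper, ih]
  obtain ⟨r, rfl⟩ : ∃ r, k = r + 1 := ⟨k - 1, by omega⟩
  refine h.no_cyc hno (r + 1) (Nat.succ_pos _) (fun i => p^[r * i] y) ⟨?_, ?_⟩
  · intro i
    have e1 : p^[r * i] y = p (p^[r * (i + 1)] y) := by
      rw [← Function.iterate_succ_apply' p]
      have : (r * (i + 1)).succ = r * i + (r + 1) := by
        rw [Nat.succ_eq_add_one]; ring
      rw [this, hper]
    simp only [e1]
    exact hp _ (hu _)
  · intro i
    have e2 : r * (i + (r + 1)) = r * i + (r + 1) * r := by ring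
    simp only [e2]
    exact hperq r (r * i)

end Q9.Thin
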