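import Pool.Agent.Q9.ThinComb

/-!
# Thin decompositions of Lie algebras in characteristic two
-/

namespace Q9.Thin

open Module

attribute [local instance 100] LieRing.ofAssociativeRing

variable (K L : Type*) [Field K] [LieRing L] [LieAlgebra K L]

/-- The 2-envelope of a centreless Lie algebra `L` over a field of characteristic 2: the smallest
Lie subalgebra of `End_K(L)` which contains `ad L` and is closed under the 2-map `D ↦ D ∘ D`. -/
def envelope : LieSubalgebra K (Module.End K L) :=
  sInf {S | (∀ x : L, LieAlgebra.ad K L x ∈ S) ∧ ∀ D ∈ S, D * D ∈ S}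

variable {K L}

/-- A torus of the 2-envelope: an abelian subalgebra consisting of semisimple elements. -/
structure IsTorus (T : Submodule K (Module.End K L)) : Prop where
  le : ∀ s ∈ T, s ∈ envelope K L
  comm : ∀ s ∈ T, ∀ t ∈ T, s * t = t * s
  semisimple : ∀ s ∈ T, s.IsSemisimple

variable (K L)

/-- The absolute toral rank of `L` is `n`: the largest dimension of a torus is `n`. -/
def AbsoluteToralRank (n : ℕ) : Prop :=
  IsGreatest {d : ℕ | ∃ T : Submodule K (Module.End K L), IsTorus T ∧ finrank K T = d} n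

/-- The weight space of the family `t` for the vector `α` with entries in the field with two
elements. -/
def wt {n : ℕ} (t : Fin n → Module.End K L) (α : Fin n → ZMod 2) : Submodule K L where
  carrier := {x | ∀ i, t i x = if α i = 0 then 0 else x}
  zero_mem' := by intro i; simp
  add_mem' := by
    intro x y hx hy i
    rw [map_add, hx i, hy i]
    split_ifs <;> simp
  smul_mem' := by
    intro c x hx i
    rw [map_smul, hx i]
    split_ifs <;> simp

/-- A thin decomposition of `L`: a torus `T` of the 2-envelope, which meets `L` trivially, with a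
basis `t` consisting of elements fixed by the 2-map, such that the weights of `T` on `L` are the
non-zero vectors over the field with two elements and each weight space is one-dimensional. -/
structure ThinDecomposition (n : ℕ) where
  T : Submodule K (Module.End K L)
  torus : IsTorus T
  inf_eq_bot : T ⊓ LinearMap.range (LieAlgebra.ad K L).toLinearMap = ⊥
  basis : Basis (Fin n) K T
  sq : ∀ i, (basis i : Module.End K L) * (basis i : Module.End K L) = basis i
  wt_zero : wt K L (fun i => (basis i : Module.End K L)) 0 = ⊥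
  finrank_wt : ∀ α : Fin n → ZMod 2, α ≠ 0 →
    finrank K (wt K L (fun i => (basis i : Module.End K L)) α) = 1

variable {K L}

/-- The weight spaces of a thin decomposition. -/
noncomputable def ThinDecomposition.space {n : ℕ} (D : ThinDecomposition K L n) (α : Fin n → ZMod 2) :
    Submodule K L :=
  wt K L (fun i => (D.basis i : Module.End K L)) α

section general

theorem mem_envelope {D : Module.End K L} :
    D ∈ envelope K L ↔ ∀ S : LieSubalgebra K (Module.End K L),
      (∀ x : L, LieAlgebra.ad K L x ∈ S) → (∀ D ∈ S, D * D ∈ S) → D ∈ S := by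
  rw [envelope, ← SetLike.mem_coe, LieSubalgebra.coe_sInf, Set.mem_iInter₂]
  constructor
  · intro h S h1 h2
    exact h S ⟨h1, h2⟩
  · rintro h S ⟨h1, h2⟩
    exact h S h1 h2

theorem ad_mem_envelope (x : L) : LieAlgebra.ad K L x ∈ envelope K L := by
  rw [mem_envelope]
  intro S hS _
  exact hS x

theorem sq_mem_envelope {D : Module.End K L} (hD : D ∈ envelope K L) : D * D ∈ envelope K L := by
  rw [mem_envelope] at hD ⊢
  intro S h1 h2
  exact h2 D (hD S h1 h2)

theorem envelope_le {S : LieSubalgebra K (Module.End K L)}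
    (h1 : ∀ x : L, LieAlgebra.ad K L x ∈ S) (h2 : ∀ D ∈ S, D * D ∈ S) : envelope K L ≤ S :=
  fun _ hD => mem_envelope.1 hD S h1 h2

variable (K) in
theorem add_self_char2 [CharP K 2] {M : Type*} [AddCommGroup M] [Module K M] (x : M) :
    x + x = 0 := by
  have h : (2 : K) = 0 := by
    have := CharP.cast_eq_zero K 2
    simpa using this
  rw [← two_smul K x, h, zero_smul]

/-- Elements of the envelope are derivations. -/
theorem envelope_derivation [CharP K 2] {D : Module.End K L} (hD : D ∈ envelope K L) (x y : L) :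
    D ⁅x, y⁆ = ⁅D x, y⁆ + ⁅x, D y⁆ := by
  let S : LieSubalgebra K (Module.End K L) :=
    { carrier := {D | ∀ x y : L, D ⁅x, y⁆ = ⁅D x, y⁆ + ⁅x, D y⁆}
      zero_mem' := by intro x y; simp
      add_mem' := by
        intro D E hD hE x y
        simp only [LinearMap.add_apply, hD x y, hE x y, add_lie, lie_add]
        abel
      smul_mem' := by
        intro c D hD x y
        simp only [LinearMap.smul_apply, hD x y, smul_lie, lie_smul, smul_add]
      lie_mem' := by
        intro D E hD hE x y
        simp only [LieRing.of_associative_ring_bracket, LinearMap.sub_apply,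
          Module.End.mul_apply, hE x y, hD x y, map_add, hD _ _, hE _ _, sub_lie, lie_sub]
        abel }
  have hS : envelope K L ≤ S := by
    refine envelope_le ?_ ?_
    · intro z x y
      simp only [LieAlgebra.ad_apply]
      exact leibniz_lie z x y
    · intro D hD x y
      have hD' : ∀ x y : L, D ⁅x, y⁆ = ⁅D x, y⁆ + ⁅x, D y⁆ := hD
      rw [Module.End.mul_apply, Module.End.mul_apply, Module.End.mul_apply, hD' x y, map_add,
        hD' _ _, hD' _ _]
      have := add_self_char2 K ⁅D x, D y⁆
      calc ⁅D (D x), y⁆ + ⁅D x, D y⁆ + (⁅D x, D y⁆ + ⁅x, D (D y)⁆)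
          = ⁅D (D x), y⁆ + (⁅D x, D y⁆ + ⁅D x, D y⁆) + ⁅x, D (D y)⁆ := by abel
        _ = _ := by rw [this, add_zero]
  exact hS hD x y

/-- An endomorphism which is diagonal on a finite spanning family is semisimple. -/
theorem isSemisimple_of_diag {ι : Type*} [Finite ι] (e : ι → L)
    (he : Submodule.span K (Set.range e) = ⊤) {D : Module.End K L}
    (hD : ∀ i, ∃ s : K, D (e i) = s • e i) : D.IsSemisimple := by
  classical
  have := Fintype.ofFinite ι
  choose s hs using hD
  refine Module.End.isSemisimple_of_squarefree_aeval_eq_zero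
    (p := ∏ μ ∈ Finset.univ.image s, (Polynomial.X - Polynomial.C μ)) ?_ ?_
  · exact (Polynomial.separable_prod_X_sub_C_iff'.2 (by
      intro x _ y _ h; exact h)).squarefree
  · apply LinearMap.ext_on_range he
    intro i
    have hi : s i ∈ Finset.univ.image s := Finset.mem_image_of_mem s (Finset.mem_univ i)
    rw [← Finset.prod_erase_mul _ _ hi, map_mul, Module.End.mul_apply]
    have : (Polynomial.aeval D) (Polynomial.X - Polynomial.C (s i)) (e i) = 0 := by
      simp [hs i, Algebra.algebraMap_eq_smul_one]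
    rw [this, map_zero, LinearMap.zero_apply]

end general

section thin

variable {n : ℕ} (D : ThinDecomposition K L n)

/-- The decomposition of `L` into weight spaces. -/
theorem ThinDecomposition.iSup_space : ⨆ α, D.space α = ⊤ := by
  classical
  have key : ∀ s : Finset (Fin n), ∀ x : L, x ∈ Submodule.span K
      {y : L | ∃ α : Fin n → ZMod 2, ∀ i ∈ s, (D.basis i : Module.End K L) y =
        if α i = 0 then 0 else y} := by
    intro s
    induction s using Finset.induction_on with
    | empty =>
      intro x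
      exact Submodule.subset_span ⟨0, fun i hi => absurd hi (Finset.notMem_empty i)⟩
    | insert i s his ih =>
      intro x
      refine (Submodule.span_le.2 ?_) (ih x)
      rintro y ⟨α, hα⟩
      have e : y = (D.basis i : Module.End K L) y + (y - (D.basis i : Module.End K L) y) := by
        abel
      rw [SetLike.mem_coe, e]
      have hii : (D.basis i : Module.End K L) ((D.basis i : Module.End K L) y) =
          (D.basis i : Module.End K L) y := by
        rw [← Module.End.mul_apply, D.sq]
      have hij : ∀ j ∈ s, (D.basis j : Module.End K L) ((D.basis i : Module.End K L) y) =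
          if α j = 0 then 0 else (D.basis i : Module.End K L) y := by
        intro j hj
        rw [← Module.End.mul_apply, D.torus.comm _ (D.basis j).2 _ (D.basis i).2,
          Module.End.mul_apply, hα j hj]
        split_ifs <;> simp
      refine Submodule.add_mem _ (Submodule.subset_span ⟨Function.update α i 1, ?_⟩)
        (Submodule.subset_span ⟨Function.update α i 0, ?_⟩)
      · intro j hj
        rcases Finset.mem_insert.1 hj with rfl | hj
        · simp [hii]
        · rw [Function.update_of_ne (fun e : j = i => his (e ▸ hj))]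
          exact hij j hj
      · intro j hj
        rcases Finset.mem_insert.1 hj with rfl | hj
        · simp [hii]
        · rw [Function.update_of_ne (fun e : j = i => his (e ▸ hj)), map_sub, hij j hj, hα j hj]
          split_ifs <;> simp
  rw [eq_top_iff]
  intro x _
  refine (Submodule.span_le.2 ?_) (key Finset.univ x)
  rintro y ⟨α, hα⟩
  exact Submodule.mem_iSup_of_mem α (fun i => hα i (Finset.mem_univ i))

theorem ThinDecomposition.exists_family : ∃ e : (Fin n → ZMod 2) → L, e 0 = 0 ∧
    (∀ α, α ≠ 0 → e α ≠ 0) ∧ ∀ α, D.space α = Submodule.span K {e α} := by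
  have h : ∀ α : Fin n → ZMod 2, ∃ v : L, (α = 0 → v = 0) ∧ (α ≠ 0 → v ≠ 0) ∧
      D.space α = Submodule.span K {v} := by
    intro α
    by_cases hα : α = 0
    · refine ⟨0, fun _ => rfl, fun h => absurd hα h, ?_⟩
      rw [hα, Submodule.span_zero_singleton]
      exact D.wt_zero
    · obtain ⟨v, hv0, hv⟩ := finrank_eq_one_iff'.1 (D.finrank_wt α hα)
      refine ⟨v, fun h => absurd h hα, fun _ h => hv0 (Subtype.ext h), ?_⟩
      apply le_antisymm
      · intro x hx
        obtain ⟨t, ht⟩ := hv ⟨x, hx⟩
        rw [Submodule.mem_span_singleton]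
        exact ⟨t, congrArg Subtype.val ht⟩
      · rw [Submodule.span_singleton_le_iff_mem]
        exact v.2
  choose e h0 h1 h2 using h
  exact ⟨e, h0 0 rfl, h1, h2⟩

theorem ThinDecomposition.mem_space_apply {α : Fin n → ZMod 2} {x : L} (hx : x ∈ D.space α)
    (i : Fin n) : (D.basis i : Module.End K L) x = if α i = 0 then 0 else x := hx i

theorem zmod_two_cases (t : ZMod 2) : t = 0 ∨ t = 1 := by
  fin_cases t
  · exact Or.inl rfl
  · exact Or.inr rfl

theorem ThinDecomposition.lie_mem_space [CharP K 2] {α β : Fin n → ZMod 2} {x y : L}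
    (hx : x ∈ D.space α) (hy : y ∈ D.space β) : ⁅x, y⁆ ∈ D.space (α + β) := by
  intro i
  change (D.basis i : Module.End K L) ⁅x, y⁆ = _
  rw [envelope_derivation (D.torus.le _ (D.basis i).2), D.mem_space_apply hx, D.mem_space_apply hy,
    Pi.add_apply]
  rcases zmod_two_cases (α i) with h1 | h1 <;> rcases zmod_two_cases (β i) with h2 | h2 <;>
    rw [h1, h2]
  · simp
  · simp
  · simp
  · have h3 : (1 : ZMod 2) + 1 = 0 := by decide
    rw [h3, if_neg one_ne_zero, if_pos rfl]
    exact add_self_char2 K _

/-- Endomorphisms of the envelope which are diagonal with respect to the weight vectors lie in the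
torus. -/
theorem ThinDecomposition.diag_mem [FiniteDimensional K L] (hrank : AbsoluteToralRank K L n)
    (e : (Fin n → ZMod 2) → L) (he : Submodule.span K (Set.range e) = ⊤)
    (hT : ∀ s ∈ D.T, ∀ α, ∃ r : K, s (e α) = r • e α)
    {E : Module.End K L} (hE : E ∈ envelope K L) (hdiag : ∀ α, ∃ r : K, E (e α) = r • e α) :
    E ∈ D.T := by
  by_contra hcon
  have hfin : finrank K D.T = n := by
    rw [finrank_eq_card_basis D.basis, Fintype.card_fin]
  set T' : Submodule K (Module.End K L) := D.T ⊔ Submodule.span K {E} with hT'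
  have hd : ∀ s ∈ T', ∀ α, ∃ r : K, s (e α) = r • e α := by
    intro s hs α
    obtain ⟨t, ht, u, hu, rfl⟩ := Submodule.mem_sup.1 hs
    obtain ⟨q, rfl⟩ := Submodule.mem_span_singleton.1 hu
    obtain ⟨r1, h1⟩ := hT t ht α
    obtain ⟨r2, h2⟩ := hdiag α
    refine ⟨r1 + q * r2, ?_⟩
    rw [LinearMap.add_apply, LinearMap.smul_apply, h1, h2, add_smul, mul_smul]
  have htor : IsTorus T' := by
    refine ⟨?_, ?_, ?_⟩
    · have h1 : D.T ≤ (envelope K L).toSubmodule := fun s hs => D.torus.le s hs
      have h2 : Submodule.span K {E} ≤ (envelope K L).toSubmodule := by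
        rw [Submodule.span_singleton_le_iff_mem]; exact hE
      intro s hs
      exact (sup_le h1 h2) hs
    · intro s hs t ht
      apply LinearMap.ext_on_range he
      intro α
      obtain ⟨r1, h1⟩ := hd s hs α
      obtain ⟨r2, h2⟩ := hd t ht α
      rw [Module.End.mul_apply, Module.End.mul_apply, h1, h2, map_smul, map_smul, h1, h2,
        smul_comm]
    · intro s hs
      exact isSemisimple_of_diag e he (hd s hs)
  have hlt : D.T < T' := by
    rw [hT']
    refine lt_of_le_of_ne le_sup_left ?_
    intro h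
    apply hcon
    rw [h]
    exact (le_sup_right : _ ≤ D.T ⊔ Submodule.span K {E}) (Submodule.mem_span_singleton_self E)
  have h1 := Submodule.finrank_lt_finrank_of_lt hlt
  have h2 : finrank K T' ≤ n := hrank.2 ⟨T', htor, rfl⟩
  omega

/-- The data extracted from a thin decomposition: weight vectors and structure constants. -/
theorem ThinDecomposition.exists_consts [CharP K 2] [FiniteDimensional K L]
    (hrank : AbsoluteToralRank K L n) :
    ∃ (e : (Fin n → ZMod 2) → L) (c : (Fin n → ZMod 2) → (Fin n → ZMod 2) → K),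
      (∀ α, α ≠ 0 → e α ≠ 0) ∧ (∀ α, D.space α = Submodule.span K {e α}) ∧
      (∀ α β, ⁅e α, e β⁆ = c α β • e (α + β)) ∧ Consts c ∧
      (∀ β, β ≠ 0 → ∃ α, α ≠ 0 ∧ ff c α β ≠ 0) := by
  classical
  obtain ⟨e, he0, hne, hsp⟩ := D.exists_family
  have htwo : ∀ α : Fin n → ZMod 2, α + α = 0 := by
    intro α; ext i
    exact CharTwo.add_self_eq_zero _
  have hmem : ∀ α, e α ∈ D.space α := fun α => by
    rw [hsp]; exact Submodule.mem_span_singleton_self _
  have hspan : Submodule.span K (Set.range e) = ⊤ := by
    rw [eq_top_iff, ← D.iSup_space]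
    refine iSup_le fun α => ?_
    rw [hsp, Submodule.span_singleton_le_iff_mem]
    exact Submodule.subset_span ⟨α, rfl⟩
  have hc : ∀ α β, ∃ t : K, ⁅e α, e β⁆ = t • e (α + β) ∧ (α = 0 ∨ β = 0 ∨ α = β → t = 0) := by
    intro α β
    by_cases hd : α = 0 ∨ β = 0 ∨ α = β
    · refine ⟨0, ?_, fun _ => rfl⟩
      rw [zero_smul]
      rcases hd with rfl | rfl | rfl
      · rw [he0, zero_lie]
      · rw [he0, lie_zero]
      · rw [lie_self]
    · have h1 := D.lie_mem_space (hmem α) (hmem β)
      rw [hsp, Submodule.mem_span_singleton] at h1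
      obtain ⟨t, ht⟩ := h1
      exact ⟨t, ht.symm, fun h => absurd h hd⟩
  choose c hc hc0 using hc
  have hchar : ∀ t : K, t + t = 0 := fun t => add_self_char2 K t
  have hneg : ∀ t : K, -t = t := fun t => neg_eq_of_add_eq_zero_left (hchar t)
  have hsymm : ∀ x y, c x y = c y x := by
    intro x y
    by_cases hd : x = 0 ∨ y = 0 ∨ x = y
    · rw [hc0 x y hd, hc0 y x (by tauto)]
    · have h1 := hc x y
      have h2 := hc y x
      rw [← lie_skew, h2, add_comm y x, ← neg_smul, hneg] at h1
      have hxy : x + y ≠ 0 := by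
        intro h
        apply hd
        right; right
        have : x + y + y = y := by rw [h, zero_add]
        rw [add_assoc, htwo, add_zero] at this
        exact this
      exact (smul_left_injective K (hne _ hxy) h1).symm
  have hdiag : ∀ x, c x x = 0 := fun x => hc0 x x (by tauto)
  have hJ : ∀ x y z, c x y * c (x + y) z + c y z * c (y + z) x + c z x * c (z + x) y = 0 := by
    intro x y z
    by_cases hz : x + y + z = 0
    · have h1 : z = x + y := by
        have : x + y + z + z = z := by rw [hz, zero_add]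
        rw [add_assoc, htwo, add_zero] at this
        exact this.symm
      have h2 : y + z = x := by
        rw [h1, ← add_assoc, add_comm y x, add_assoc, htwo, add_zero]
      have h3 : z + x = y := by
        rw [h1, add_comm (x + y) x, ← add_assoc, htwo, zero_add]
      rw [h2, h3, ← h1, hdiag, hdiag, hdiag]; simp
    · have h1 : ⁅⁅e x, e y⁆, e z⁆ = (c x y * c (x + y) z) • e (x + y + z) := by
        rw [hc x y, smul_lie, hc, smul_smul]
      have h2 : ⁅⁅e y, e z⁆, e x⁆ = (c y z * c (y + z) x) • e (x + y + z) := by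
        rw [hc y z, smul_lie, hc, smul_smul]
        congr 2; abel
      have h3 : ⁅⁅e z, e x⁆, e y⁆ = (c z x * c (z + x) y) • e (x + y + z) := by
        rw [hc z x, smul_lie, hc, smul_smul]
        congr 2; abel
      have h4 : ⁅⁅e x, e y⁆, e z⁆ + ⁅⁅e y, e z⁆, e x⁆ + ⁅⁅e z, e x⁆, e y⁆ = 0 := by
        have := lie_jacobi (e x) (e y) (e z)
        rw [← lie_skew ⁅e x, e y⁆ (e z), ← lie_skew ⁅e y, e z⁆ (e x),
          ← lie_skew ⁅e z, e x⁆ (e y)]
        have h5 : -⁅e z, ⁅e x, e y⁆⁆ + -⁅e x, ⁅e y, e z⁆⁆ + -⁅e y, ⁅e z, e x⁆⁆ =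
          -(⁅e x, ⁅e y, e z⁆⁆ + ⁅e y, ⁅e z, e x⁆⁆ + ⁅e z, ⁅e x, e y⁆⁆) := by abel
        rw [h5, this, neg_zero]
      rw [h1, h2, h3, ← add_smul, ← add_smul] at h4
      exact (smul_eq_zero.1 h4).resolve_right (hne _ hz)
  -- the elements of the torus are diagonal
  have hTd : ∀ s ∈ D.T, ∃ v : Fin n → K, ∀ α, s (e α) = (∑ i, if α i = 0 then 0 else v i) • e α := by
    intro s hs
    refine ⟨fun i => D.basis.repr ⟨s, hs⟩ i, fun α => ?_⟩
    have h1 := D.basis.sum_repr ⟨s, hs⟩
    have h2 : s = ∑ i, D.basis.repr ⟨s, hs⟩ i • (D.basis i : Module.End K L) := by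
      have := congrArg Subtype.val h1
      refine this.symm.trans ?_
      rw [Submodule.coe_sum]
      rfl
    conv_lhs => rw [h2]
    rw [LinearMap.sum_apply, Finset.sum_smul]
    refine Finset.sum_congr rfl fun i _ => ?_
    rw [LinearMap.smul_apply, D.mem_space_apply (hmem α)]
    split_ifs <;> simp
  have hTd' : ∀ s ∈ D.T, ∀ α, ∃ r : K, s (e α) = r • e α := by
    intro s hs α
    obtain ⟨v, hv⟩ := hTd s hs
    exact ⟨_, hv α⟩
  have hsq : ∀ a b, (LieAlgebra.ad K L (e a) * LieAlgebra.ad K L (e a)) (e b) =
      ff c a b • e b := by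
    intro a b
    rw [Module.End.mul_apply, LieAlgebra.ad_apply, LieAlgebra.ad_apply, hc, lie_smul, hc,
      smul_smul]
    unfold ff
    have : a + (a + b) = b := by rw [← add_assoc, htwo, zero_add]
    rw [this]
  have hsqT : ∀ a, LieAlgebra.ad K L (e a) * LieAlgebra.ad K L (e a) ∈ D.T := fun a =>
    D.diag_mem hrank e hspan hTd' (sq_mem_envelope (ad_mem_envelope _)) fun b => ⟨_, hsq a b⟩
  have hff0 : ∀ a, ff c a 0 = 0 := by
    intro a
    unfold ff
    rw [hc0 a 0 (by tauto), zero_mul]
  have hadd : ∀ a b b', ff c a (b + b') = ff c a b + ff c a b' := by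
    intro a
    obtain ⟨v, hv⟩ := hTd _ (hsqT a)
    have hf : ∀ b, ff c a b = ∑ i, if b i = 0 then 0 else v i := by
      intro b
      by_cases hb : b = 0
      · rw [hb, hff0]; simp
      · have h1 := hv b
        rw [hsq] at h1
        exact smul_left_injective K (hne b hb) h1
    intro b b'
    rw [hf, hf, hf, ← Finset.sum_add_distrib]
    refine Finset.sum_congr rfl fun i _ => ?_
    rw [Pi.add_apply]
    rcases zmod_two_cases (b i) with h1 | h1 <;> rcases zmod_two_cases (b' i) with h2 | h2 <;>
      rw [h1, h2]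
    · simp
    · simp
    · simp
    · have h3 : (1 : ZMod 2) + 1 = 0 := by decide
      rw [h3, if_neg one_ne_zero, if_pos rfl, hchar]
  refine ⟨e, c, hne, hsp, hc, ⟨htwo, hchar, hsymm, hdiag, hJ, hadd⟩, ?_⟩
  intro b hb
  by_contra hcon
  push Not at hcon
  have hfb : ∀ a, ff c a b = 0 := by
    intro a
    by_cases ha : a = 0
    · unfold ff
      rw [hc0 a b (Or.inl ha), zero_mul]
    · exact hcon a ha
  -- the subspace `ad L + T_b` is closed under brackets and squares
  let M0 : Submodule K (Module.End K L) :=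
    { carrier := {E | ∃ x : L, ∃ τ ∈ D.T, τ (e b) = 0 ∧ E = LieAlgebra.ad K L x + τ}
      zero_mem' := ⟨0, 0, D.T.zero_mem, by simp, by simp⟩
      add_mem' := by
        rintro _ _ ⟨x, τ, hτ, h0, rfl⟩ ⟨y, σ, hσ, h1, rfl⟩
        refine ⟨x + y, τ + σ, D.T.add_mem hτ hσ, by simp [h0, h1], ?_⟩
        rw [map_add]; abel
      smul_mem' := by
        rintro r _ ⟨x, τ, hτ, h0, rfl⟩
        refine ⟨r • x, r • τ, D.T.smul_mem r hτ, by simp [h0], ?_⟩
        rw [map_smul, smul_add] }
  have hadM : ∀ x : L, LieAlgebra.ad K L x ∈ M0 := fun x =>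
    ⟨x, 0, D.T.zero_mem, by simp, by simp⟩
  have hTM : ∀ τ ∈ D.T, τ (e b) = 0 → τ ∈ M0 := fun τ hτ h0 => ⟨0, τ, hτ, h0, by simp⟩
  have hbr : ∀ τ ∈ D.T, ∀ x : L, τ * LieAlgebra.ad K L x =
      LieAlgebra.ad K L (τ x) + LieAlgebra.ad K L x * τ := by
    intro τ hτ x
    ext y
    simp only [Module.End.mul_apply, LieAlgebra.ad_apply, LinearMap.add_apply]
    exact envelope_derivation (D.torus.le τ hτ) x y
  have hE2 : ∀ E : Module.End K L, E + E = 0 := fun E => add_self_char2 K E
  let M : LieSubalgebra K (Module.End K L) :=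
    { M0 with
      lie_mem' := by
        rintro _ _ ⟨x, τ, hτ, h0, rfl⟩ ⟨y, σ, hσ, h1, rfl⟩
        refine ⟨⁅x, y⁆ + τ y - σ x, 0, D.T.zero_mem, by simp, ?_⟩
        rw [LieRing.of_associative_ring_bracket, add_zero, map_sub, map_add, LieHom.map_lie,
          LieRing.of_associative_ring_bracket, mul_add, add_mul, add_mul, mul_add, add_mul,
          add_mul, hbr τ hτ y, hbr σ hσ x, D.torus.comm τ hτ σ hσ]
        abel }
  have hsqM : ∀ x : L, LieAlgebra.ad K L x * LieAlgebra.ad K L x ∈ M0 := by
    intro x
    have hx : x ∈ Submodule.span K (Set.range e) := by rw [hspan]; trivial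
    induction hx using Submodule.span_induction with
    | mem x hx =>
      obtain ⟨a, rfl⟩ := hx
      refine hTM _ (hsqT a) ?_
      rw [hsq, hfb, zero_smul]
    | zero => rw [map_zero, mul_zero]; exact M0.zero_mem
    | add x y _ _ hx hy =>
      have h1 : LieAlgebra.ad K L (x + y) * LieAlgebra.ad K L (x + y) =
          LieAlgebra.ad K L x * LieAlgebra.ad K L x + LieAlgebra.ad K L y * LieAlgebra.ad K L y +
            LieAlgebra.ad K L ⁅x, y⁆ := by
        have h2 := hE2 (LieAlgebra.ad K L y * LieAlgebra.ad K L x)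
        rw [map_add, mul_add, add_mul, add_mul, LieHom.map_lie,
          LieRing.of_associative_ring_bracket]
        have h3 : LieAlgebra.ad K L y * LieAlgebra.ad K L x =
          -(LieAlgebra.ad K L y * LieAlgebra.ad K L x) := eq_neg_of_add_eq_zero_left h2
        nth_rewrite 1 [h3]
        abel
      rw [h1]
      exact M0.add_mem (M0.add_mem hx hy) (hadM _)
    | smul r x _ hx =>
      rw [map_smul, smul_mul_smul_comm]
      exact M0.smul_mem _ hx
  have hMsq : ∀ E ∈ M, E * E ∈ M := by
    rintro _ ⟨x, τ, hτ, h0, rfl⟩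
    have h1 : (LieAlgebra.ad K L x + τ) * (LieAlgebra.ad K L x + τ) =
        LieAlgebra.ad K L x * LieAlgebra.ad K L x + LieAlgebra.ad K L (τ x) + τ * τ := by
      have h2 := hE2 (LieAlgebra.ad K L x * τ)
      rw [mul_add, add_mul, add_mul, hbr τ hτ x]
      calc LieAlgebra.ad K L x * LieAlgebra.ad K L x +
            (LieAlgebra.ad K L (τ x) + LieAlgebra.ad K L x * τ) +
            (LieAlgebra.ad K L x * τ + τ * τ)
          = LieAlgebra.ad K L x * LieAlgebra.ad K L x + LieAlgebra.ad K L (τ x) + τ * τ +
            (LieAlgebra.ad K L x * τ + LieAlgebra.ad K L x * τ) := by abel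
        _ = _ := by rw [h2, add_zero]
    rw [h1]
    refine M0.add_mem (M0.add_mem (hsqM x) (hadM _)) (hTM _ ?_ ?_)
    · refine D.diag_mem hrank e hspan hTd' (sq_mem_envelope (D.torus.le τ hτ)) fun a => ?_
      obtain ⟨r, hr⟩ := hTd' τ hτ a
      exact ⟨r * r, by rw [Module.End.mul_apply, hr, map_smul, hr, smul_smul]⟩
    · rw [Module.End.mul_apply, h0, map_zero]
  have hle : envelope K L ≤ M := envelope_le hadM hMsq
  obtain ⟨i, hi⟩ : ∃ i, b i ≠ 0 := by
    by_contra h
    push Not at h
    exact hb (funext h)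
  obtain ⟨x, τ, hτ, h0, hx⟩ := hle (D.torus.le _ (D.basis i).2)
  have h1 : LieAlgebra.ad K L x ∈ D.T := by
    have : LieAlgebra.ad K L x = (D.basis i : Module.End K L) - τ := by rw [hx]; abel
    rw [this]
    exact D.T.sub_mem (D.basis i).2 hτ
  have h2 : LieAlgebra.ad K L x = 0 := by
    have h3 : LieAlgebra.ad K L x ∈ D.T ⊓ LinearMap.range (LieAlgebra.ad K L).toLinearMap :=
      ⟨h1, ⟨x, rfl⟩⟩
    rw [D.inf_eq_bot] at h3
    exact h3
  rw [h2, zero_add] at hx
  have h4 := D.mem_space_apply (hmem b) i
  rw [hx, h0, if_neg hi] at h4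
  exact hne b hb h4.symm

end thin

end Q9.Thin
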