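import Pool.Agent.Q9.ThinLie

/-!
# Three-dimensional simple graded subalgebras of thin decompositions
-/

namespace Q9.Thin

open Module

section three

variable {K M : Type*} [Field K] [LieRing M] [LieAlgebra K M]

theorem three_step {u v w : M} {p r : K} (hp : p ≠ 0) (hr : r ≠ 0)
    {q : K} (h1 : ⁅u, v⁆ = p • w) (h2 : ⁅v, w⁆ = q • u) (h3 : ⁅w, u⁆ = r • v)
    (I : LieIdeal K M) {α β γ : K} (hα : α ≠ 0) (hx : α • u + β • v + γ • w ∈ I) : v ∈ I := by
  have e1 : ⁅v, α • u + β • v + γ • w⁆ ∈ I := lie_mem_right K M I _ _ hx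
  have e2 : ⁅u, ⁅v, α • u + β • v + γ • w⁆⁆ ∈ I := lie_mem_right K M I _ _ e1
  have h1' : ⁅v, u⁆ = -(p • w) := by rw [← lie_skew, h1]
  have h3' : ⁅u, w⁆ = -(r • v) := by rw [← lie_skew, h3]
  have e3 : ⁅u, ⁅v, α • u + β • v + γ • w⁆⁆ = (α * p * r) • v := by
    simp only [lie_add, lie_smul, h1', h2, lie_self, smul_zero, add_zero, lie_neg, h3', smul_neg,
      neg_neg, smul_smul]
  rw [e3] at e2
  have h0 : α * p * r ≠ 0 := mul_ne_zero (mul_ne_zero hα hp) hr
  have := I.smul_mem (α * p * r)⁻¹ e2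
  rwa [smul_smul, inv_mul_cancel₀ h0, one_smul] at this

theorem three_all {u v w : M} {p q : K} (hp : p ≠ 0) (hq : q ≠ 0)
    (h1 : ⁅u, v⁆ = p • w) (h2 : ⁅v, w⁆ = q • u)
    (hs : ∀ x : M, ∃ α β γ : K, x = α • u + β • v + γ • w)
    (I : LieIdeal K M) (hv : v ∈ I) : I = ⊤ := by
  have hw : w ∈ I := by
    have e : ⁅u, v⁆ ∈ I := lie_mem_right K M I _ _ hv
    rw [h1] at e
    have := I.smul_mem p⁻¹ e
    rwa [smul_smul, inv_mul_cancel₀ hp, one_smul] at this
  have hu : u ∈ I := by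
    have e : ⁅v, w⁆ ∈ I := lie_mem_right K M I _ _ hw
    rw [h2] at e
    have := I.smul_mem q⁻¹ e
    rwa [smul_smul, inv_mul_cancel₀ hq, one_smul] at this
  rw [eq_top_iff]
  intro x _
  obtain ⟨α, β, γ, rfl⟩ := hs x
  exact I.add_mem (I.add_mem (I.smul_mem _ hu) (I.smul_mem _ hv)) (I.smul_mem _ hw)

theorem isSimple_of_three {u v w : M} {p q r : K} (hp : p ≠ 0) (hq : q ≠ 0) (hr : r ≠ 0)
    (h1 : ⁅u, v⁆ = p • w) (h2 : ⁅v, w⁆ = q • u) (h3 : ⁅w, u⁆ = r • v) (hw : w ≠ 0)
    (hs : ∀ x : M, ∃ α β γ : K, x = α • u + β • v + γ • w) : LieAlgebra.IsSimple K M := by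
  refine ⟨?_, ?_⟩
  · intro I
    by_cases hI : I = ⊥
    · exact Or.inl hI
    right
    obtain ⟨x, hxI, hx0⟩ : ∃ x ∈ I, x ≠ 0 := by
      by_contra hcon
      push Not at hcon
      apply hI
      rw [eq_bot_iff]
      intro y hy
      rw [LieSubmodule.mem_bot]
      exact hcon y hy
    obtain ⟨α, β, γ, rfl⟩ := hs x
    have hs2 : ∀ x : M, ∃ α β γ : K, x = α • v + β • w + γ • u := by
      intro x
      obtain ⟨α, β, γ, rfl⟩ := hs x
      exact ⟨β, γ, α, by abel⟩
    have hs3 : ∀ x : M, ∃ α β γ : K, x = α • w + β • u + γ • v := by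
      intro x
      obtain ⟨α, β, γ, rfl⟩ := hs x
      exact ⟨γ, α, β, by abel⟩
    by_cases hα : α = 0
    · by_cases hβ : β = 0
      · have hγ : γ ≠ 0 := by
          rintro rfl
          apply hx0
          rw [hα, hβ]; simp
        have hx' : γ • w + α • u + β • v ∈ I := by
          have : γ • w + α • u + β • v = α • u + β • v + γ • w := by abel
          rw [this]; exact hxI
        exact three_all hr hp h3 h1 hs3 I (three_step hr hq h3 h1 h2 I hγ hx')
      · have hx' : β • v + γ • w + α • u ∈ I := by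
          have : β • v + γ • w + α • u = α • u + β • v + γ • w := by abel
          rw [this]; exact hxI
        exact three_all hq hr h2 h3 hs2 I (three_step hq hp h2 h3 h1 I hβ hx')
    · exact three_all hp hq h1 h2 hs I (three_step hp hr h1 h2 h3 I hα hxI)
  · intro h
    have : ⁅u, v⁆ = 0 := h.trivial u v
    rw [h1] at this
    rcases smul_eq_zero.1 this with h | h
    · exact hp h
    · exact hw h

end three

variable {K L : Type*} [Field K] [LieRing L] [LieAlgebra K L]

theorem exists_simple [CharP K 2] [FiniteDimensional K L] {n : ℕ} (hn : 1 ≤ n)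
    (hL : 3 < finrank K L)
    (hrank : AbsoluteToralRank K L n) (D : ThinDecomposition K L n) :
    ∃ (α β : Fin n → ZMod 2) (M : LieSubalgebra K L), α ≠ 0 ∧ β ≠ 0 ∧ α ≠ β ∧
      M.toSubmodule = ⨆ γ ∈ ({α, β, α + β} : Set (Fin n → ZMod 2)), D.space γ ∧
      M ≠ ⊤ ∧ LieAlgebra.IsSimple K M := by
  classical
  obtain ⟨e, c, hne, hsp, hc, hC, hpred⟩ := D.exists_consts hrank
  have : Nonempty (Fin n) := ⟨⟨0, hn⟩⟩
  have : Nontrivial (Fin n → ZMod 2) := inferInstance
  obtain ⟨a, b, h1, h2, h3⟩ := hC.exists_line hpred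
  have ha : a ≠ 0 := by
    rintro rfl
    apply h3
    rw [zero_add, hC.diag]
  have hb : b ≠ 0 := by
    rintro rfl
    apply h2
    rw [add_zero, hC.diag]
  have hab : a + b ≠ 0 := by
    intro h
    have : a = b := by
      have h4 := hC.cancel b a
      rw [add_comm b a, h, add_zero] at h4
      exact h4.symm
    apply h1
    rw [this, hC.diag]
  have e1 : ⁅e a, e b⁆ = c a b • e (a + b) := hc a b
  have e2 : ⁅e b, e (a + b)⁆ = c b (a + b) • e a := by
    rw [hc b (a + b), add_comm a b, hC.cancel]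
  have e3 : ⁅e (a + b), e a⁆ = c a (a + b) • e b := by
    rw [hc (a + b) a, hC.symm (a + b) a, add_comm (a + b) a, hC.cancel]
  have e1' : ⁅e b, e a⁆ = c a b • e (a + b) := by
    rw [hc b a, hC.symm b a, add_comm b a]
  have e2' : ⁅e (a + b), e b⁆ = c b (a + b) • e a := by
    rw [hc (a + b) b, hC.symm (a + b) b, add_comm (a + b) b, add_comm a b, hC.cancel]
  have e3' : ⁅e a, e (a + b)⁆ = c a (a + b) • e b := by
    rw [hc a (a + b), hC.cancel]
  let P : Submodule K L := Submodule.span K {e a, e b, e (a + b)}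
  have hmemP : ∀ x, x ∈ P ↔ ∃ α β γ : K, x = α • e a + β • e b + γ • e (a + b) := by
    intro x
    rw [Submodule.mem_span_triple]
    constructor
    · rintro ⟨α, β, γ, h⟩; exact ⟨α, β, γ, h.symm⟩
    · rintro ⟨α, β, γ, h⟩; exact ⟨α, β, γ, h.symm⟩
  let M : LieSubalgebra K L :=
    { P with
      lie_mem' := by
        intro x y hx hy
        obtain ⟨α, β, γ, rfl⟩ := (hmemP x).1 hx
        obtain ⟨α', β', γ', rfl⟩ := (hmemP y).1 hy
        refine (hmemP _).2 ⟨(β * γ' + γ * β') * c b (a + b), (α * γ' + γ * α') * c a (a + b),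
          (α * β' + β * α') * c a b, ?_⟩
        simp only [lie_add, add_lie, lie_smul, smul_lie, lie_self, e1, e2, e3, e1', e2', e3',
          smul_smul, smul_zero, add_zero, zero_add, add_mul, add_smul]
        module }
  have hMP : ∀ x, x ∈ M ↔ x ∈ P := fun x => Iff.rfl
  have hne' : a ≠ b := by
    rintro rfl
    exact h1 (hC.diag a)
  refine ⟨a, b, M, ha, hb, hne', ?_, ?_, ?_⟩
  · change P = _
    rw [iSup_insert, iSup_insert, iSup_singleton, hsp, hsp, hsp]
    rw [show P = Submodule.span K ({e a, e b, e (a + b)} : Set L) from rfl,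
      Submodule.span_insert, Submodule.span_insert]
  · intro h
    have h4 : P = ⊤ := by
      have := congrArg LieSubalgebra.toSubmodule h
      exact this
    have h5 : finrank K P ≤ 3 := by
      have h6 := finrank_span_finset_le_card (R := K) ({e a, e b, e (a + b)} : Finset L)
      have h7 : (({e a, e b, e (a + b)} : Finset L) : Set L) = {e a, e b, e (a + b)} := by simp
      rw [h7] at h6
      exact h6.trans Finset.card_le_three
    rw [h4, finrank_top] at h5
    omega
  · have hua : e a ∈ M := (hMP _).2 ((hmemP _).2 ⟨1, 0, 0, by simp⟩)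
    have hub : e b ∈ M := (hMP _).2 ((hmemP _).2 ⟨0, 1, 0, by simp⟩)
    have huc : e (a + b) ∈ M := (hMP _).2 ((hmemP _).2 ⟨0, 0, 1, by simp⟩)
    refine isSimple_of_three (u := (⟨e a, hua⟩ : M)) (v := ⟨e b, hub⟩) (w := ⟨e (a + b), huc⟩)
      h1 h3 h2 (Subtype.ext e1) (Subtype.ext e2) (Subtype.ext e3) ?_ ?_
    · intro h
      exact hne _ hab (congrArg Subtype.val h)
    · rintro ⟨x, hx⟩
      obtain ⟨α, β, γ, h⟩ := (hmemP x).1 hx
      exact ⟨α, β, γ, Subtype.ext h⟩

end Q9.Thin
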