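import Mathlib

/-!
# Truncated semigroup algebras

A monoid with zero whose monoid algebra over every nontrivial commutative ring is centrally
essential, and satisfies no polynomial identity.
-/

set_option autoImplicit false

namespace Q9.Trunc

/-- The monoid with identity `one`, zero element `zero` and further elements `(q, w)`, where `q` is
a positive rational and `w` is a word; the product of `(q, w)` and `(q', w')` is `(q + q', w w')` if
`q + q' ≤ 1`, and `zero` otherwise. -/
inductive Sg : Type
  | one : Sg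
  | zero : Sg
  | elt (q : ℚ) (hq : 0 < q) (w : FreeMonoid ℕ) : Sg

namespace Sg

open Classical in
/-- The product. -/
noncomputable def mul' : Sg → Sg → Sg
  | one, b => b
  | zero, _ => zero
  | elt q hq w, one => elt q hq w
  | elt _ _ _, zero => zero
  | elt q hq w, elt q' hq' w' =>
      if q + q' ≤ 1 then elt (q + q') (add_pos hq hq') (w * w') else zero

noncomputable instance : Mul Sg := ⟨mul'⟩

instance : One Sg := ⟨one⟩

@[simp] lemma one_eq : (one : Sg) = 1 := rfl

lemma mul_def (a b : Sg) : a * b = mul' a b := rfl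

lemma elt_mul_elt (q : ℚ) (hq : 0 < q) (w : FreeMonoid ℕ) (q' : ℚ) (hq' : 0 < q')
    (w' : FreeMonoid ℕ) (h : q + q' ≤ 1) :
    elt q hq w * elt q' hq' w' = elt (q + q') (add_pos hq hq') (w * w') := by
  rw [mul_def, mul', if_pos h]

lemma elt_mul_elt_of_lt (q : ℚ) (hq : 0 < q) (w : FreeMonoid ℕ) (q' : ℚ) (hq' : 0 < q')
    (w' : FreeMonoid ℕ) (h : 1 < q + q') :
    elt q hq w * elt q' hq' w' = zero := by
  rw [mul_def, mul', if_neg (not_le.2 h)]

lemma zero_mul' (a : Sg) : zero * a = zero := rfl

lemma mul_zero' (a : Sg) : a * zero = zero := by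
  cases a <;> rfl

lemma one_mul' (a : Sg) : 1 * a = a := rfl

lemma mul_one' (a : Sg) : a * 1 = a := by
  cases a <;> rfl

lemma mul_assoc' (a b c : Sg) : a * b * c = a * (b * c) := by
  rcases a with _ | _ | ⟨q, hq, w⟩
  · rfl
  · rfl
  · rcases b with _ | _ | ⟨q', hq', w'⟩
    · rw [one_eq, mul_one', one_mul']
    · rw [mul_zero', zero_mul', mul_zero']
    · rcases c with _ | _ | ⟨q'', hq'', w''⟩
      · rw [one_eq, mul_one', mul_one']
      · rw [mul_zero', mul_zero', mul_zero']
      · by_cases h : q + q' + q'' ≤ 1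
        · rw [elt_mul_elt _ _ _ _ _ _ (by linarith), elt_mul_elt _ _ _ _ _ _ h,
            elt_mul_elt _ _ _ _ _ _ (by linarith : q' + q'' ≤ 1),
            elt_mul_elt _ _ _ _ _ _ (by linarith)]
          congr 1
          · ring
          · rw [mul_assoc]
        · rw [not_le] at h
          have h1 : elt q hq w * elt q' hq' w' * elt q'' hq'' w'' = zero := by
            by_cases h2 : q + q' ≤ 1
            · rw [elt_mul_elt _ _ _ _ _ _ h2, elt_mul_elt_of_lt _ _ _ _ _ _ h]
            · rw [elt_mul_elt_of_lt _ _ _ _ _ _ (not_le.1 h2), zero_mul']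
          have h2 : elt q hq w * (elt q' hq' w' * elt q'' hq'' w'') = zero := by
            by_cases h3 : q' + q'' ≤ 1
            · rw [elt_mul_elt _ _ _ _ _ _ h3, elt_mul_elt_of_lt _ _ _ _ _ _ (by linarith)]
            · rw [elt_mul_elt_of_lt _ _ _ _ _ _ (not_le.1 h3), mul_zero']
          rw [h1, h2]

noncomputable instance : Monoid Sg where
  mul_assoc := mul_assoc'
  one_mul := one_mul'
  mul_one := mul_one'

instance : Countable Sg := by
  have : Function.Injective (fun s : Sg => match s with
    | one => (none : Option (Option (ℚ × FreeMonoid ℕ)))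
    | zero => some none
    | elt q _ w => some (some (q, w))) := by
    intro a b h
    cases a <;> cases b <;> simp_all
  exact this.countable

/-- Elements which are `zero` or of weight at least one; they are annihilated by all elements
different from the identity. -/
def Big (s : Sg) : Prop := s = zero ∨ ∃ (q : ℚ) (hq : 0 < q) (w : FreeMonoid ℕ),
  s = elt q hq w ∧ 1 ≤ q

lemma Big.comm {s : Sg} (hs : Big s) (t : Sg) : s * t = t * s := by
  rcases hs with rfl | ⟨q, hq, w, rfl, h1⟩
  · rw [zero_mul', mul_zero']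
  · rcases t with _ | _ | ⟨q', hq', w'⟩
    · rw [one_eq, mul_one', one_mul']
    · rw [mul_zero', zero_mul']
    · rw [elt_mul_elt_of_lt _ _ _ _ _ _ (by linarith), elt_mul_elt_of_lt _ _ _ _ _ _ (by linarith)]

lemma elt_one_comm (q : ℚ) (hq : 0 < q) (t : Sg) : elt q hq 1 * t = t * elt q hq 1 := by
  rcases t with _ | _ | ⟨q', hq', w'⟩
  · rw [one_eq, mul_one', one_mul']
  · rw [mul_zero', zero_mul']
  · by_cases h : q + q' ≤ 1
    · rw [elt_mul_elt _ _ _ _ _ _ h, elt_mul_elt _ _ _ _ _ _ (by linarith)]
      congr 1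
      · ring
      · rw [one_mul, mul_one]
    · rw [not_le] at h
      rw [elt_mul_elt_of_lt _ _ _ _ _ _ (by linarith), elt_mul_elt_of_lt _ _ _ _ _ _ (by linarith)]

end Sg

/-- Central essentiality: every nonzero `a` has a nonzero central multiple `a x` with `x` central
(and nonzero). -/
def CentrallyEssential (R : Type) [Ring R] : Prop :=
  ∀ a : R, a ≠ 0 → ∃ x ∈ Subring.center R, ∃ y ∈ Subring.center R, x ≠ 0 ∧ y ≠ 0 ∧ a * x = y

section

variable {B : Type} [CommRing B]

open MonoidAlgebra

lemma central_single {s : Sg} (hs : ∀ t, s * t = t * s) (r : B) :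
    (single s r : MonoidAlgebra B Sg) ∈ Subring.center (MonoidAlgebra B Sg) := by
  rw [Subring.mem_center_iff]
  intro g
  induction g using MonoidAlgebra.induction_linear with
  | zero => simp
  | add x y hx hy => rw [add_mul, mul_add, hx, hy]
  | single m r' => rw [single_mul_single, single_mul_single, hs, mul_comm]

lemma central_of_big (a : MonoidAlgebra B Sg) (ha : ∀ s ∈ a.coeff.support, Sg.Big s) :
    a ∈ Subring.center (MonoidAlgebra B Sg) := by
  rw [← MonoidAlgebra.sum_coeff_single a]
  apply Subring.sum_mem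
  intro s hs
  exact central_single (ha s hs).comm _

lemma support_mul_of (a : MonoidAlgebra B Sg) (t : Sg) (P : Sg → Prop)
    (h : ∀ s ∈ a.coeff.support, P (s * t)) :
    ∀ u ∈ (a * single t 1).coeff.support, P u := by
  classical
  intro u hu
  by_contra hP
  apply (Finsupp.mem_support_iff.1 hu)
  rw [← MonoidAlgebra.sum_coeff_single a, Finsupp.sum, Finset.sum_mul]
  rw [← MonoidAlgebra.coeffAddEquiv_apply, map_sum, Finsupp.finsetSum_apply]
  apply Finset.sum_eq_zero
  intro s hs
  rw [MonoidAlgebra.coeffAddEquiv_apply, single_mul_single, MonoidAlgebra.coeff_single, Finsupp.single_apply, if_neg]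
  intro he
  exact hP (he ▸ h s hs)

theorem centrallyEssential [Nontrivial B] : CentrallyEssential (MonoidAlgebra B Sg) := by
  intro a ha
  by_cases hbig : ∀ s ∈ a.coeff.support, Sg.Big s
  · exact ⟨1, Subring.one_mem _, a, central_of_big a hbig, one_ne_zero, ha, mul_one a⟩
  -- it suffices to find a central monoid element
  suffices h : ∃ (t u s : Sg), (∀ v, t * v = v * t) ∧ a.coeff s ≠ 0 ∧
      (∀ s' ∈ a.coeff.support, s' * t = u ↔ s' = s) ∧ (∀ s' ∈ a.coeff.support, Sg.Big (s' * t)) by
    obtain ⟨t, u, s, ht, hs, hu, hb⟩ := h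
    refine ⟨single t 1, central_single ht 1, a * single t 1,
      central_of_big _ (support_mul_of a t Sg.Big hb), ?_, ?_, rfl⟩
    · intro h0
      have := congrArg (fun x => MonoidAlgebra.coeff x t) h0
      simp at this
    · intro h0
      have h1 := MonoidAlgebra.coeff_mul_single_eq_coeff_mul (r := (1 : B)) (x := a) (m := t)
        (m₁ := u) s hu
      rw [h0, mul_one] at h1
      exact hs h1.symm
  by_cases hone : a.coeff 1 ≠ 0
  · refine ⟨.elt 1 one_pos 1, .elt 1 one_pos 1, 1, Sg.elt_one_comm 1 one_pos, hone, ?_, ?_⟩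
    · intro s' _
      rcases s' with _ | _ | ⟨q, hq, w⟩
      · simp
      · constructor
        · intro h; rw [Sg.zero_mul'] at h; cases h
        · intro h; cases h
      · constructor
        · intro h; rw [Sg.elt_mul_elt_of_lt _ _ _ _ _ _ (by linarith)] at h; cases h
        · intro h; cases h
    · intro s' _
      rcases s' with _ | _ | ⟨q, hq, w⟩
      · exact Or.inr ⟨1, one_pos, 1, rfl, le_rfl⟩
      · exact Or.inl rfl
      · left; rw [Sg.elt_mul_elt_of_lt _ _ _ _ _ _ (by linarith)]
  · rw [not_not] at hone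
    push Not at hbig
    obtain ⟨s0, hs0, hs0b⟩ := hbig
    classical
    -- minimal weight
    let wt : Sg → ℚ := fun s => match s with
      | .one => 0
      | .zero => 2
      | .elt q _ _ => q
    obtain ⟨s1, hs1, hmin⟩ := Finset.exists_min_image a.coeff.support wt ⟨s0, hs0⟩
    have hne : ∀ s ∈ a.coeff.support, s ≠ 1 := by
      intro s hs h
      rw [h, Finsupp.mem_support_iff] at hs
      exact hs hone
    have hs0lt : wt s0 < 1 := by
      rcases s0 with _ | _ | ⟨q, hq, w⟩
      · exact absurd rfl (hne _ hs0)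
      · exact absurd (Or.inl rfl) hs0b
      · show q < 1
        by_contra hq1
        exact hs0b (Or.inr ⟨q, hq, w, rfl, not_lt.1 hq1⟩)
    have hs1lt : wt s1 < 1 := lt_of_le_of_lt (hmin s0 hs0) hs0lt
    rcases s1 with _ | _ | ⟨q, hq, w⟩
    · exact absurd rfl (hne _ hs1)
    · exfalso
      have : (2 : ℚ) < 1 := hs1lt
      linarith
    · have hq1 : q < 1 := hs1lt
      have hmin' : ∀ s ∈ a.coeff.support, q ≤ wt s := hmin
      refine ⟨.elt (1 - q) (by linarith) 1, .elt 1 one_pos w, .elt q hq w,
        Sg.elt_one_comm _ _, Finsupp.mem_support_iff.1 hs1, ?_, ?_⟩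
      · intro s' hs'
        rcases s' with _ | _ | ⟨q', hq', w'⟩
        · exact absurd rfl (hne _ hs')
        · constructor
          · intro h; rw [Sg.zero_mul'] at h; cases h
          · intro h; cases h
        · have h1 : q ≤ q' := hmin' _ hs'
          rcases eq_or_lt_of_le h1 with h2 | h2
          · subst h2
            rw [Sg.elt_mul_elt _ _ _ _ _ _ (by linarith), mul_one]
            constructor
            · intro h
              injection h with _ h3
              rw [h3]
            · intro h
              injection h with _ h3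
              congr 1
              ring
          · rw [Sg.elt_mul_elt_of_lt _ _ _ _ _ _ (by linarith)]
            constructor
            · intro h; cases h
            · intro h; injection h with h3; exact absurd h3 h2.ne'
      · intro s' hs'
        rcases s' with _ | _ | ⟨q', hq', w'⟩
        · exact absurd rfl (hne _ hs')
        · exact Or.inl rfl
        · have h1 : q ≤ q' := hmin' _ hs'
          rcases eq_or_lt_of_le h1 with h2 | h2
          · subst h2
            rw [Sg.elt_mul_elt _ _ _ _ _ _ (by linarith)]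
            exact Or.inr ⟨_, _, _, rfl, by linarith⟩
          · left; rw [Sg.elt_mul_elt_of_lt _ _ _ _ _ _ (by linarith)]

theorem noncommutative [Nontrivial B] : ∃ x y : MonoidAlgebra B Sg, x * y ≠ y * x := by
  refine ⟨single (.elt (1 / 2) (by norm_num) (FreeMonoid.of 0)) 1,
    single (.elt (1 / 2) (by norm_num) (FreeMonoid.of 1)) 1, ?_⟩
  rw [single_mul_single, single_mul_single, Sg.elt_mul_elt _ _ _ _ _ _ (by norm_num),
    Sg.elt_mul_elt _ _ _ _ _ _ (by norm_num)]
  intro h
  rw [MonoidAlgebra.single_left_inj (by simp)] at h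
  injection h with _ h1
  have h2 := congrArg FreeMonoid.toList h1
  simp at h2

end

/-! ### Polynomial identities -/

/-- The value of a polynomial `f` in the noncommuting variables `x_0, …, x_{n-1}` with integer
coefficients (an element of the monoid algebra of the free monoid) at `r_0, …, r_{n-1}`. -/
noncomputable def evalNC {R : Type} [Ring R] {n : ℕ} (f : MonoidAlgebra ℤ (FreeMonoid (Fin n)))
    (r : Fin n → R) : R :=
  MonoidAlgebra.lift ℤ R (FreeMonoid (Fin n)) (FreeMonoid.lift r) f

/-- A ring is a PI ring if it satisfies `f = 0` for some polynomial `f` in noncommuting variables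
with integer coefficients such that at least one of the coefficients of the monomials of maximal
degree is `1`. -/
def IsPI (R : Type) [Ring R] : Prop :=
  ∃ (n : ℕ) (f : MonoidAlgebra ℤ (FreeMonoid (Fin n))),
    (∃ w, f.coeff w = 1 ∧ ∀ w', f.coeff w' ≠ 0 → w'.length ≤ w.length) ∧
    ∀ r : Fin n → R, evalNC f r = 0

lemma evalNC_map {R S : Type} [Ring R] [Ring S] (φ : R →+* S) {n : ℕ}
    (f : MonoidAlgebra ℤ (FreeMonoid (Fin n))) (r : Fin n → R) :
    φ (evalNC f r) = evalNC f (φ ∘ r) := by
  have h : (φ.toIntAlgHom).comp (MonoidAlgebra.lift ℤ R (FreeMonoid (Fin n)) (FreeMonoid.lift r)) =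
      MonoidAlgebra.lift ℤ S (FreeMonoid (Fin n)) (FreeMonoid.lift (φ ∘ r)) := by
    refine MonoidAlgebra.algHom_ext (fun w => ?_) (Subsingleton.elim _ _)
    show φ (MonoidAlgebra.lift ℤ R (FreeMonoid (Fin n)) (FreeMonoid.lift r)
      (MonoidAlgebra.single w 1)) = _
    rw [MonoidAlgebra.lift_single, MonoidAlgebra.lift_single, one_smul, one_smul]
    have h2 : ((φ : R →* S).comp (FreeMonoid.lift r)) = FreeMonoid.lift (φ ∘ r) := by
      apply FreeMonoid.hom_eq
      intro x
      simp
    exact DFunLike.congr_fun h2 w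
  exact DFunLike.congr_fun h f

lemma isPI_of_ringEquiv {R S : Type} [Ring R] [Ring S] (e : R ≃+* S) (h : IsPI S) : IsPI R := by
  obtain ⟨n, f, hf, h⟩ := h
  refine ⟨n, f, hf, fun r => ?_⟩
  apply e.injective
  have := evalNC_map (e : R →+* S) f r
  rw [map_zero]
  exact this.trans (h _)

section

variable {B : Type} [CommRing B]

open MonoidAlgebra

theorem not_isPI [Nontrivial B] : ¬ IsPI (MonoidAlgebra B Sg) := by
  classical
  rintro ⟨n, f, ⟨w, hw, hmax⟩, hf⟩
  set d := w.length with hd
  have hd1 : (0 : ℚ) < 1 / ((d : ℚ) + 1) := by positivity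
  -- the monoid homomorphism
  let ψ : FreeMonoid (Fin n) →* Sg := FreeMonoid.lift fun i =>
    Sg.elt (1 / ((d : ℚ) + 1)) hd1 (FreeMonoid.of (i : ℕ))
  have hψ : ∀ (v : FreeMonoid (Fin n)), v.length ≤ d → v ≠ 1 →
      ∃ hq, ψ v = Sg.elt (v.length / ((d : ℚ) + 1)) hq (FreeMonoid.map (fun i : Fin n => (i : ℕ)) v) := by
    intro v
    induction v using FreeMonoid.inductionOn' with
    | one => intro _ h; exact absurd rfl h
    | of_mul i v ih =>
      intro hlen _
      have hlen' : v.length ≤ d := by
        rw [FreeMonoid.length_mul, FreeMonoid.length_of] at hlen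
        omega
      rw [map_mul]
      have hi : ψ (FreeMonoid.of i) = Sg.elt (1 / ((d : ℚ) + 1)) hd1 (FreeMonoid.of (i : ℕ)) := by
        simp [ψ]
      by_cases hv : v = 1
      · subst hv
        refine ⟨by simpa using hd1, ?_⟩
        rw [map_one, mul_one, hi]
        congr 1
      · obtain ⟨hq, h1⟩ := ih hlen' hv
        rw [hi, h1]
        have hle : 1 / ((d : ℚ) + 1) + (v.length : ℚ) / ((d : ℚ) + 1) ≤ 1 := by
          rw [← add_div, div_le_one (by positivity)]
          have : (v.length : ℚ) ≤ d := by exact_mod_cast hlen'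
          linarith
        rw [Sg.elt_mul_elt _ _ _ _ _ _ hle]
        have he : 1 / ((d : ℚ) + 1) + (v.length : ℚ) / ((d : ℚ) + 1) =
            ((FreeMonoid.of i * v).length : ℚ) / ((d : ℚ) + 1) := by
          rw [FreeMonoid.length_mul, FreeMonoid.length_of]
          push_cast
          rw [add_div]
        refine ⟨he ▸ add_pos hd1 hq, ?_⟩
        congr 1
  have hinj : ∀ v : FreeMonoid (Fin n), v.length ≤ d → ψ v = ψ w → v = w := by
    intro v hv h
    by_cases h1 : v = 1
    · by_cases h2 : w = 1
      · rw [h1, h2]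
      · obtain ⟨hq, h3⟩ := hψ w le_rfl h2
        rw [h1, map_one, h3] at h
        cases h
    · obtain ⟨hq, h3⟩ := hψ v hv h1
      by_cases h2 : w = 1
      · rw [h2, map_one, h3] at h
        cases h
      · obtain ⟨hq', h4⟩ := hψ w le_rfl h2
        rw [h3, h4] at h
        injection h with _ h5
        have h6 := congrArg FreeMonoid.toList h5
        rw [FreeMonoid.toList_map, FreeMonoid.toList_map] at h6
        exact FreeMonoid.toList.injective (List.map_injective_iff.2 Fin.val_injective h6)
  have h0 := hf (fun i => single (Sg.elt (1 / ((d : ℚ) + 1)) hd1 (FreeMonoid.of (i : ℕ))) (1 : B))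
  have h1 : ∀ v : FreeMonoid (Fin n), (FreeMonoid.lift (fun i : Fin n =>
      (single (Sg.elt (1 / ((d : ℚ) + 1)) hd1 (FreeMonoid.of (i : ℕ))) (1 : B) :
        MonoidAlgebra B Sg)) v) = single (ψ v) 1 := by
    intro v
    have h2 : (FreeMonoid.lift (fun i : Fin n =>
      (single (Sg.elt (1 / ((d : ℚ) + 1)) hd1 (FreeMonoid.of (i : ℕ))) (1 : B) :
        MonoidAlgebra B Sg))) = (MonoidAlgebra.of B Sg).comp ψ := by
      apply FreeMonoid.hom_eq
      intro x
      simp [ψ]
    rw [h2]
    rfl
  rw [evalNC, MonoidAlgebra.lift_apply] at h0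
  simp only [h1] at h0
  have h2 := congrArg (fun x => MonoidAlgebra.coeff x (ψ w)) h0
  simp only [MonoidAlgebra.coeff_zero, Finsupp.coe_zero, Pi.zero_apply] at h2
  rw [← MonoidAlgebra.coeffAddEquiv_apply, map_finsuppSum, Finsupp.sum_apply] at h2
  rw [Finsupp.sum, Finset.sum_eq_single w] at h2
  · rw [hw, one_smul, MonoidAlgebra.coeffAddEquiv_apply, MonoidAlgebra.coeff_single,
      Finsupp.single_eq_same] at h2
    exact one_ne_zero h2
  · intro v hv hvw
    have hv' : v.length ≤ d := hmax v (Finsupp.mem_support_iff.1 hv)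
    rw [map_zsmul, MonoidAlgebra.coeffAddEquiv_apply, MonoidAlgebra.coeff_single,
      Finsupp.smul_apply, Finsupp.single_apply, if_neg, smul_zero]
    intro h
    exact hvw (hinj v hv' h)
  · intro h
    rw [Finsupp.notMem_support_iff.1 h]
    simp

end

/-! ### Transport -/

lemma centrallyEssential_of_ringEquiv {R S : Type} [Ring R] [Ring S] (e : R ≃+* S)
    (h : CentrallyEssential R) : CentrallyEssential S := by
  intro a ha
  have ha' : e.symm a ≠ 0 := fun h0 => ha (by rw [← e.apply_symm_apply a, h0, map_zero])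
  obtain ⟨x, hx, y, hy, hx0, hy0, hxy⟩ := h _ ha'
  have hc : ∀ z ∈ Subring.center R, e z ∈ Subring.center S := by
    intro z hz
    rw [Subring.mem_center_iff] at hz ⊢
    intro g
    have := congrArg e (hz (e.symm g))
    rwa [map_mul, map_mul, e.apply_symm_apply] at this
  refine ⟨e x, hc x hx, e y, hc y hy, ?_, ?_, ?_⟩
  · intro h0
    exact hx0 (e.injective (by rw [h0, map_zero]))
  · intro h0
    exact hy0 (e.injective (by rw [h0, map_zero]))
  · rw [← hxy, map_mul, e.apply_symm_apply]

instance countable_monoidAlgebra {B M : Type} [CommRing B] [Countable B] [Countable M] :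
    Countable (MonoidAlgebra B M) :=
  MonoidAlgebra.coeff_injective.countable

lemma free_monoidAlgebra {B M : Type} [CommRing B] [Module.Free ℤ B] [Monoid M] :
    Module.Free ℤ (MonoidAlgebra B M) := by
  have e : (M →₀ B) ≃+ MonoidAlgebra B M := (MonoidAlgebra.coeffAddEquiv).symm
  exact Module.Free.of_equiv e.toIntLinearEquiv

end Q9.Trunc
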