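import Mathlib

/-!
# The twisted products `Tw b`

For a commutative group `M` and a family `b : ι → M` the group `Tw b` is the central extension of
the free abelian group on two copies of `ι` by `M` in which the commutator of the `i`-th basis
vector of the first copy with the `i`-th basis vector of the second copy is `b i`.
-/

namespace Q9.KO

open Topology

variable {ι M : Type*}

/-- A type synonym for pairs of finitely supported integer valued functions; it carries the
discrete topology. -/
def Dsc (ι : Type*) : Type _ := (ι →₀ ℤ) × (ι →₀ ℤ)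

noncomputable instance : AddCommGroup (Dsc ι) := inferInstanceAs (AddCommGroup ((ι →₀ ℤ) × (ι →₀ ℤ)))

instance : TopologicalSpace (Dsc ι) := ⊥

instance : DiscreteTopology (Dsc ι) := ⟨rfl⟩

/-- The pairing of two finitely supported functions, with values in `M`. -/
noncomputable def beta [CommGroup M] (b : ι → M) (x y : ι →₀ ℤ) : M :=
  x.prod fun i c => b i ^ (c * y i)

section beta

variable [CommGroup M] (b : ι → M)

theorem beta_add_left (x x' y : ι →₀ ℤ) : beta b (x + x') y = beta b x y * beta b x' y := by
  unfold beta
  rw [Finsupp.prod_add_index']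
  · intro i; simp
  · intro i c c'; rw [add_mul, zpow_add]

theorem beta_add_right (x y y' : ι →₀ ℤ) : beta b x (y + y') = beta b x y * beta b x y' := by
  unfold beta
  rw [← Finsupp.prod_mul]
  refine Finsupp.prod_congr fun i _ => ?_
  rw [Finsupp.add_apply, mul_add, zpow_add]

theorem beta_zero_left (y : ι →₀ ℤ) : beta b 0 y = 1 := by
  simp [beta]

theorem beta_zero_right (x : ι →₀ ℤ) : beta b x 0 = 1 := by
  simp [beta]

theorem beta_neg_left (x y : ι →₀ ℤ) : beta b (-x) y = (beta b x y)⁻¹ := by
  rw [eq_inv_iff_mul_eq_one, ← beta_add_left, neg_add_cancel, beta_zero_left]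

theorem beta_single_single [DecidableEq ι] (i j : ι) :
    beta b (Finsupp.single i 1) (Finsupp.single j 1) = if i = j then b i else 1 := by
  unfold beta
  rw [Finsupp.prod_single_index (by simp)]
  by_cases h : i = j
  · subst h; simp
  · rw [if_neg h, Finsupp.single_apply, if_neg (fun e => h e.symm)]; simp

end beta

/-- The twisted product of `M` with the free abelian group on two copies of `ι`. -/
def Tw (_b : ι → M) : Type _ := M × Dsc ι

namespace Tw

instance [TopologicalSpace M] (b : ι → M) : TopologicalSpace (Tw b) :=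
  inferInstanceAs (TopologicalSpace (M × Dsc ι))

instance [TopologicalSpace M] [T2Space M] (b : ι → M) : T2Space (Tw b) :=
  inferInstanceAs (T2Space (M × Dsc ι))

instance [TopologicalSpace M] [LocallyCompactSpace M] (b : ι → M) :
    LocallyCompactSpace (Tw b) :=
  inferInstanceAs (LocallyCompactSpace (M × Dsc ι))

variable [CommGroup M] (b : ι → M)

noncomputable instance : Mul (Tw b) :=
  ⟨fun g h => (g.1 * h.1 * beta b g.2.1 h.2.2, g.2 + h.2)⟩

noncomputable instance : One (Tw b) := ⟨((1 : M), (0 : Dsc ι))⟩

noncomputable instance : Inv (Tw b) := ⟨fun g => (g.1⁻¹ * beta b g.2.1 g.2.2, -g.2)⟩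

theorem mul_def (g h : Tw b) : g * h = (g.1 * h.1 * beta b g.2.1 h.2.2, g.2 + h.2) := rfl

theorem one_def : (1 : Tw b) = ((1 : M), (0 : Dsc ι)) := rfl

theorem inv_def (g : Tw b) : g⁻¹ = (g.1⁻¹ * beta b g.2.1 g.2.2, -g.2) := rfl

@[simp] theorem fst_mul (g h : Tw b) : (g * h).1 = g.1 * h.1 * beta b g.2.1 h.2.2 := rfl
@[simp] theorem snd_mul (g h : Tw b) : (g * h).2 = g.2 + h.2 := rfl
@[simp] theorem fst_one : (1 : Tw b).1 = 1 := rfl
@[simp] theorem snd_one : (1 : Tw b).2 = 0 := rfl
@[simp] theorem fst_inv (g : Tw b) : (g⁻¹).1 = g.1⁻¹ * beta b g.2.1 g.2.2 := rfl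
@[simp] theorem snd_inv (g : Tw b) : (g⁻¹).2 = -g.2 := rfl

theorem Dsc.fst_add (d e : Dsc ι) : (d + e).1 = d.1 + e.1 := rfl
theorem Dsc.snd_add (d e : Dsc ι) : (d + e).2 = d.2 + e.2 := rfl
theorem Dsc.fst_neg (d : Dsc ι) : (-d).1 = -d.1 := rfl
theorem Dsc.fst_zero : (0 : Dsc ι).1 = 0 := rfl
theorem Dsc.snd_zero : (0 : Dsc ι).2 = 0 := rfl

noncomputable instance : Group (Tw b) :=
  Group.ofLeftAxioms
    (by
      intro g h k
      refine Prod.ext ?_ (add_assoc _ _ _)
      simp only [fst_mul, snd_mul, Dsc.fst_add, Dsc.snd_add, beta_add_left, beta_add_right]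
      simp only [mul_assoc, mul_comm, mul_left_comm])
    (by
      intro g
      refine Prod.ext ?_ (zero_add _)
      simp only [fst_mul, fst_one, snd_one, Dsc.fst_zero, beta_zero_left, one_mul, mul_one])
    (by
      intro g
      refine Prod.ext ?_ (neg_add_cancel _)
      simp only [fst_mul, fst_inv, snd_inv, Dsc.fst_neg, beta_neg_left, fst_one]
      rw [mul_assoc g.1⁻¹, mul_comm (beta b g.2.1 g.2.2), ← mul_assoc, mul_assoc,
        mul_inv_cancel, mul_one, inv_mul_cancel])

instance [TopologicalSpace M] [IsTopologicalGroup M] : IsTopologicalGroup (Tw b) where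
  continuous_mul := by
    refine Continuous.prodMk ?_ ?_
    · refine Continuous.mul ?_ ?_
      · exact (continuous_fst.comp continuous_fst).mul (continuous_fst.comp continuous_snd)
      · have h1 : Continuous fun p : Dsc ι × Dsc ι => beta b p.1.1 p.2.2 :=
          continuous_of_discreteTopology
        exact h1.comp ((continuous_snd.comp continuous_fst).prodMk
          (continuous_snd.comp continuous_snd))
    · have h1 : Continuous fun p : Dsc ι × Dsc ι => p.1 + p.2 :=
        continuous_of_discreteTopology
      exact h1.comp ((continuous_snd.comp continuous_fst).prodMk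
        (continuous_snd.comp continuous_snd))
  continuous_inv := by
    refine Continuous.prodMk ?_ ?_
    · refine Continuous.mul (continuous_inv.comp continuous_fst) ?_
      have h1 : Continuous fun p : Dsc ι => beta b p.1 p.2 :=
        continuous_of_discreteTopology
      exact h1.comp continuous_snd
    · have h1 : Continuous fun p : Dsc ι => -p :=
        continuous_of_discreteTopology
      exact h1.comp continuous_snd

end Tw

end Q9.KO
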