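import Pool.Agent.Q9.TwGroup

/-!
# The common kernel of the ordinary representations of `Tw b`
-/

namespace Q9.KO

open Topology

/-- The intersection of the kernels of all continuous homomorphisms from `G` to the groups
`GL_n(ℂ)`. -/
def KO (G : Type*) [Group G] [TopologicalSpace G] : Subgroup G :=
  ⨅ (n : ℕ) (ρ : G →ₜ* GL (Fin n) ℂ), ρ.toMonoidHom.ker

theorem mem_KO {G : Type*} [Group G] [TopologicalSpace G] {g : G} :
    g ∈ KO G ↔ ∀ (n : ℕ) (ρ : G →ₜ* GL (Fin n) ℂ), ρ g = 1 := by
  simp only [KO, Subgroup.mem_iInf, MonoidHom.mem_ker]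
  rfl

/-- Infinitely many commuting copies of a Heisenberg relation cannot live in a
finite-dimensional algebra. -/
theorem central_eq_one {K R : Type*} [Field K] [Ring R] [Algebra K R] [FiniteDimensional K R]
    (X Y : ℕ → R) (C : R) (hX : ∀ k, IsUnit (X k)) (hY : ∀ k, IsUnit (Y k))
    (h1 : ∀ k l, k ≠ l → X k * Y l = Y l * X k)
    (h2 : ∀ k, X k * Y k = C * (Y k * X k)) : C = 1 := by
  by_contra hC
  have hli : LinearIndependent K X := by
    rw [linearIndependent_iff']
    intro s g hs l hl
    have e1 : (∑ k ∈ s, g k • X k) * Y l - Y l * (∑ k ∈ s, g k • X k) = 0 := by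
      rw [hs]; simp
    rw [Finset.sum_mul, Finset.mul_sum, ← Finset.sum_sub_distrib,
      Finset.sum_eq_single_of_mem l hl] at e1
    · rw [smul_mul_assoc, mul_smul_comm, ← smul_sub, h2] at e1
      have e2 : C * (Y l * X l) - Y l * X l = (C - 1) * (Y l * X l) := by
        rw [sub_mul, one_mul]
      rw [e2] at e1
      by_contra hg
      have e3 : (C - 1) * (Y l * X l) = 0 := by
        have := congrArg (fun r => (g l)⁻¹ • r) e1
        simpa [smul_smul, inv_mul_cancel₀ hg] using this
      have e4 : C - 1 = 0 := (((hY l).mul (hX l)).mul_left_eq_zero).1 e3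
      exact hC (sub_eq_zero.1 e4)
    · intro k _ hkl
      rw [smul_mul_assoc, mul_smul_comm, h1 k l hkl, sub_self]
  have := hli.finite_of_isNoetherian
  exact not_finite ℕ

variable {ι M : Type*} [CommGroup M] [TopologicalSpace M] (b : ι → M)

/-- The central copy of `M` in `Tw b`. -/
noncomputable def Tw.incl : M →* Tw b where
  toFun a := ((a, (0 : Dsc ι)) : M × Dsc ι)
  map_one' := rfl
  map_mul' x y := by
    refine Prod.ext ?_ (add_zero _).symm
    change x * y = x * y * beta b 0 0
    rw [beta_zero_left, mul_one]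

theorem Tw.incl_def (a : M) : Tw.incl b a = ((a, (0 : Dsc ι)) : M × Dsc ι) := rfl

/-- Basis elements of the first copy. -/
noncomputable def Tw.ex (i : ι) : Tw b := ((1, ((Finsupp.single i 1, 0) : (ι →₀ ℤ) × (ι →₀ ℤ))) : M × Dsc ι)

/-- Basis elements of the second copy. -/
noncomputable def Tw.ey (i : ι) : Tw b := ((1, ((0, Finsupp.single i 1) : (ι →₀ ℤ) × (ι →₀ ℤ))) : M × Dsc ι)

theorem Tw.ex_mul_ey [DecidableEq ι] (i j : ι) :
    Tw.ex b i * Tw.ey b j = Tw.incl b (if i = j then b i else 1) * (Tw.ey b j * Tw.ex b i) := by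
  refine Prod.ext ?_ ?_
  · change 1 * 1 * beta b (Finsupp.single i 1) (Finsupp.single j 1) =
      (if i = j then b i else 1) * (1 * 1 * beta b 0 0) * beta b 0 (Finsupp.single j 1 + 0)
    rw [beta_single_single, beta_zero_left, beta_zero_left]
    simp
  · refine Prod.ext ?_ ?_
    · change Finsupp.single i 1 + 0 = (0 : ι →₀ ℤ) + (0 + Finsupp.single i 1)
      simp
    · change 0 + Finsupp.single j 1 = (0 : ι →₀ ℤ) + (Finsupp.single j 1 + 0)
      simp

/-- If every value of `b` is taken infinitely often then `M` lies in the common kernel. -/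
theorem Tw.incl_mem_KO (a : M) (f : ℕ → ι) (hf : Function.Injective f) (hb : ∀ k, b (f k) = a) :
    Tw.incl b a ∈ KO (Tw b) := by
  classical
  rw [mem_KO]
  intro n ρ
  have key : ((ρ (Tw.incl b a) : GL (Fin n) ℂ) : Matrix (Fin n) (Fin n) ℂ) = 1 := by
    refine central_eq_one (K := ℂ) (fun k => ((ρ (Tw.ex b (f k)) : GL (Fin n) ℂ) :
      Matrix (Fin n) (Fin n) ℂ)) (fun k => ((ρ (Tw.ey b (f k)) : GL (Fin n) ℂ) :
      Matrix (Fin n) (Fin n) ℂ)) _ (fun k => Units.isUnit _) (fun k => Units.isUnit _) ?_ ?_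
    · intro k l hkl
      have h := Tw.ex_mul_ey b (f k) (f l)
      rw [if_neg (fun e => hkl (hf e)), map_one, one_mul] at h
      have h' := congrArg (fun g => ((ρ g : GL (Fin n) ℂ) : Matrix (Fin n) (Fin n) ℂ)) h
      simpa using h'
    · intro k
      have h := Tw.ex_mul_ey b (f k) (f k)
      rw [if_pos rfl, hb] at h
      have h' := congrArg (fun g => ((ρ g : GL (Fin n) ℂ) : Matrix (Fin n) (Fin n) ℂ)) h
      simpa using h'
  exact Units.ext key

/-- An element of infinite order of `GL_1(ℂ)`. -/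
noncomputable def two : GL (Fin 1) ℂ :=
  Matrix.GeneralLinearGroup.mkOfDetNeZero (Matrix.diagonal fun _ => (2 : ℂ)) (by simp)

theorem two_zpow {k : ℤ} (h : two ^ k = 1) : k = 0 := by
  have h1 : (Matrix.GeneralLinearGroup.det two : ℂˣ) ^ k = 1 := by
    rw [← map_zpow, h, map_one]
  have h2 : ((Matrix.GeneralLinearGroup.det two : ℂˣ) : ℂ) = 2 := by
    simp [two, Matrix.GeneralLinearGroup.mkOfDetNeZero]
  have h3 : ((2 : ℂ)) ^ k = 1 := by
    have := congrArg (fun u : ℂˣ => (u : ℂ)) h1
    simpa [h2] using this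
  have h4 : (2 : ℝ) ^ k = 1 := by
    have := congrArg (fun u : ℂ => ‖u‖) h3
    simpa using this
  by_contra hk
  rcases lt_or_gt_of_ne hk with hk | hk
  · have := zpow_lt_one_of_neg₀ (by norm_num : (1 : ℝ) < 2) hk
    linarith
  · have := one_lt_zpow₀ (by norm_num : (1 : ℝ) < 2) hk
    linarith

/-- The character attached to an additive map on the discrete part. -/
noncomputable def Tw.char (φ : Dsc ι →+ ℤ) : Tw b →ₜ* GL (Fin 1) ℂ where
  toFun g := two ^ (φ g.2)
  map_one' := by
    change two ^ (φ 0) = 1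
    simp
  map_mul' g h := by
    change two ^ (φ (g.2 + h.2)) = _
    rw [map_add, zpow_add]
  continuous_toFun := by
    have h1 : Continuous fun d : Dsc ι => two ^ (φ d) := continuous_of_discreteTopology
    exact h1.comp continuous_snd

theorem Tw.snd_eq_zero_of_mem_KO {g : Tw b} (hg : g ∈ KO (Tw b)) : g.2 = 0 := by
  rw [mem_KO] at hg
  refine Prod.ext ?_ ?_
  · ext i
    exact two_zpow (hg 1 (Tw.char b ((Finsupp.applyAddHom i).comp (AddMonoidHom.fst _ _))))
  · ext i
    exact two_zpow (hg 1 (Tw.char b ((Finsupp.applyAddHom i).comp (AddMonoidHom.snd _ _))))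

/-- If every value of `b` is taken infinitely often then the common kernel is `M`. -/
noncomputable def Tw.equivKO (h : ∀ a : M, ∃ f : ℕ → ι, Function.Injective f ∧ ∀ k, b (f k) = a) :
    M ≃ₜ* KO (Tw b) where
  toFun a := ⟨Tw.incl b a, by
    obtain ⟨f, hf, hb⟩ := h a
    exact Tw.incl_mem_KO b a f hf hb⟩
  invFun g := (g : Tw b).1
  left_inv a := rfl
  right_inv g := by
    apply Subtype.ext
    refine Prod.ext rfl ?_
    exact (Tw.snd_eq_zero_of_mem_KO b g.2).symm
  map_mul' x y := by
    apply Subtype.ext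
    exact (Tw.incl b).map_mul x y
  continuous_toFun := by
    refine Continuous.subtype_mk ?_ _
    exact Continuous.prodMk continuous_id continuous_const
  continuous_invFun := continuous_fst.comp continuous_subtype_val

end Q9.KO
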