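import Pool.Agent.Q9.TwKO

/-!
# Lie groups, pro-Lie groups and the groups `Tw b`
-/

namespace Q9.KO

open Topology Filter
open scoped Manifold ContDiff Uniformity

universe u

/-- `L` is a (Hausdorff, finite-dimensional, real, smooth) Lie group, for some manifold structure
inducing the given topology. Discrete groups are Lie groups. -/
def IsLie (L : Type*) [Group L] [TopologicalSpace L] : Prop :=
  T2Space L ∧ ∃ (E : Type) (_ : NormedAddCommGroup E) (_ : NormedSpace ℝ E)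
    (_ : FiniteDimensional ℝ E) (H : Type) (_ : TopologicalSpace H)
    (I : ModelWithCorners ℝ E H) (_ : I.Boundaryless) (_ : ChartedSpace H L), LieGroup I ∞ L

/-- `G` is a pro-Lie group: it is Hausdorff and complete, and every neighbourhood of the identity
contains the kernel of a continuous open surjective homomorphism onto a Lie group. -/
def IsProLie (G : Type u) [Group G] [TopologicalSpace G] [IsTopologicalGroup G] : Prop :=
  T2Space G ∧ @CompleteSpace G (IsTopologicalGroup.rightUniformSpace G) ∧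
    ∀ U ∈ 𝓝 (1 : G), ∃ (L : Type u) (_ : Group L) (_ : TopologicalSpace L) (_ : IsLie L)
      (f : G →* L), IsOpenQuotientMap f ∧ (f.ker : Set G) ⊆ U

variable {ι M : Type*} [CommGroup M] [TopologicalSpace M] (b : ι → M)

theorem Tw.complete [IsTopologicalGroup M]
    (h : @CompleteSpace M (IsTopologicalGroup.rightUniformSpace M)) :
    @CompleteSpace (Tw b) (IsTopologicalGroup.rightUniformSpace (Tw b)) := by
  let u1 := IsTopologicalGroup.rightUniformSpace M
  let u2 := IsTopologicalGroup.rightUniformSpace (Tw b)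
  refine ⟨fun {F} hF => ?_⟩
  have hF1 := hF.1
  have hT : Tendsto (fun p : Tw b × Tw b => p.2 * p.1⁻¹) (F ×ˢ F) (𝓝 1) :=
    tendsto_iff_comap.2 hF.2
  have hV : {g : Tw b | g.2 = 0} ∈ 𝓝 (1 : Tw b) := by
    have ho : IsOpen {g : Tw b | g.2 = 0} := by
      have h0 : IsOpen ({0} : Set (Dsc ι)) := isOpen_discrete _
      exact h0.preimage continuous_snd
    exact ho.mem_nhds rfl
  have hW := hT hV
  rw [mem_map, mem_prod_self_iff] at hW
  obtain ⟨t, ht, hts⟩ := hW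
  obtain ⟨g0, hg0⟩ := hF1.nonempty_of_mem ht
  have hsnd : ∀ g ∈ t, ∀ g' ∈ t, g.2 = g'.2 := by
    intro g hg g' hg'
    have h1 : g.2 + -g'.2 = 0 := hts (Set.mk_mem_prod hg' hg)
    exact sub_eq_zero.1 ((sub_eq_add_neg _ _).trans h1)
  have hT1 : Tendsto (fun p : Tw b × Tw b => (p.2 * p.1⁻¹).1) (F ×ˢ F) (𝓝 (1 : M)) :=
    (continuous_fst.tendsto _).comp hT
  have hT2 : Tendsto (fun p : Tw b × Tw b => p.2.1 * p.1.1⁻¹) (F ×ˢ F) (𝓝 (1 : M)) := by
    refine hT1.congr' ?_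
    filter_upwards [prod_mem_prod ht ht] with p hp
    have e := hsnd _ hp.2 _ hp.1
    change p.2.1 * (p.1.1⁻¹ * beta b p.1.2.1 p.1.2.2) * beta b p.2.2.1 (-p.1.2.2) = _
    rw [e]
    have e2 : beta b p.1.2.1 (-p.1.2.2) = (beta b p.1.2.1 p.1.2.2)⁻¹ := by
      rw [eq_inv_iff_mul_eq_one, ← beta_add_right, neg_add_cancel, beta_zero_right]
    rw [e2, mul_assoc, mul_assoc, mul_inv_cancel, mul_one]
  have hC : Cauchy (map (fun g : Tw b => g.1) F) := by
    refine ⟨hF1.map _, ?_⟩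
    rw [prod_map_map_eq]
    exact tendsto_iff_comap.1 (tendsto_map'_iff.2 hT2)
  obtain ⟨m, hm⟩ := h.complete hC
  refine ⟨((m, g0.2) : M × Dsc ι), ?_⟩
  have hφ : Continuous (fun m : M => (((m, g0.2) : M × Dsc ι) : Tw b)) :=
    Continuous.prodMk continuous_id continuous_const
  have h3 : Tendsto (fun g : Tw b => (((g.1, g0.2) : M × Dsc ι) : Tw b)) F
      (𝓝 (((m, g0.2) : M × Dsc ι) : Tw b)) := by
    have := (hφ.tendsto m).mono_left hm
    exact tendsto_map'_iff.1 this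
  have h4 : Tendsto (fun g : Tw b => g) F (𝓝 (((m, g0.2) : M × Dsc ι) : Tw b)) := by
    refine h3.congr' ?_
    filter_upwards [ht] with g hg
    exact Prod.ext rfl (hsnd _ hg0 _ hg)
  exact h4

theorem Tw.isLie (h : IsLie M) : IsLie (Tw b) := by
  obtain ⟨h2, E, _, _, _, H, _, I, hI, hc, hL⟩ := h
  refine ⟨inferInstance, E × PUnit, inferInstance, inferInstance, inferInstance,
    ModelProd H PUnit, inferInstance, I.prod 𝓘(ℝ, PUnit), inferInstance, ?_⟩
  let cD : ChartedSpace PUnit (Dsc ι) := ChartedSpace.ofDiscreteTopology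
  let _ : IsManifold 𝓘(ℝ, PUnit) ∞ (Dsc ι) := IsManifold.of_discreteTopology _
  let c1 : ChartedSpace (ModelProd H PUnit) (M × Dsc ι) := inferInstance
  let c2 : ChartedSpace (ModelProd H PUnit) (Tw b) := c1
  have m1 : IsManifold (I.prod 𝓘(ℝ, PUnit)) ∞ (M × Dsc ι) := inferInstance
  refine ⟨c2, ?_⟩
  have : IsManifold (I.prod 𝓘(ℝ, PUnit)) ∞ (Tw b) := m1
  have hfst : ContMDiff (I.prod 𝓘(ℝ, PUnit)) I ∞ (fun g : Tw b => g.1) :=
    contMDiff_fst (I := I) (J := 𝓘(ℝ, PUnit)) (M := M) (N := Dsc ι)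
  have hsnd : ContMDiff (I.prod 𝓘(ℝ, PUnit)) 𝓘(ℝ, PUnit) ∞ (fun g : Tw b => g.2) :=
    contMDiff_snd (I := I) (J := 𝓘(ℝ, PUnit)) (M := M) (N := Dsc ι)
  have hβ : ContMDiff ((I.prod 𝓘(ℝ, PUnit)).prod (I.prod 𝓘(ℝ, PUnit))) I ∞
      (fun p : Tw b × Tw b => beta b p.1.2.1 p.2.2.2) := by
    have h1 : ContMDiff (𝓘(ℝ, PUnit).prod 𝓘(ℝ, PUnit)) I ∞
        (fun p : Dsc ι × Dsc ι => beta b p.1.1 p.2.2) := contMDiff_of_discreteTopology
    exact h1.comp ((hsnd.comp contMDiff_fst).prodMk (hsnd.comp contMDiff_snd))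
  have hadd : ContMDiff ((I.prod 𝓘(ℝ, PUnit)).prod (I.prod 𝓘(ℝ, PUnit))) 𝓘(ℝ, PUnit) ∞
      (fun p : Tw b × Tw b => p.1.2 + p.2.2) := by
    have h1 : ContMDiff (𝓘(ℝ, PUnit).prod 𝓘(ℝ, PUnit)) 𝓘(ℝ, PUnit) ∞
        (fun p : Dsc ι × Dsc ι => p.1 + p.2) := contMDiff_of_discreteTopology
    exact h1.comp ((hsnd.comp contMDiff_fst).prodMk (hsnd.comp contMDiff_snd))
  have hβ2 : ContMDiff (I.prod 𝓘(ℝ, PUnit)) I ∞ (fun g : Tw b => beta b g.2.1 g.2.2) := by
    have h1 : ContMDiff 𝓘(ℝ, PUnit) I ∞ (fun p : Dsc ι => beta b p.1 p.2) :=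
      contMDiff_of_discreteTopology
    exact h1.comp hsnd
  have hneg : ContMDiff (I.prod 𝓘(ℝ, PUnit)) 𝓘(ℝ, PUnit) ∞ (fun g : Tw b => -g.2) := by
    have h1 : ContMDiff 𝓘(ℝ, PUnit) 𝓘(ℝ, PUnit) ∞ (fun p : Dsc ι => -p) :=
      contMDiff_of_discreteTopology
    exact h1.comp hsnd
  refine @LieGroup.mk _ _ _ _ _ _ _ _ _ _ _ _ _ (@ContMDiffMul.mk _ _ _ _ _ _ _ _ _ _ _ _ _ ?_ ?_) ?_
  · exact m1
  · have h1 : ContMDiff ((I.prod 𝓘(ℝ, PUnit)).prod (I.prod 𝓘(ℝ, PUnit))) I ∞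
        (fun p : Tw b × Tw b => p.1.1 * p.2.1 * beta b p.1.2.1 p.2.2.2) :=
      ((hfst.comp contMDiff_fst).mul (hfst.comp contMDiff_snd)).mul hβ
    exact h1.prodMk hadd
  · have h1 : ContMDiff (I.prod 𝓘(ℝ, PUnit)) I ∞
        (fun g : Tw b => g.1⁻¹ * beta b g.2.1 g.2.2) := hfst.inv.mul hβ2
    exact h1.prodMk hneg

/-- Functoriality of `Tw` in the group. -/
noncomputable def Tw.map {L : Type*} [CommGroup L] (f : M →* L) :
    Tw b →* Tw (fun i => f (b i)) where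
  toFun g := ((f g.1, g.2) : L × Dsc ι)
  map_one' := by
    refine Prod.ext ?_ rfl
    exact f.map_one
  map_mul' g h := by
    refine Prod.ext ?_ rfl
    change f (g.1 * h.1 * beta b g.2.1 h.2.2) = f g.1 * f h.1 * beta (fun i => f (b i)) g.2.1 h.2.2
    rw [map_mul, map_mul]
    congr 1
    unfold beta
    rw [map_finsuppProd]
    simp only [map_zpow]

theorem Tw.isProLie {ι M : Type u} [CommGroup M] [TopologicalSpace M] [IsTopologicalGroup M]
    (b : ι → M) (h : IsProLie M) : IsProLie (Tw b) := by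
  obtain ⟨h1, h2, h3⟩ := h
  refine ⟨inferInstance, Tw.complete b h2, ?_⟩
  intro U hU
  have hc : Continuous (fun m : M => Tw.incl b m) :=
    Continuous.prodMk continuous_id continuous_const
  have hU' : (fun m : M => Tw.incl b m) ⁻¹' U ∈ 𝓝 (1 : M) := by
    refine hc.continuousAt.preimage_mem_nhds ?_
    rw [map_one]; exact hU
  obtain ⟨L, gL, tL, hL, f, hf, hker⟩ := h3 _ hU'
  let cL : CommGroup L := { gL with
    mul_comm := by
      intro x y
      obtain ⟨x, rfl⟩ := hf.surjective x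
      obtain ⟨y, rfl⟩ := hf.surjective y
      rw [← map_mul, ← map_mul, mul_comm] }
  refine ⟨Tw (fun i => f (b i)), inferInstance, inferInstance,
    Tw.isLie (M := L) (fun i => f (b i)) hL, Tw.map (L := L) b f, ?_, ?_⟩
  · refine ⟨?_, ?_, ?_⟩
    · exact hf.surjective.prodMap Function.surjective_id
    · exact hf.continuous.prodMap continuous_id
    · exact hf.isOpenMap.prodMap IsOpenMap.id
  · rintro ⟨m, d⟩ hg
    have hg' := MonoidHom.mem_ker.1 hg
    have e1 : f m = 1 := congrArg (fun g : Tw (fun i => f (b i)) => g.1) hg'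
    have e2 : d = 0 := congrArg (fun g : Tw (fun i => f (b i)) => g.2) hg'
    subst e2
    exact hker (MonoidHom.mem_ker.2 e1)

end Q9.KO
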